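import Mathlib

set_option autoImplicit false

namespace Pool.Agent.Lib.MP_f6ab77_co

open Finset Polynomial

/-- No level set of `f` contains a box whose sides are `r`-element subsets of the `U i`. -/
def Good {t : ℕ} (r : ℕ) (U : Fin t → Finset ℕ) (f : (Fin t → ℕ) → ℕ) : Prop :=
  ∀ (z : ℕ) (S : Fin t → Finset ℕ), (∀ i, S i ⊆ U i) → (∀ i, (S i).card = r) →
    ∃ e : Fin t → ℕ, (∀ i, e i ∈ S i) ∧ f e ≠ z

/-- the polynomial over `ZMod p` whose coefficients are the first `r` base `p` digits of `z` -/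
noncomputable def digPoly (p r z : ℕ) : (ZMod p)[X] :=
  ∑ k ∈ range r, C ((z / p ^ k % p : ℕ) : ZMod p) * X ^ k

theorem digPoly_degree_lt (p r z : ℕ) : (digPoly p r z).degree < r := by
  unfold digPoly
  rw [← mem_degreeLT]
  apply Submodule.sum_mem
  intro k hk
  rw [mem_degreeLT]
  refine (degree_C_mul_X_pow_le k _).trans_lt ?_
  exact_mod_cast mem_range.mp hk

theorem digPoly_coeff (p r z k : ℕ) (hk : k < r) :
    (digPoly p r z).coeff k = ((z / p ^ k % p : ℕ) : ZMod p) := by
  unfold digPoly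
  rw [finsetSum_coeff]
  simp only [coeff_C_mul, coeff_X_pow]
  rw [sum_eq_single k]
  · simp
  · intro b _ hb
    simp [Ne.symm hb]
  · intro h
    exact absurd (mem_range.mpr hk) h

theorem digits_inj (p : ℕ) (hp : 0 < p) : ∀ (r z z' : ℕ), z < p ^ r → z' < p ^ r →
    (∀ k < r, z / p ^ k % p = z' / p ^ k % p) → z = z' := by
  intro r
  induction r with
  | zero =>
    intro z z' h h' _
    simp at h h'
    omega
  | succ r ih =>
    intro z z' h h' hk
    have h0 := hk 0 (Nat.succ_pos r)
    simp at h0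
    have h1 : z / p = z' / p := by
      apply ih
      · rw [Nat.div_lt_iff_lt_mul hp]
        rwa [pow_succ] at h
      · rw [Nat.div_lt_iff_lt_mul hp]
        rwa [pow_succ] at h'
      · intro k hkr
        have := hk (k + 1) (Nat.succ_lt_succ hkr)
        rw [pow_succ', ← Nat.div_div_eq_div_mul, ← Nat.div_div_eq_div_mul] at this
        exact this
    rw [← Nat.div_add_mod z p, ← Nat.div_add_mod z' p, h1, h0]

theorem digPoly_inj (p : ℕ) (hp : 0 < p) (r z z' : ℕ) (hz : z < p ^ r) (hz' : z' < p ^ r)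
    (h : digPoly p r z = digPoly p r z') : z = z' := by
  apply digits_inj p hp r z z' hz hz'
  intro k hk
  have h1 := congrArg (fun P => P.coeff k) h
  simp only [digPoly_coeff p r _ k hk] at h1
  have h2 := (ZMod.natCast_eq_natCast_iff' _ _ _).mp h1
  rwa [Nat.mod_mod, Nat.mod_mod] at h2

/-- the next level function -/
noncomputable def nextF {t : ℕ} (p r : ℕ) (f : (Fin t → ℕ) → ℕ) (e : Fin (t + 1) → ℕ) : ℕ :=
  (((e (Fin.last t) / p : ℕ) : ZMod p)
    - (digPoly p r (f (fun i => e i.castSucc))).eval ((e (Fin.last t) : ℕ) : ZMod p)).val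

theorem nextF_lt {t : ℕ} (p r : ℕ) [NeZero p] (f : (Fin t → ℕ) → ℕ) (e : Fin (t + 1) → ℕ) :
    nextF p r f e < p := ZMod.val_lt _

theorem nextF_good {t : ℕ} (p r : ℕ) (hp : p.Prime) (hr : 1 ≤ r) (U : Fin t → Finset ℕ)
    (f : (Fin t → ℕ) → ℕ) (hf : Good r U f) (hlt : ∀ e, f e < p ^ r)
    (U' : Fin (t + 1) → Finset ℕ) (hU : ∀ i, U' i.castSucc = U i)
    (hlast : ∀ x ∈ U' (Fin.last t), x < p ^ 2) :
    Good r U' (nextF p r f) := by
  have : Fact p.Prime := ⟨hp⟩
  have : NeZero p := ⟨hp.ne_zero⟩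
  intro z S hS hcard
  by_contra hcon
  push Not at hcon
  -- for all e in the box the value is z
  have hbox : ∀ e : Fin t → ℕ, (∀ i, e i ∈ S i.castSucc) → ∀ x ∈ S (Fin.last t),
      (digPoly p r (f e)).eval ((x : ℕ) : ZMod p) = ((x / p : ℕ) : ZMod p) - (z : ZMod p) := by
    intro e he x hx
    have h1 := hcon (Fin.snoc e x) (by
      intro i
      refine Fin.lastCases ?_ (fun j => ?_) i
      · simpa using hx
      · simpa using he j)
    unfold nextF at h1
    simp only [Fin.snoc_last, Fin.snoc_castSucc] at h1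
    have h2 : (((x / p : ℕ) : ZMod p) - (digPoly p r (f e)).eval ((x : ℕ) : ZMod p)) = (z : ZMod p) := by
      rw [← h1, ZMod.natCast_val, ZMod.cast_id', id]
    rw [← h2]
    ring
  -- the points of the last side have distinct first coordinates
  obtain ⟨x0, hx0⟩ : (S (Fin.last t)).Nonempty := by
    rw [← card_pos, hcard]; omega
  have hinj : ∀ e : Fin t → ℕ, (∀ i, e i ∈ S i.castSucc) →
      Set.InjOn (fun x : ℕ => ((x : ℕ) : ZMod p)) (S (Fin.last t)) := by
    intro e he x hx y hy hxy
    simp only [Finset.mem_coe] at hx hy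
    simp only at hxy
    have h1 := hbox e he x hx
    have h2 := hbox e he y hy
    rw [hxy, h2] at h1
    have h3 : ((x / p : ℕ) : ZMod p) = ((y / p : ℕ) : ZMod p) := by
      linear_combination -h1
    have h4 := (ZMod.natCast_eq_natCast_iff' _ _ _).mp h3
    have h5 := (ZMod.natCast_eq_natCast_iff' _ _ _).mp hxy
    have hx2 := hlast x (hS _ hx)
    have hy2 := hlast y (hS _ hy)
    have h6 : x / p < p := by
      rw [Nat.div_lt_iff_lt_mul hp.pos]; nlinarith
    have h7 : y / p < p := by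
      rw [Nat.div_lt_iff_lt_mul hp.pos]; nlinarith
    rw [Nat.mod_eq_of_lt h6, Nat.mod_eq_of_lt h7] at h4
    rw [← Nat.div_add_mod x p, ← Nat.div_add_mod y p, h4, h5]
  -- hence f is constant on the box
  have hconst : ∀ e e' : Fin t → ℕ, (∀ i, e i ∈ S i.castSucc) → (∀ i, e' i ∈ S i.castSucc) →
      f e = f e' := by
    intro e e' he he'
    apply digPoly_inj p hp.pos r _ _ (hlt e) (hlt e')
    have hsub : (digPoly p r (f e) - digPoly p r (f e')) = 0 := by
      by_contra hne
      have hdeg : (digPoly p r (f e) - digPoly p r (f e')).degree < r :=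
        (degree_sub_le _ _).trans_lt (max_lt (digPoly_degree_lt _ _ _) (digPoly_degree_lt _ _ _))
      have hroots : (S (Fin.last t)).card ≤ (digPoly p r (f e) - digPoly p r (f e')).roots.toFinset.card := by
        rw [← card_image_of_injOn (hinj e he)]
        apply card_le_card
        intro y hy
        obtain ⟨x, hx, rfl⟩ := mem_image.mp hy
        rw [Multiset.mem_toFinset, mem_roots hne, IsRoot, eval_sub, hbox e he x hx, hbox e' he' x hx]
        ring
      have h1 := hroots.trans ((Multiset.toFinset_card_le _).trans (card_roots' _))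
      rw [hcard] at h1
      have h2 : (digPoly p r (f e) - digPoly p r (f e')).natDegree < r := by
        rwa [natDegree_lt_iff_degree_lt hne]
      omega
    exact sub_eq_zero.mp hsub
  -- contradiction with goodness of f
  have hne : ∀ i : Fin t, ∃ x, x ∈ S i.castSucc := by
    intro i
    have : (S i.castSucc).Nonempty := by rw [← card_pos, hcard]; omega
    exact this
  choose e0 he0 using hne
  obtain ⟨e, he, hfe⟩ := hf (f e0) (fun i => S i.castSucc)
    (fun i => (hS i.castSucc).trans (by rw [hU i])) (fun i => hcard _)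
  exact hfe (hconst e e0 he he0)

/-- the one-part level function -/
theorem base_good (r : ℕ) (hr : 2 ≤ r) (U : Fin 1 → Finset ℕ) : Good r U (fun e => e 0) := by
  intro z S _ hcard
  have h1 : 1 < (S 0).card := by rw [hcard]; omega
  obtain ⟨x, hx, hxz⟩ := Finset.exists_mem_ne h1 z
  exact ⟨fun _ => x, fun i => by rw [Subsingleton.elim i 0]; exact hx, hxz⟩

/-- restricting the values: making the function bounded by a default value outside -/
theorem Good.congr {t : ℕ} {r : ℕ} {U : Fin t → Finset ℕ} {f g : (Fin t → ℕ) → ℕ}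
    (hf : Good r U f) (h : ∀ e, (∀ i, e i ∈ U i) → f e = g e) : Good r U g := by
  intro z S hS hcard
  obtain ⟨e, he, hne⟩ := hf z S hS hcard
  exact ⟨e, he, by rw [← h e (fun i => hS i (he i))]; exact hne⟩

/-- iterating: level functions with few values on boxes of unequal sides -/
theorem exists_level (r : ℕ) (hr : 2 ≤ r) (N : ℕ) (hN : 1 ≤ N) : ∀ (t : ℕ) (m : Fin (t + 1) → ℕ),
    m 0 ≤ N → (∀ i, (m i) ^ (r ^ (i : ℕ)) ≤ N ^ 2) →
    ∃ (P : ℕ) (f : (Fin (t + 1) → ℕ) → ℕ), 1 ≤ P ∧ (∀ e, f e < P) ∧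
      N ≤ P ^ (r ^ t) ∧ (∃ B : ℕ, B = 4 ^ (∑ j ∈ range t, r ^ (j + 1)) ∧ P ^ (r ^ t) ≤ B * N) ∧
      Good r (fun i => range (m i)) f := by
  intro t
  induction t with
  | zero =>
    intro m h0 _
    refine ⟨N, fun e => if e 0 < N then e 0 else 0, hN, ?_, ?_, ⟨1, by simp, by simp⟩, ?_⟩
    · intro e
      show (if e 0 < N then e 0 else 0) < N
      split_ifs with h
      · exact h
      · omega
    · simp
    · refine (base_good r hr _).congr ?_
      intro e he
      have h1 := he 0
      rw [mem_range] at h1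
      show e 0 = if e 0 < N then e 0 else 0
      rw [if_pos (lt_of_lt_of_le h1 h0)]
  | succ t ih =>
    intro m h0 hm
    obtain ⟨P, f, hP1, hfP, hNP, ⟨B, hB, hPB⟩, hgood⟩ := ih (fun i => m i.castSucc) h0
      (fun i => by simpa using hm i.castSucc)
    -- x = least x with P ≤ x ^ r
    have hex : ∃ x : ℕ, P ≤ x ^ r := ⟨P, Nat.le_self_pow (by omega) P⟩
    set x := Nat.find hex with hx
    have hxr : P ≤ x ^ r := Nat.find_spec hex
    have hx1 : 1 ≤ x := by
      by_contra h
      have h2 : x = 0 := by omega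
      rw [h2, zero_pow (by omega)] at hxr
      omega
    have hxle : x ^ r ≤ 2 ^ r * P := by
      rcases Nat.lt_or_ge x 2 with h | h
      · have h2 : x = 1 := by omega
        rw [h2, one_pow]
        exact Nat.mul_pos (by positivity) hP1
      · have h3 : ¬ P ≤ (x - 1) ^ r := Nat.find_min hex (by omega)
        push Not at h3
        calc x ^ r ≤ (2 * (x - 1)) ^ r := Nat.pow_le_pow_left (by omega) r
          _ = 2 ^ r * (x - 1) ^ r := by rw [mul_pow]
          _ ≤ 2 ^ r * P := Nat.mul_le_mul_left _ h3.le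
    obtain ⟨p, hp, hxp, hp2⟩ := Nat.exists_prime_lt_and_le_two_mul x (by omega)
    have : NeZero p := ⟨hp.ne_zero⟩
    refine ⟨p, nextF p r f, hp.one_lt.le, fun e => nextF_lt p r f e, ?_, ⟨4 ^ (∑ j ∈ range (t + 1), r ^ (j + 1)), rfl, ?_⟩, ?_⟩
    · calc N ≤ P ^ (r ^ t) := hNP
        _ ≤ (x ^ r) ^ (r ^ t) := Nat.pow_le_pow_left hxr _
        _ = x ^ (r ^ (t + 1)) := by rw [← pow_mul, pow_succ' r t]
        _ ≤ p ^ (r ^ (t + 1)) := Nat.pow_le_pow_left hxp.le _
    · calc p ^ (r ^ (t + 1)) ≤ (2 * x) ^ (r ^ (t + 1)) := Nat.pow_le_pow_left hp2 _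
        _ = (2 ^ r * x ^ r) ^ (r ^ t) := by rw [← mul_pow, ← pow_mul, pow_succ' r t]
        _ ≤ (2 ^ r * (2 ^ r * P)) ^ (r ^ t) := Nat.pow_le_pow_left (Nat.mul_le_mul_left _ hxle) _
        _ = 4 ^ (r ^ (t + 1)) * P ^ (r ^ t) := by
            rw [← mul_assoc, ← mul_pow, mul_pow, ← pow_mul, pow_succ' r t]
            norm_num
        _ ≤ 4 ^ (r ^ (t + 1)) * (B * N) := Nat.mul_le_mul_left _ hPB
        _ = 4 ^ (∑ j ∈ range (t + 1), r ^ (j + 1)) * N := by
            rw [sum_range_succ, pow_add, hB]; ring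
    · apply nextF_good p r hp (by omega) (fun i => range (m i.castSucc)) f hgood
      · intro e
        exact (hfP e).trans_le (hxr.trans (Nat.pow_le_pow_left hxp.le r))
      · intro i
        rfl
      · intro y hy
        rw [mem_range] at hy
        have h1 := hm (Fin.last (t + 1))
        have h2 : (m (Fin.last (t + 1))) ^ (r ^ (t + 1)) ≤ (x ^ 2) ^ (r ^ (t + 1)) := by
          calc (m (Fin.last (t + 1))) ^ (r ^ (t + 1)) ≤ N ^ 2 := by simpa using h1
            _ ≤ (P ^ (r ^ t)) ^ 2 := Nat.pow_le_pow_left hNP 2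
            _ ≤ ((x ^ r) ^ (r ^ t)) ^ 2 := Nat.pow_le_pow_left (Nat.pow_le_pow_left hxr _) 2
            _ = (x ^ 2) ^ (r ^ (t + 1)) := by
                rw [← pow_mul, ← pow_mul, ← pow_mul, pow_succ' r t]
                congr 1
                ring
        have h3 : m (Fin.last (t + 1)) ≤ x ^ 2 :=
          (Nat.pow_le_pow_iff_left (by positivity)).mp h2
        calc y < m (Fin.last (t + 1)) := hy
          _ ≤ x ^ 2 := h3
          _ ≤ p ^ 2 := Nat.pow_le_pow_left hxp.le 2

end Pool.Agent.Lib.MP_f6ab77_co
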