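import Mathlib
import Pool.Prelude.Def_H_02624fa1
import Pool.Agent.Lib.MP_f6ab77_co.Lower

set_option autoImplicit false

namespace Pool.Agent.Lib.MP_f6ab77_co

open Finset

/-- `H` is a `t`-partite `t`-graph with parts `{i} × Fin (m i)`: each edge has exactly one vertex
in every part. -/
def IsPartite {t : ℕ} {m : Fin t → ℕ} (H : Finset (Finset (Σ i, Fin (m i)))) : Prop :=
  ∀ e ∈ H, ∀ i, ∃! x : Fin (m i), (⟨i, x⟩ : Σ i, Fin (m i)) ∈ e

theorem sig_ext {t : ℕ} {m : Fin t → ℕ} {v w : Σ i, Fin (m i)} (h1 : v.1 = w.1)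
    (h2 : (v.2 : ℕ) = (w.2 : ℕ)) : v = w := by
  obtain ⟨i, x⟩ := v
  obtain ⟨j, y⟩ := w
  simp only at h1
  subst h1
  simp only at h2
  rw [Fin.ext h2]

/-- the transversal given by a choice of one vertex per part -/
def transversal {t : ℕ} {m : Fin t → ℕ} (g : ∀ i, Fin (m i)) : Finset (Σ i, Fin (m i)) :=
  univ.image (fun i => (⟨i, g i⟩ : Σ i, Fin (m i)))

theorem mem_transversal {t : ℕ} {m : Fin t → ℕ} (g : ∀ i, Fin (m i)) (v : Σ i, Fin (m i)) :
    v ∈ transversal g ↔ v.2 = g v.1 := by
  unfold transversal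
  constructor
  · intro h
    obtain ⟨i, _, rfl⟩ := mem_image.mp h
    rfl
  · intro h
    refine mem_image.mpr ⟨v.1, mem_univ _, ?_⟩
    rw [← h]

theorem transversal_injective {t : ℕ} {m : Fin t → ℕ} : Function.Injective (transversal (m := m)) := by
  intro g g' h
  funext i
  have h1 : (⟨i, g i⟩ : Σ i, Fin (m i)) ∈ transversal g' := by
    rw [← h, mem_transversal]
  rw [mem_transversal] at h1
  exact h1

theorem isPartite_iff {t : ℕ} {m : Fin t → ℕ} (H : Finset (Finset (Σ i, Fin (m i)))) :
    IsPartite H ↔ ∀ e ∈ H, ∃ g : ∀ i, Fin (m i), transversal g = e := by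
  constructor
  · intro h e he
    choose g hg hu using h e he
    refine ⟨g, ?_⟩
    ext v
    rw [mem_transversal]
    constructor
    · intro hv
      have := hg v.1
      rw [← hv] at this
      exact this
    · intro hv
      exact hu v.1 v.2 hv
  · intro h e he i
    obtain ⟨g, rfl⟩ := h e he
    refine ⟨g i, ?_, ?_⟩
    · show (⟨i, g i⟩ : Σ i, Fin (m i)) ∈ transversal g
      rw [mem_transversal]
    · intro y hy
      have : (⟨i, y⟩ : Σ i, Fin (m i)) ∈ transversal g := hy
      rw [mem_transversal] at this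
      exact this

/-- For `t`-partite `H`: a copy of `K_t(r)` is a box. -/
theorem contains_iff {t r : ℕ} (hr : 1 ≤ r) {m : Fin t → ℕ}
    (H : Finset (Finset (Σ i, Fin (m i)))) (hH : IsPartite H) :
    H.ContainsCompletePartiteHypergraph t r ↔
      ∃ S : Fin t → Finset ℕ, (∀ i, S i ⊆ range (m i)) ∧ (∀ i, (S i).card = r) ∧
        ∀ g : ∀ i, Fin (m i), (∀ i, (g i : ℕ) ∈ S i) → transversal g ∈ H := by
  rw [isPartite_iff] at hH
  constructor
  · rintro ⟨F, hF⟩
    have x0 : Fin r := ⟨0, by omega⟩
    -- parts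
    have hinj : ∀ a : Fin t → Fin r, Function.Injective (fun i => (F (i, a i)).1) := by
      intro a i j hij
      simp only at hij
      obtain ⟨g, hg⟩ := hH _ (hF a)
      have h1 : F (i, a i) ∈ transversal g := by rw [hg]; exact mem_image.mpr ⟨i, mem_univ _, rfl⟩
      have h2 : F (j, a j) ∈ transversal g := by rw [hg]; exact mem_image.mpr ⟨j, mem_univ _, rfl⟩
      rw [mem_transversal] at h1 h2
      have h3 : F (i, a i) = F (j, a j) := by
        apply sig_ext hij
        rw [h1, h2, hij]
      have h4 := F.injective h3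
      exact (Prod.mk.inj h4).1
    have hconst : ∀ i x y, (F (i, x)).1 = (F (i, y)).1 := by
      intro i x y
      by_contra hne
      set a : Fin t → Fin r := fun _ => x with ha
      set a' : Fin t → Fin r := Function.update a i y with ha'
      obtain ⟨j, hj⟩ := (Finite.injective_iff_surjective.mp (hinj a)) (F (i, y)).1
      simp only at hj
      by_cases hji : j = i
      · rw [hji] at hj
        exact hne hj
      · apply hji
        apply hinj a'
        simp only
        rw [ha', Function.update_of_ne hji, Function.update_self, hj]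
    set π : Fin t → Fin t := fun i => (F (i, x0)).1 with hπ
    have hπb : Function.Bijective π := Finite.injective_iff_bijective.mp (hinj (fun _ => x0))
    set σ : Fin t ≃ Fin t := Equiv.ofBijective π hπb with hσ
    have hpart : ∀ j x, (F (σ.symm j, x)).1 = j := by
      intro j x
      rw [hconst _ x x0]
      exact σ.apply_symm_apply j
    refine ⟨fun j => univ.image (fun x : Fin r => ((F (σ.symm j, x)).2 : ℕ)), ?_, ?_, ?_⟩
    · intro j y hy
      obtain ⟨x, _, rfl⟩ := mem_image.mp hy
      rw [mem_range]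
      calc ((F (σ.symm j, x)).2 : ℕ) < m (F (σ.symm j, x)).1 := (F (σ.symm j, x)).2.isLt
        _ = m j := congrArg m (hpart j x)
    · intro j
      rw [card_image_of_injective, card_univ, Fintype.card_fin]
      intro x y hxy
      simp only at hxy
      have h1 := F.injective (sig_ext ((hpart j x).trans (hpart j y).symm) hxy)
      exact (Prod.mk.inj h1).2
    · intro g hg
      have h1 : ∀ j, ∃ x : Fin r, ((F (σ.symm j, x)).2 : ℕ) = (g j : ℕ) := by
        intro j
        obtain ⟨x, _, hx⟩ := mem_image.mp (hg j)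
        exact ⟨x, hx⟩
      choose x hx using h1
      have h2 := hF (fun i => x (σ i))
      obtain ⟨g', hg'⟩ := hH _ h2
      have h3 : g' = g := by
        funext j
        have h4 : F (σ.symm j, x j) ∈ transversal g' := by
          rw [hg']
          refine mem_image.mpr ⟨σ.symm j, mem_univ _, ?_⟩
          rw [σ.apply_symm_apply]
        have h5 : F (σ.symm j, x j) = ⟨j, g j⟩ := sig_ext (hpart j _) (hx j)
        rw [h5, mem_transversal] at h4
        exact h4.symm
      rw [← h3, hg']
      exact h2
  · rintro ⟨S, hS, hcard, hall⟩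
    let b : ∀ i, Fin r ≃ S i := fun i => (finCongr (hcard i).symm).trans (S i).equivFin.symm
    have hlt : ∀ i (x : Fin r), ((b i x : S i) : ℕ) < m i := by
      intro i x
      exact mem_range.mp (hS i (b i x).2)
    let F : Fin t × Fin r → Σ i, Fin (m i) := fun p => ⟨p.1, ⟨((b p.1 p.2 : S p.1) : ℕ), hlt _ _⟩⟩
    have hF : Function.Injective F := by
      rintro ⟨i, x⟩ ⟨j, y⟩ h
      have h1 : i = j := congrArg Sigma.fst h
      subst h1
      have h3 : ((b i x : S i) : ℕ) = ((b i y : S i) : ℕ) := by
        simpa [F] using h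
      rw [(b i).injective (Subtype.ext h3)]
    refine ⟨⟨F, hF⟩, fun a => ?_⟩
    exact hall (fun i => ⟨((b i (a i) : S i) : ℕ), hlt _ _⟩) (fun i => (b i (a i)).2)

end Pool.Agent.Lib.MP_f6ab77_co
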