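import Mathlib
import Pool.Agent.Lib.MP_f6ab77_co.Graph

set_option autoImplicit false

namespace Pool.Agent.Lib.MP_f6ab77_co

open Finset

theorem geom_bound (r : ℕ) (hr : 2 ≤ r) : ∀ t : ℕ, ∑ j ∈ range t, r ^ (j + 1) ≤ 2 * r ^ t := by
  intro t
  induction t with
  | zero => simp
  | succ t ih =>
    rw [sum_range_succ]
    have h1 : 2 * r ^ t ≤ r ^ (t + 1) := by
      rw [pow_succ']
      exact Nat.mul_le_mul_right _ hr
    omega

theorem expo (r t : ℕ) (hr : 2 ≤ r) :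
    (r : ℝ) ^ (1 - ((t + 1 : ℕ) : ℝ)) = (((r ^ t : ℕ) : ℝ))⁻¹ := by
  have hr0 : (0 : ℝ) < r := by
    have : 0 < r := by omega
    exact_mod_cast this
  push_cast
  rw [show (1 : ℝ) - ((t : ℝ) + 1) = -(t : ℝ) by ring, Real.rpow_neg hr0.le, Real.rpow_natCast]

theorem root_le (P N k : ℕ) (c : ℝ) (hk : 0 < k) (hc : 0 < c) (h : ((P : ℝ)) ^ k ≤ c ^ k * N) :
    (P : ℝ) ≤ c * (N : ℝ) ^ ((k : ℝ)⁻¹) := by
  have hN : (0 : ℝ) ≤ N := Nat.cast_nonneg N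
  have h1 : (c * (N : ℝ) ^ ((k : ℝ)⁻¹)) ^ k = c ^ k * N := by
    rw [mul_pow, ← Real.rpow_natCast ((N : ℝ) ^ ((k : ℝ)⁻¹)) k, ← Real.rpow_mul hN,
      inv_mul_cancel₀ (by exact_mod_cast hk.ne'), Real.rpow_one]
  rw [← h1] at h
  exact le_of_pow_le_pow_left₀ hk.ne' (by positivity) h

theorem le_root (P N k : ℕ) (c : ℝ) (hk : 0 < k) (_ : 0 < c) (h : c ^ k * (N : ℝ) ≤ (P : ℝ) ^ k) :
    c * (N : ℝ) ^ ((k : ℝ)⁻¹) ≤ P := by
  have hN : (0 : ℝ) ≤ N := Nat.cast_nonneg N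
  have h1 : (c * (N : ℝ) ^ ((k : ℝ)⁻¹)) ^ k = c ^ k * N := by
    rw [mul_pow, ← Real.rpow_natCast ((N : ℝ) ^ ((k : ℝ)⁻¹)) k, ← Real.rpow_mul hN,
      inv_mul_cancel₀ (by exact_mod_cast hk.ne'), Real.rpow_one]
  rw [← h1] at h
  exact le_of_pow_le_pow_left₀ hk.ne' (Nat.cast_nonneg P) h

/-- the `t`-graph formed by the transversals of colour `z` -/
def colourClass {t : ℕ} {m : Fin t → ℕ} {P : ℕ} (c : (∀ i, Fin (m i)) → Fin P) (z : Fin P) :
    Finset (Finset (Σ i, Fin (m i))) :=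
  (univ.filter (fun g => c g = z)).image transversal

theorem lower (t r : ℕ) (hr : 2 ≤ r) (m : Fin (t + 1) → ℕ) (hm1 : ∀ i, 1 ≤ m i)
    (hm : ∀ i, (m i) ^ (r ^ (i : ℕ)) ≤ (m 0) ^ 2) :
    ∃ (P : ℕ) (c : (∀ i, Fin (m i)) → Fin P),
      (P : ℝ) ≤ 16 * (m 0 : ℝ) ^ ((r : ℝ) ^ (1 - ((t + 1 : ℕ) : ℝ))) ∧
      (∀ z, ¬ (colourClass c z).ContainsCompletePartiteHypergraph (t + 1) r) ∧
      ∃ z, (1 / 16 : ℝ) * (∏ i, (m i : ℝ)) * (m 0 : ℝ) ^ (-(r : ℝ) ^ (1 - ((t + 1 : ℕ) : ℝ))) ≤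
        ((colourClass c z).card : ℝ) := by
  classical
  obtain ⟨P, f, hP1, hfP, -, ⟨B, hB, hPB⟩, hgood⟩ := exists_level r hr (m 0) (hm1 0) t m le_rfl hm
  have hB16 : B ≤ 16 ^ (r ^ t) := by
    rw [hB]
    calc 4 ^ (∑ j ∈ range t, r ^ (j + 1)) ≤ 4 ^ (2 * r ^ t) :=
          Nat.pow_le_pow_right (by norm_num) (geom_bound r hr t)
      _ = 16 ^ (r ^ t) := by rw [pow_mul]; norm_num
  set c : (∀ i, Fin (m i)) → Fin P := fun g => ⟨f (fun i => (g i : ℕ)), hfP _⟩ with hc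
  have hk : 0 < r ^ t := by positivity
  have hN : (0 : ℝ) < (m 0 : ℝ) := by
    have := hm1 0
    exact_mod_cast (by omega : 0 < m 0)
  have hPle : (P : ℝ) ≤ 16 * (m 0 : ℝ) ^ (((r ^ t : ℕ) : ℝ)⁻¹) := by
    apply root_le P (m 0) (r ^ t) 16 hk (by norm_num)
    have : P ^ (r ^ t) ≤ 16 ^ (r ^ t) * m 0 := hPB.trans (Nat.mul_le_mul_right _ hB16)
    exact_mod_cast this
  have hcard : ∀ z, (colourClass c z).card = (univ.filter (fun g => c g = z)).card := by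
    intro z
    unfold colourClass
    rw [card_image_of_injective _ transversal_injective]
  have hsum : ∑ z : Fin P, (colourClass c z).card = ∏ i, m i := by
    simp_rw [hcard]
    rw [← card_eq_sum_card_fiberwise (f := c) (s := univ) (t := univ) (by intro g _; simp)]
    rw [card_univ, Fintype.card_pi]
    simp
  have hPF : Nonempty (Fin P) := ⟨⟨0, by omega⟩⟩
  obtain ⟨z, hz⟩ : ∃ z, ∏ i, m i ≤ P * (colourClass c z).card := by
    by_contra hcon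
    push Not at hcon
    have h1 : ∑ z : Fin P, P * (colourClass c z).card < ∑ _z : Fin P, ∏ i, m i :=
      sum_lt_sum_of_nonempty univ_nonempty (fun z _ => hcon z)
    rw [← mul_sum, hsum, sum_const, card_univ, Fintype.card_fin, smul_eq_mul] at h1
    exact lt_irrefl _ h1
  rw [expo r t hr]
  refine ⟨P, c, hPle, ?_, z, ?_⟩
  · intro z
    have hpart : IsPartite (colourClass c z) := by
      rw [isPartite_iff]
      intro e he
      obtain ⟨g, _, rfl⟩ := mem_image.mp he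
      exact ⟨g, rfl⟩
    rw [contains_iff (by omega) _ hpart]
    rintro ⟨S, hS, hcardS, hall⟩
    obtain ⟨e, he, hne⟩ := hgood z S hS hcardS
    have h1 := hall (fun i => ⟨e i, mem_range.mp (hS i (he i))⟩) he
    obtain ⟨g, hg, hgt⟩ := mem_image.mp h1
    have h2 := transversal_injective hgt
    rw [h2, mem_filter] at hg
    exact hne (congrArg Fin.val hg.2)
  · have hP0 : (0 : ℝ) < P := by exact_mod_cast hP1
    rw [Real.rpow_neg hN.le]
    have hpow : (0 : ℝ) < (m 0 : ℝ) ^ (((r ^ t : ℕ) : ℝ)⁻¹) := Real.rpow_pos_of_pos hN _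
    have hz' : (∏ i, (m i : ℝ)) ≤ P * (colourClass c z).card := by exact_mod_cast hz
    calc (1 / 16 : ℝ) * (∏ i, (m i : ℝ)) * ((m 0 : ℝ) ^ (((r ^ t : ℕ) : ℝ)⁻¹))⁻¹
        = (∏ i, (m i : ℝ)) / (16 * (m 0 : ℝ) ^ (((r ^ t : ℕ) : ℝ)⁻¹)) := by
          field_simp
      _ ≤ (∏ i, (m i : ℝ)) / P := by
          apply div_le_div_of_nonneg_left _ hP0 hPle
          exact prod_nonneg (fun i _ => Nat.cast_nonneg _)
      _ ≤ (colourClass c z).card := by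
          rw [div_le_iff₀ hP0]
          linarith [mul_comm (P : ℝ) ((colourClass c z).card : ℝ)]

end Pool.Agent.Lib.MP_f6ab77_co
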