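import Mathlib
import Pool.Agent.Lib.MP_f6ab77_co.LowerH

set_option autoImplicit false

namespace Pool.Agent.Lib.MP_f6ab77_co

open Finset

/-- `E` contains no box with sides of `r` elements -/
def BoxFree {t : ℕ} (r : ℕ) (m : Fin t → ℕ) (E : Finset (Fin t → ℕ)) : Prop :=
  ∀ S : Fin t → Finset ℕ, (∀ i, S i ⊆ range (m i)) → (∀ i, (S i).card = r) →
    ∃ e : Fin t → ℕ, (∀ i, e i ∈ S i) ∧ e ∉ E

/-- the full box -/
def box {t : ℕ} (m : Fin t → ℕ) : Finset (Fin t → ℕ) := Fintype.piFinset (fun i => range (m i))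

theorem mem_box {t : ℕ} (m : Fin t → ℕ) (e : Fin t → ℕ) : e ∈ box m ↔ ∀ i, e i < m i := by
  unfold box
  simp [Fintype.mem_piFinset]

theorem card_box {t : ℕ} (m : Fin t → ℕ) : (box m).card = ∏ i, m i := by
  unfold box
  rw [Fintype.card_piFinset]
  simp

/-- the analytic step -/
theorem analytic (r : ℕ) (hr : 2 ≤ r) (M M' A x y : ℝ) (hM : 0 < M) (hM' : 0 ≤ M') (_ : 0 ≤ A)
    (hx : 0 < x) (hxy : x ^ r = y) (hcase : x ≤ M')
    (h : 2 * r * M < A → (A / 2) ^ r / M ^ (r - 1) ≤ M' ^ r * (2 * r * M * y⁻¹)) :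
    A ≤ 2 * r * (M * M') * x⁻¹ := by
  have hrR : (2 : ℝ) ≤ r := by exact_mod_cast hr
  rcases le_or_gt A (2 * r * M) with h1 | h1
  · refine h1.trans ?_
    have h2 : (1 : ℝ) ≤ M' * x⁻¹ := by
      rw [← div_eq_mul_inv, le_div_iff₀ hx]
      linarith
    calc 2 * (r : ℝ) * M = 2 * r * M * 1 := by ring
      _ ≤ 2 * r * M * (M' * x⁻¹) := mul_le_mul_of_nonneg_left h2 (by positivity)
      _ = 2 * r * (M * M') * x⁻¹ := by ring
  · have h2 := h h1
    rw [div_le_iff₀ (by positivity)] at h2
    have hrr : (2 * (r : ℝ)) ≤ (r : ℝ) ^ r := by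
      calc (2 * (r : ℝ)) ≤ r * r := mul_le_mul_of_nonneg_right hrR (by linarith)
        _ = (r : ℝ) ^ 2 := by ring
        _ ≤ (r : ℝ) ^ r := pow_le_pow_right₀ (by linarith) hr
    have h3 : (A / 2) ^ r ≤ (r * (M * M') * x⁻¹) ^ r := by
      calc (A / 2) ^ r ≤ M' ^ r * (2 * r * M * y⁻¹) * M ^ (r - 1) := h2
        _ = (2 * r) * (M' ^ r * (M * M ^ (r - 1)) * y⁻¹) := by ring
        _ = (2 * r) * (M' ^ r * M ^ r * y⁻¹) := by
            rw [← pow_succ', Nat.sub_add_cancel (by omega : 1 ≤ r)]
        _ ≤ (r : ℝ) ^ r * (M' ^ r * M ^ r * y⁻¹) := by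
            apply mul_le_mul_of_nonneg_right hrr
            rw [← hxy]
            positivity
        _ = (r * (M * M') * x⁻¹) ^ r := by
            rw [← hxy]
            simp only [mul_pow, inv_pow]
            ring
    have h4 : A / 2 ≤ r * (M * M') * x⁻¹ :=
      le_of_pow_le_pow_left₀ (by omega) (by positivity) h3
    calc A = 2 * (A / 2) := by ring
      _ ≤ 2 * (r * (M * M') * x⁻¹) := by linarith
      _ = _ := by ring

theorem upper_base (r : ℕ) (_ : 2 ≤ r) (N : ℕ) (hN : 1 ≤ N) (m : Fin 1 → ℕ)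
    (_ : ∀ i, 1 ≤ m i) (hm : ∀ i, N ≤ (m i) ^ (r ^ (i : ℕ)))
    (E : Finset (Fin 1 → ℕ)) (hE : E ⊆ box m) (hfree : BoxFree r m E) :
      (E.card : ℝ) ≤ 2 * r * (∏ i, (m i : ℝ)) * ((N : ℝ) ^ (((r ^ 0 : ℕ) : ℝ)⁻¹))⁻¹ := by
    have hNR : (0 : ℝ) < N := by exact_mod_cast hN
    have hlt : E.card < r := by
      by_contra hcon
      push Not at hcon
      have hinj : Set.InjOn (fun e : Fin 1 → ℕ => e 0) E := by
        intro e _ e' _ h
        funext i
        rw [Subsingleton.elim i 0]
        exact h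
      have hcard : r ≤ (E.image (fun e => e 0)).card := by
        rw [card_image_of_injOn hinj]; exact hcon
      obtain ⟨S0, hS0, hS0c⟩ := exists_subset_card_eq hcard
      obtain ⟨e, he, hne⟩ := hfree (fun _ => S0) (by
        intro i y hy
        obtain ⟨e, he, rfl⟩ := mem_image.mp (hS0 hy)
        rw [mem_range, Subsingleton.elim i 0]
        exact (mem_box m e).mp (hE he) 0) (fun _ => hS0c)
      obtain ⟨e', he', h⟩ := mem_image.mp (hS0 (he 0))
      apply hne
      have : e' = e := by
        funext i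
        rw [Subsingleton.elim i 0]
        exact h
      rw [← this]
      exact he'
    have h0 : (N : ℝ) ≤ m 0 := by
      have := hm 0
      simp at this
      exact_mod_cast this
    simp only [Fin.prod_univ_one, pow_zero, Nat.cast_one, inv_one, Real.rpow_one]
    have h1 : (1 : ℝ) ≤ (m 0 : ℝ) * (N : ℝ)⁻¹ := by
      rw [← div_eq_mul_inv, le_div_iff₀ hNR]
      linarith
    have h2 : (E.card : ℝ) ≤ r := by exact_mod_cast hlt.le
    have h3 : (0 : ℝ) ≤ r := Nat.cast_nonneg r
    nlinarith

theorem upper_core (r : ℕ) (hr : 2 ≤ r) (N : ℕ) (hN : 1 ≤ N) : ∀ (t : ℕ) (m : Fin (t + 1) → ℕ),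
    (∀ i, 1 ≤ m i) → (∀ i, N ≤ (m i) ^ (r ^ (i : ℕ))) →
    ∀ E : Finset (Fin (t + 1) → ℕ), E ⊆ box m → BoxFree r m E →
      (E.card : ℝ) ≤ 2 * r * (∏ i, (m i : ℝ)) * ((N : ℝ) ^ (((r ^ t : ℕ) : ℝ)⁻¹))⁻¹ := by
  intro t
  have hNR : (0 : ℝ) < N := by exact_mod_cast hN
  induction t with
  | zero =>
    intro m hm1 hm E hE hfree
    exact upper_base r hr N hN m hm1 hm E hE hfree
  | succ t ih =>
    intro m hm1 hm E hE hfree
    classical
    set m' : Fin (t + 1) → ℕ := fun i => m i.castSucc with hm'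
    set L := m (Fin.last (t + 1)) with hL
    set D : (Fin (t + 1) → ℕ) → Finset ℕ :=
      fun e => (range L).filter (fun x => (Fin.snoc e x : Fin (t + 2) → ℕ) ∈ E) with hD
    -- counting E by fibres
    have hEcard : E.card = ∑ e ∈ box m', (D e).card := by
      rw [card_eq_sum_card_fiberwise (f := fun e' : Fin (t + 2) → ℕ => (Fin.init e' : Fin (t + 1) → ℕ))
        (t := box m')]
      · apply sum_congr rfl
        intro e _
        symm
        apply card_bij (fun x _ => (Fin.snoc e x : Fin (t + 2) → ℕ))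
        · intro x hx
          rw [mem_filter] at hx ⊢
          exact ⟨hx.2, Fin.init_snoc _ _⟩
        · intro x _ y _ h
          have := congrFun h (Fin.last (t + 1))
          simpa using this
        · intro e' he'
          rw [mem_filter] at he'
          refine ⟨e' (Fin.last (t + 1)), ?_, ?_⟩
          · rw [mem_filter, mem_range]
            refine ⟨(mem_box m e').mp (hE he'.1) _, ?_⟩
            rw [← he'.2, Fin.snoc_init_self]
            exact he'.1
          · rw [← he'.2, Fin.snoc_init_self]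
      · intro e' he'
        simp only [Finset.mem_coe] at he' ⊢
        rw [mem_box]
        intro i
        exact (mem_box m e').mp (hE he') i.castSucc
    set K : ℝ := 2 * r * (∏ i, (m' i : ℝ)) * ((N : ℝ) ^ (((r ^ t : ℕ) : ℝ)⁻¹))⁻¹ with hK
    -- the common links
    have hlink : ∀ R ∈ powersetCard r (range L),
        ((((box m').filter (fun e => R ⊆ D e)).card : ℕ) : ℝ) ≤ K := by
      intro R hR
      rw [mem_powersetCard] at hR
      apply ih m' (fun i => hm1 _) (fun i => by simpa using hm i.castSucc) _ (filter_subset _ _)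
      intro S hS hcard
      obtain ⟨e', he', hne⟩ := hfree (Fin.snoc S R) (by
        intro i
        refine Fin.lastCases ?_ (fun j => ?_) i
        · simpa using hR.1
        · simpa using hS j) (by
        intro i
        refine Fin.lastCases ?_ (fun j => ?_) i
        · simpa using hR.2
        · simpa using hcard j)
      refine ⟨Fin.init e', ?_, ?_⟩
      · intro i
        have := he' i.castSucc
        rw [Fin.snoc_castSucc] at this
        exact this
      · intro hmem
        rw [mem_filter] at hmem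
        have h1 : e' (Fin.last (t + 1)) ∈ R := by
          have := he' (Fin.last (t + 1))
          simpa using this
        have h2 := hmem.2 h1
        rw [mem_filter, Fin.snoc_init_self] at h2
        exact hne h2.2
    -- double counting
    have hdc : ∑ e ∈ box m', ((D e).card.choose r) =
        ∑ R ∈ powersetCard r (range L), ((box m').filter (fun e => R ⊆ D e)).card := by
      have h1 : ∀ e, (D e).card.choose r = ((powersetCard r (range L)).filter (fun R => R ⊆ D e)).card := by
        intro e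
        rw [← card_powersetCard]
        congr 1
        ext R
        simp only [mem_powersetCard, mem_filter]
        constructor
        · rintro ⟨h1, h2⟩
          exact ⟨⟨h1.trans (filter_subset _ _), h2⟩, h1⟩
        · rintro ⟨⟨_, h2⟩, h3⟩
          exact ⟨h3, h2⟩
      simp_rw [h1, card_filter]
      exact sum_comm
    have hsum1 : (∑ e ∈ box m', ((((D e).card.choose r : ℕ)) : ℝ)) ≤ (L.choose r : ℝ) * K := by
      have h1 : (∑ e ∈ box m', ((((D e).card.choose r : ℕ)) : ℝ)) =
          ∑ R ∈ powersetCard r (range L), ((((box m').filter (fun e => R ⊆ D e)).card : ℕ) : ℝ) := by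
        exact_mod_cast hdc
      rw [h1]
      calc ∑ R ∈ powersetCard r (range L), ((((box m').filter (fun e => R ⊆ D e)).card : ℕ) : ℝ)
          ≤ ∑ R ∈ powersetCard r (range L), K := sum_le_sum hlink
        _ = (L.choose r : ℝ) * K := by
            rw [sum_const, card_powersetCard, card_range, nsmul_eq_mul]
    have hKpos : 0 ≤ K := by
      rw [hK]; positivity
    -- pass to powers
    have hpow1 : ∀ d : ℕ, (max ((d : ℝ) - r) 0) ^ r ≤ (r.factorial : ℝ) * (d.choose r : ℝ) := by
      intro d
      have h1 : ((d + 1 - r : ℕ)) ^ r ≤ d.descFactorial r := Nat.pow_sub_le_descFactorial d r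
      rw [Nat.descFactorial_eq_factorial_mul_choose] at h1
      have h2 : (((d + 1 - r : ℕ)) : ℝ) ^ r ≤ (r.factorial : ℝ) * (d.choose r : ℝ) := by
        exact_mod_cast h1
      refine le_trans ?_ h2
      apply pow_le_pow_left₀ (le_max_right _ _)
      apply max_le
      · rcases Nat.lt_or_ge d r with h | h
        · have : (d : ℝ) < r := by exact_mod_cast h
          have h3 : (0 : ℝ) ≤ ((d + 1 - r : ℕ) : ℝ) := Nat.cast_nonneg _
          linarith
        · rw [Nat.cast_sub (by omega)]
          push_cast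
          linarith
      · exact Nat.cast_nonneg _
    have hpow2 : (r.factorial : ℝ) * (L.choose r : ℝ) ≤ (L : ℝ) ^ r := by
      have h1 := Nat.descFactorial_le_pow L r
      rw [Nat.descFactorial_eq_factorial_mul_choose] at h1
      exact_mod_cast h1
    have hsum2 : ∑ e ∈ box m', (max (((D e).card : ℝ) - r) 0) ^ r ≤ (L : ℝ) ^ r * K := by
      calc ∑ e ∈ box m', (max (((D e).card : ℝ) - r) 0) ^ r
          ≤ ∑ e ∈ box m', (r.factorial : ℝ) * ((D e).card.choose r : ℝ) :=
            sum_le_sum (fun e _ => hpow1 _)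
        _ = (r.factorial : ℝ) * ∑ e ∈ box m', ((D e).card.choose r : ℝ) := by rw [mul_sum]
        _ ≤ (r.factorial : ℝ) * ((L.choose r : ℝ) * K) :=
            mul_le_mul_of_nonneg_left hsum1 (Nat.cast_nonneg _)
        _ = ((r.factorial : ℝ) * (L.choose r : ℝ)) * K := by ring
        _ ≤ (L : ℝ) ^ r * K := mul_le_mul_of_nonneg_right hpow2 hKpos
    -- the parameters
    set M : ℝ := ∏ i, (m' i : ℝ) with hMdef
    have hMpos : 0 < M := by
      rw [hMdef]
      apply prod_pos
      intro i _
      have := hm1 i.castSucc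
      exact_mod_cast this
    have hMcard : ((box m').card : ℝ) = M := by
      rw [card_box, hMdef]; push_cast; rfl
    have hprod : (∏ i, (m i : ℝ)) = M * L := by
      rw [Fin.prod_univ_castSucc]
    have hk : 0 < r ^ (t + 1) := by positivity
    set x : ℝ := (N : ℝ) ^ (((r ^ (t + 1) : ℕ) : ℝ)⁻¹) with hx
    have hxpos : 0 < x := Real.rpow_pos_of_pos hNR _
    have hxr : x ^ r = (N : ℝ) ^ (((r ^ t : ℕ) : ℝ)⁻¹) := by
      rw [hx, ← Real.rpow_natCast, ← Real.rpow_mul hNR.le]
      congr 1
      have hr0 : (r : ℝ) ≠ 0 := by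
        have : r ≠ 0 := by omega
        exact_mod_cast this
      push_cast
      rw [pow_succ]
      field_simp
    have hxL : x ≤ (L : ℝ) := by
      have h1 := le_root L N (r ^ (t + 1)) 1 hk one_pos (by
        rw [one_pow, one_mul]
        have := hm (Fin.last (t + 1))
        simp only [Fin.val_last] at this
        exact_mod_cast this)
      rwa [one_mul] at h1
    rw [hprod]
    apply analytic r hr M L (E.card : ℝ) x _ hMpos (Nat.cast_nonneg _) (Nat.cast_nonneg _) hxpos hxr hxL
    intro hbig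
    have hhalf : (E.card : ℝ) / 2 ≤ ∑ e ∈ box m', max (((D e).card : ℝ) - r) 0 := by
      have h1 : (E.card : ℝ) - r * M ≤ ∑ e ∈ box m', max (((D e).card : ℝ) - r) 0 := by
        calc (E.card : ℝ) - r * M = ∑ e ∈ box m', (((D e).card : ℝ) - r) := by
              rw [sum_sub_distrib, sum_const, nsmul_eq_mul, hMcard, hEcard]
              push_cast
              ring
          _ ≤ _ := sum_le_sum (fun e _ => le_max_left _ _)
      linarith
    have hj := pow_sum_div_card_le_sum_pow (s := box m') (f := fun e => max (((D e).card : ℝ) - r) 0)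
      (fun e _ => le_max_right _ _) (r - 1)
    rw [Nat.sub_add_cancel (by omega : 1 ≤ r), hMcard] at hj
    calc ((E.card : ℝ) / 2) ^ r / M ^ (r - 1)
        ≤ (∑ e ∈ box m', max (((D e).card : ℝ) - r) 0) ^ r / M ^ (r - 1) := by
          apply div_le_div_of_nonneg_right _ (by positivity)
          exact pow_le_pow_left₀ (by positivity) hhalf r
      _ ≤ ∑ e ∈ box m', (max (((D e).card : ℝ) - r) 0) ^ r := hj
      _ ≤ (L : ℝ) ^ r * K := hsum2

theorem upper (t r : ℕ) (hr : 2 ≤ r) (m : Fin (t + 1) → ℕ) (hm1 : ∀ i, 1 ≤ m i)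
    (hm : ∀ i, m 0 ≤ (m i) ^ (r ^ (i : ℕ)))
    (H : Finset (Finset (Σ i, Fin (m i)))) (hH : IsPartite H)
    (hfree : ¬ H.ContainsCompletePartiteHypergraph (t + 1) r) :
    (H.card : ℝ) ≤ 2 * r * (∏ i, (m i : ℝ)) * (m 0 : ℝ) ^ (-(r : ℝ) ^ (1 - ((t + 1 : ℕ) : ℝ))) := by
  classical
  set V : Finset (∀ i, Fin (m i)) := univ.filter (fun g => transversal g ∈ H) with hV
  have hHV : H = V.image transversal := by
    ext e
    rw [mem_image]
    constructor
    · intro he
      obtain ⟨g, hg⟩ := (isPartite_iff H).mp hH e he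
      refine ⟨g, ?_, hg⟩
      rw [hV, mem_filter]
      exact ⟨mem_univ _, by rw [hg]; exact he⟩
    · rintro ⟨g, hg, rfl⟩
      rw [hV, mem_filter] at hg
      exact hg.2
  have hinj : Function.Injective (fun (g : ∀ i, Fin (m i)) (i : Fin (t + 1)) => (g i : ℕ)) := by
    intro g g' h
    funext i
    exact Fin.ext (congrFun h i)
  set E : Finset (Fin (t + 1) → ℕ) := V.image (fun g i => (g i : ℕ)) with hE
  have hcard : H.card = E.card := by
    rw [hHV, card_image_of_injective _ transversal_injective, hE, card_image_of_injective _ hinj]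
  have hEbox : E ⊆ box m := by
    intro e he
    obtain ⟨g, _, rfl⟩ := mem_image.mp he
    rw [mem_box]
    intro i
    exact (g i).isLt
  have hEfree : BoxFree r m E := by
    intro S hS hcardS
    by_contra hcon
    push Not at hcon
    apply hfree
    rw [contains_iff (by omega) H hH]
    refine ⟨S, hS, hcardS, fun g hg => ?_⟩
    obtain ⟨g', hg', h⟩ := mem_image.mp (hcon (fun i => (g i : ℕ)) hg)
    rw [hV, mem_filter] at hg'
    rw [← hinj h]
    exact hg'.2
  have hN : (0 : ℝ) < (m 0 : ℝ) := by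
    have := hm1 0
    exact_mod_cast (by omega : 0 < m 0)
  rw [hcard, expo r t hr, Real.rpow_neg hN.le]
  exact upper_core r hr (m 0) (hm1 0) t m hm1 hm E hEbox hEfree

end Pool.Agent.Lib.MP_f6ab77_co
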