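import Mathlib
import Pool.Agent.Lib.MP_f6ab77_co.Upper

set_option autoImplicit false

namespace Pool.Agent.Lib.MP_f6ab77_co

open Finset Polynomial

theorem coef_degree_lt {F : Type} [Field F] (r : ℕ) (c : ℕ → F) :
    (∑ k ∈ range r, C (c k) * X ^ k : F[X]).degree < r := by
  rw [← mem_degreeLT]
  apply Submodule.sum_mem
  intro k hk
  rw [mem_degreeLT]
  refine (degree_C_mul_X_pow_le k _).trans_lt ?_
  exact_mod_cast mem_range.mp hk

theorem coef_coeff {F : Type} [Field F] (r : ℕ) (c : ℕ → F) (k : ℕ) (hk : k < r) :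
    (∑ k ∈ range r, C (c k) * X ^ k : F[X]).coeff k = c k := by
  rw [finsetSum_coeff]
  simp only [coeff_C_mul, coeff_X_pow]
  rw [sum_eq_single k]
  · simp
  · intro b _ hb
    simp [Ne.symm hb]
  · intro h
    exact absurd (mem_range.mpr hk) h

theorem nextr_field (F : Type) [Field F] [Fintype F] (q r : ℕ) (hF : Fintype.card F = q) :
    ∃ nxt : ℕ → ℕ → ℕ, (∀ a x, nxt a x < q) ∧
      (∀ a a' z, ∀ S : Finset ℕ, a < q ^ r → a' < q ^ r → S ⊆ range (q ^ 2) → S.card = r →
        (∀ x ∈ S, nxt a x = z) → (∀ x ∈ S, nxt a' x = z) → a = a') := by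
  classical
  have hq0 : 0 < q := by rw [← hF]; exact Fintype.card_pos
  let e : F ≃ Fin q := Fintype.equivFinOfCardEq hF
  let dec : ℕ → F := fun n => e.symm ⟨n % q, Nat.mod_lt _ hq0⟩
  let enc : F → ℕ := fun x => (e x : ℕ)
  have henc_lt : ∀ x, enc x < q := fun x => (e x).isLt
  have henc_inj : ∀ x y, enc x = enc y → x = y := by
    intro x y h
    exact e.injective (Fin.ext h)
  have hdec_inj : ∀ n m, n < q → m < q → dec n = dec m → n = m := by
    intro n m hn hm h
    have h1 := Fin.val_eq_of_eq (e.symm.injective h)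
    simp only at h1
    rwa [Nat.mod_eq_of_lt hn, Nat.mod_eq_of_lt hm] at h1
  have hmod : ∀ a, a % q < q := fun a => Nat.mod_lt _ hq0
  let P : ℕ → F[X] := fun a => ∑ k ∈ range r, C (dec (a / q ^ k % q)) * X ^ k
  refine ⟨fun a x => enc ((P a).eval (dec (x % q)) - dec (x / q)), fun a x => henc_lt _, ?_⟩
  intro a a' z S ha ha' hS hcard h1 h2
  beta_reduce at h1 h2
  have hinj : Set.InjOn (fun x : ℕ => dec (x % q)) S := by
    intro x hx y hy hxy
    simp only [Finset.mem_coe] at hx hy
    simp only at hxy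
    have k := henc_inj _ _ ((h1 x hx).trans (h1 y hy).symm)
    rw [hxy] at k
    have k1 : dec (x / q) = dec (y / q) := by linear_combination -k
    have hx2 := mem_range.mp (hS hx)
    have hy2 := mem_range.mp (hS hy)
    have k2 := hdec_inj _ _ (by rw [Nat.div_lt_iff_lt_mul hq0, ← pow_two]; exact hx2)
      (by rw [Nat.div_lt_iff_lt_mul hq0, ← pow_two]; exact hy2) k1
    have k3 := hdec_inj _ _ (hmod x) (hmod y) hxy
    rw [← Nat.div_add_mod x q, ← Nat.div_add_mod y q, k2, k3]
  have hPP : P a = P a' := by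
    apply Polynomial.eq_of_degrees_lt_of_eval_finset_eq (S.image (fun x : ℕ => dec (x % q)))
    · rw [card_image_of_injOn hinj, hcard]
      exact coef_degree_lt r _
    · rw [card_image_of_injOn hinj, hcard]
      exact coef_degree_lt r _
    · intro u hu
      obtain ⟨x, hx, rfl⟩ := mem_image.mp hu
      have k := henc_inj _ _ ((h1 x hx).trans (h2 x hx).symm)
      linear_combination k
  apply digits_inj q hq0 r a a' ha ha'
  intro k hk
  apply hdec_inj _ _ (hmod _) (hmod _)
  have h3 := congrArg (fun p => p.coeff k) hPP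
  simp only [P] at h3
  rwa [coef_coeff r (fun k => dec (a / q ^ k % q)) k hk,
    coef_coeff r (fun k => dec (a' / q ^ k % q)) k hk] at h3

theorem nextr (q r : ℕ) (hq : IsPrimePow q) :
    ∃ nxt : ℕ → ℕ → ℕ, (∀ a x, nxt a x < q) ∧
      (∀ a a' z, ∀ S : Finset ℕ, a < q ^ r → a' < q ^ r → S ⊆ range (q ^ 2) → S.card = r →
        (∀ x ∈ S, nxt a x = z) → (∀ x ∈ S, nxt a' x = z) → a = a') := by
  obtain ⟨p, k, hp, hk, hpk⟩ := (isPrimePow_nat_iff q).mp hq
  have : Fact p.Prime := ⟨hp⟩
  let _ : Fintype (GaloisField p k) := Fintype.ofFinite _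
  have hF : Fintype.card (GaloisField p k) = q := by
    rw [← Nat.card_eq_fintype_card, GaloisField.card p k (by omega), hpk]
  exact nextr_field (GaloisField p k) q r hF

theorem const_base_lower (r q : ℕ) (hr : 2 ≤ r) (hq : 0 < q) (m : Fin 1 → ℕ)
    (hmq : ∀ i, m i ≤ (r - 1) * q) :
    ∃ f : (Fin 1 → ℕ) → ℕ, (∀ e, f e < q) ∧ Good r (fun i => range (m i)) f := by
  refine ⟨fun e => e 0 % q, fun e => Nat.mod_lt _ hq, ?_⟩
  intro z S hS hcard
  by_contra hcon
  push Not at hcon
  have hz : ∀ x ∈ S 0, x % q = z := by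
    intro x hx
    exact hcon (fun _ => x) (fun i => by rw [Subsingleton.elim i 0]; exact hx)
  have hinj : Set.InjOn (fun x : ℕ => x / q) (S 0) := by
    intro x hx y hy hxy
    simp only [Finset.mem_coe] at hx hy
    simp only at hxy
    rw [← Nat.div_add_mod x q, ← Nat.div_add_mod y q, hxy, hz x hx, hz y hy]
  have hsub : (S 0).image (fun x : ℕ => x / q) ⊆ range (r - 1) := by
    intro y hy
    obtain ⟨x, hx, rfl⟩ := mem_image.mp hy
    rw [mem_range, Nat.div_lt_iff_lt_mul hq]
    exact lt_of_lt_of_le (mem_range.mp (hS 0 hx)) (hmq 0)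
  have h := card_le_card hsub
  rw [card_image_of_injOn hinj, hcard, card_range] at h
  omega

theorem const_lower_core (r : ℕ) (hr : 2 ≤ r) : ∀ (s q : ℕ), IsPrimePow q →
    ∀ m : Fin (s + 1) → ℕ, m 0 ≤ (r - 1) * q ^ (r ^ s) →
    (∀ i : Fin (s + 1), 1 ≤ (i : ℕ) → m i ≤ q ^ (2 * r ^ (s - (i : ℕ)))) →
    ∃ f : (Fin (s + 1) → ℕ) → ℕ, (∀ e, f e < q) ∧ Good r (fun i => range (m i)) f := by
  intro s
  induction s with
  | zero =>
    intro q hq m h0 _
    rw [pow_zero, pow_one] at h0
    exact const_base_lower r q hr hq.pos m (fun i => by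
      have : i = 0 := Subsingleton.elim _ _
      rw [this]
      exact h0)
  | succ s ih =>
    intro q hq m h0 hm
    obtain ⟨f, hf1, hf2⟩ := ih (q ^ r) (hq.pow (by omega)) (fun i => m i.castSucc) (by
      show m (Fin.castSucc 0) ≤ _
      rw [Fin.castSucc_zero, ← pow_mul, ← pow_succ']
      exact h0) (by
      intro i hi
      have h := hm i.castSucc (by simpa using hi)
      have hlt := i.isLt
      have e1 : 2 * r ^ (s + 1 - ((i.castSucc : Fin (s + 2)) : ℕ)) = r * (2 * r ^ (s - (i : ℕ))) := by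
        rw [Fin.val_castSucc, show s + 1 - (i : ℕ) = s - (i : ℕ) + 1 by omega, pow_succ]
        ring
      rw [e1, pow_mul] at h
      exact h)
    obtain ⟨nxt, hn1, hn2⟩ := nextr q r hq
    refine ⟨fun e => nxt (f (Fin.init e)) (e (Fin.last (s + 1))), fun e => hn1 _ _, ?_⟩
    intro z S hS hcard
    by_contra hcon
    push Not at hcon
    -- on the box of the first coordinates, f is constant
    have hval : ∀ e : Fin (s + 1) → ℕ, (∀ i, e i ∈ S i.castSucc) →
        ∀ y ∈ S (Fin.last (s + 1)), nxt (f e) y = z := by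
      intro e he y hy
      have h := hcon (Fin.snoc e y) (by
        intro i
        refine Fin.lastCases ?_ (fun j => ?_) i
        · simpa using hy
        · simpa using he j)
      simp only [Fin.init_snoc, Fin.snoc_last] at h
      exact h
    have hne : ∀ i : Fin (s + 1), ∃ y, y ∈ S i.castSucc := by
      intro i
      have : 0 < (S i.castSucc).card := by rw [hcard]; omega
      exact card_pos.mp this
    choose e0 he0 using hne
    obtain ⟨e, he, hfe⟩ := hf2 (f e0) (fun i => S i.castSucc) (fun i => hS i.castSucc)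
      (fun i => hcard _)
    apply hfe
    have hlast : S (Fin.last (s + 1)) ⊆ range (q ^ 2) := by
      intro x hx
      have h1 := mem_range.mp (hS _ hx)
      have h2 := hm (Fin.last (s + 1)) (by rw [Fin.val_last]; omega)
      rw [Fin.val_last, Nat.sub_self, pow_zero, mul_one] at h2
      exact mem_range.mpr (lt_of_lt_of_le h1 h2)
    exact hn2 (f e) (f e0) z (S (Fin.last (s + 1))) (hf1 _) (hf1 _) hlast (hcard _)
      (hval e he) (hval e0 he0)

/-- the colouring form of the lower bound -/
theorem const_lower_hyp (r : ℕ) (hr : 2 ≤ r) (s q : ℕ) (hq : IsPrimePow q)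
    (m : Fin (s + 1) → ℕ) (h0 : m 0 ≤ (r - 1) * q ^ (r ^ s))
    (hm : ∀ i : Fin (s + 1), 1 ≤ (i : ℕ) → m i ≤ q ^ (2 * r ^ (s - (i : ℕ)))) :
    ∃ c : (∀ i, Fin (m i)) → Fin q,
      (∀ z, ¬ (colourClass c z).ContainsCompletePartiteHypergraph (s + 1) r) ∧
      ∃ z, ∏ i, m i ≤ q * (colourClass c z).card := by
  classical
  obtain ⟨f, hf1, hf2⟩ := const_lower_core r hr s q hq m h0 hm
  let c : (∀ i, Fin (m i)) → Fin q := fun g => ⟨f (fun i => (g i : ℕ)), hf1 _⟩
  refine ⟨c, ?_, ?_⟩
  · intro z
    have hpart : IsPartite (colourClass c z) := by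
      rw [isPartite_iff]
      intro e he
      unfold colourClass at he
      obtain ⟨g, _, rfl⟩ := mem_image.mp he
      exact ⟨g, rfl⟩
    rw [contains_iff (by omega) _ hpart]
    rintro ⟨S, hS, hcard, hall⟩
    obtain ⟨e, he, hne⟩ := hf2 z S hS hcard
    have h1 := hall (fun i => ⟨e i, mem_range.mp (hS i (he i))⟩) he
    unfold colourClass at h1
    obtain ⟨g, hg, h⟩ := mem_image.mp h1
    rw [transversal_injective h, mem_filter] at hg
    exact hne (congrArg Fin.val hg.2)
  · by_contra hcon
    push Not at hcon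
    have hcc : ∀ z, (colourClass c z).card = (univ.filter (fun g => c g = z)).card := by
      intro z
      unfold colourClass
      rw [card_image_of_injective _ transversal_injective]
    have hsum : ∑ z : Fin q, (univ.filter (fun g => c g = z)).card = ∏ i, m i := by
      rw [← card_eq_sum_card_fiberwise (f := c) (s := univ) (t := univ) (by
        intro g _
        exact mem_coe.mpr (mem_univ _))]
      rw [card_univ, Fintype.card_pi]
      simp
    have hq0 : 0 < q := hq.pos
    have h1 : ∑ z : Fin q, q * (univ.filter (fun g => c g = z)).card <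
        ∑ z : Fin q, ∏ i, m i := by
      apply sum_lt_sum_of_nonempty
      · exact ⟨⟨0, hq0⟩, mem_univ _⟩
      · intro z _
        have := hcon z
        rwa [hcc] at this
    rw [← mul_sum, hsum, sum_const, card_univ, Fintype.card_fin, smul_eq_mul] at h1
    exact lt_irrefl _ h1

/-- the hypergraph form of the upper bound -/
theorem box_form (s r : ℕ) (hr : 1 ≤ r) (m : Fin (s + 1) → ℕ)
    (H : Finset (Finset (Σ i, Fin (m i)))) (hH : IsPartite H)
    (hfree : ¬ H.ContainsCompletePartiteHypergraph (s + 1) r) :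
    ∃ E : Finset (Fin (s + 1) → ℕ), E ⊆ box m ∧ BoxFree r m E ∧ H.card = E.card := by
  classical
  set V : Finset (∀ i, Fin (m i)) := univ.filter (fun g => transversal g ∈ H) with hV
  have hHV : H = V.image transversal := by
    ext e
    rw [mem_image]
    constructor
    · intro he
      obtain ⟨g, hg⟩ := (isPartite_iff H).mp hH e he
      refine ⟨g, ?_, hg⟩
      rw [hV, mem_filter]
      exact ⟨mem_univ _, by rw [hg]; exact he⟩
    · rintro ⟨g, hg, rfl⟩
      rw [hV, mem_filter] at hg
      exact hg.2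
  have hinj : Function.Injective (fun (g : ∀ i, Fin (m i)) (i : Fin (s + 1)) => (g i : ℕ)) := by
    intro g g' h
    funext i
    exact Fin.ext (congrFun h i)
  refine ⟨V.image (fun g i => (g i : ℕ)), ?_, ?_, ?_⟩
  · intro e he
    obtain ⟨g, _, rfl⟩ := mem_image.mp he
    rw [mem_box]
    intro i
    exact (g i).isLt
  · intro S hS hcardS
    by_contra hcon
    push Not at hcon
    apply hfree
    rw [contains_iff hr H hH]
    refine ⟨S, hS, hcardS, fun g hg => ?_⟩
    obtain ⟨g', hg', h⟩ := mem_image.mp (hcon (fun i => (g i : ℕ)) hg)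
    rw [hV, mem_filter] at hg'
    rw [← hinj h]
    exact hg'.2
  · rw [hHV, card_image_of_injective _ transversal_injective, card_image_of_injective _ hinj]

end Pool.Agent.Lib.MP_f6ab77_co
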