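import Mathlib

set_option autoImplicit false

namespace Pool.Agent.Lib.MP_f6ab77_co

/-- the alternating form `S_z` at the vectors `(a, b, c, d)` and `(e, f, g, h)`, `z = (s, t, u)` -/
def sf {F : Type*} [Field F] (ν s t u a b c d e f g h : F) : F :=
  s * (a * g + ν * b * h - c * e - ν * d * f) +
    t * (a * h + b * g + b * h - c * f - d * e - d * f) + u * (b * e - a * f)

/-- nondegeneracy -/
theorem sf_nondeg {F : Type*} [Field F] (ν : F)
    (hν : ∀ p q : F, p ^ 2 - p * q - ν * q ^ 2 = 0 → p = 0 ∧ q = 0)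
    (s t u A B C D : F) (hst : ¬ (s = 0 ∧ t = 0))
    (k1 : sf ν s t u A B C D 1 0 0 0 = 0) (k2 : sf ν s t u A B C D 0 1 0 0 = 0)
    (k3 : sf ν s t u A B C D 0 0 1 0 = 0) (k4 : sf ν s t u A B C D 0 0 0 1 = 0) :
    A = 0 ∧ B = 0 ∧ C = 0 ∧ D = 0 := by
  have hP : t ^ 2 - t * s - ν * s ^ 2 ≠ 0 := fun h => hst ⟨(hν t s h).2, (hν t s h).1⟩
  unfold sf at k1 k2 k3 k4
  have hB : B = 0 := by
    have : B * (t ^ 2 - t * s - ν * s ^ 2) = 0 := by
      linear_combination t * k3 - s * k4
    exact (mul_eq_zero.mp this).resolve_right hP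
  have hA : A = 0 := by
    have : A * (t ^ 2 - t * s - ν * s ^ 2) = 0 := by
      subst hB
      linear_combination t * k4 - (ν * s + t) * k3
    exact (mul_eq_zero.mp this).resolve_right hP
  subst hA hB
  have hD : D = 0 := by
    have : D * (t ^ 2 - t * s - ν * s ^ 2) = 0 := by
      linear_combination (-t) * k1 + s * k2
    exact (mul_eq_zero.mp this).resolve_right hP
  subst hD
  have hC : C = 0 := by
    have : C * (t ^ 2 - t * s - ν * s ^ 2) = 0 := by
      linear_combination (-t + s) * k2 + ν * s * k1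
    exact (mul_eq_zero.mp this).resolve_right hP
  exact ⟨rfl, rfl, hC, rfl⟩

/-- the determinant of four vectors -/
def det4 {F : Type*} [Field F] (a1 b1 c1 d1 a2 b2 c2 d2 a3 b3 c3 d3 a4 b4 c4 d4 : F) : F :=
  (a1 * b2 - b1 * a2) * (c3 * d4 - d3 * c4) - (a1 * c2 - c1 * a2) * (b3 * d4 - d3 * b4) +
  (a1 * d2 - d1 * a2) * (b3 * c4 - c3 * b4) + (b1 * c2 - c1 * b2) * (a3 * d4 - d3 * a4) -
  (b1 * d2 - d1 * b2) * (a3 * c4 - c3 * a4) + (c1 * d2 - d1 * c2) * (a3 * b4 - b3 * a4)

/-- the Pfaffian identity -/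
theorem star {F : Type*} [Field F]
    (ν s t u a1 b1 c1 d1 a2 b2 c2 d2 a3 b3 c3 d3 a4 b4 c4 d4 : F) :
    det4 a1 b1 c1 d1 a2 b2 c2 d2 a3 b3 c3 d3 a4 b4 c4 d4 * (t ^ 2 - t * s - ν * s ^ 2) =
      sf ν s t u a1 b1 c1 d1 a2 b2 c2 d2 * sf ν s t u a3 b3 c3 d3 a4 b4 c4 d4 -
      sf ν s t u a1 b1 c1 d1 a3 b3 c3 d3 * sf ν s t u a2 b2 c2 d2 a4 b4 c4 d4 +
      sf ν s t u a1 b1 c1 d1 a4 b4 c4 d4 * sf ν s t u a2 b2 c2 d2 a3 b3 c3 d3 := by
  unfold det4 sf
  ring

theorem sf_swap {F : Type*} [Field F] (ν s t u a b c d e f g h : F) :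
    sf ν s t u e f g h a b c d = - sf ν s t u a b c d e f g h := by
  unfold sf
  ring

theorem sf_lin {F : Type*} [Field F] (ν l m s t u S T U a b c d e f g h : F) :
    sf ν (l * s + m * S) (l * t + m * T) (l * u + m * U) a b c d e f g h =
      l * sf ν s t u a b c d e f g h + m * sf ν S T U a b c d e f g h := by
  unfold sf
  ring

/-- first half: `S_z(X,x) = S_Z(X,x) = 0` forces `X = 0`. -/
theorem half1 {F : Type*} [Field F] (ν : F)
    (hν : ∀ p q : F, p ^ 2 - p * q - ν * q ^ 2 = 0 → p = 0 ∧ q = 0)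
    (a b c d A B C D e f g h s t u S T U : F)
    (h1 : sf ν s t u a b c d e f g h = 1)
    (h2 : sf ν s t u A B C D e f g h = 0)
    (h4 : sf ν S T U a b c d e f g h = 0)
    (h6 : sf ν S T U A B C D e f g h = 0)
    (ha : sf ν s t u A B C D a b c d = 0)
    (ha' : sf ν S T U A B C D a b c d = 0)
    (hst : ¬ (s = 0 ∧ t = 0)) (hST : ¬ (S = 0 ∧ T = 0)) :
    A = 0 ∧ B = 0 ∧ C = 0 ∧ D = 0 := by
  have hP : T ^ 2 - T * S - ν * S ^ 2 ≠ 0 := fun h => hST ⟨(hν T S h).2, (hν T S h).1⟩
  have key : ∀ w1 w2 w3 w4 : F, sf ν s t u A B C D w1 w2 w3 w4 = 0 := by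
    intro w1 w2 w3 w4
    have e1 := star ν S T U A B C D a b c d e f g h w1 w2 w3 w4
    rw [ha', h6, h4] at e1
    have e2 : det4 A B C D a b c d e f g h w1 w2 w3 w4 = 0 := by
      have : det4 A B C D a b c d e f g h w1 w2 w3 w4 * (T ^ 2 - T * S - ν * S ^ 2) = 0 := by
        rw [e1]; ring
      exact (mul_eq_zero.mp this).resolve_right hP
    have e3 := star ν s t u A B C D a b c d e f g h w1 w2 w3 w4
    rw [e2, ha, h2, h1] at e3
    linear_combination -e3
  exact sf_nondeg ν hν s t u A B C D hst (key _ _ _ _) (key _ _ _ _) (key _ _ _ _) (key _ _ _ _)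

/-- the main case -/
theorem main_case {F : Type*} [Field F] (ν : F)
    (hν : ∀ p q : F, p ^ 2 - p * q - ν * q ^ 2 = 0 → p = 0 ∧ q = 0)
    (a b c d A B C D e f g E K G s t u S T U : F)
    (h1 : sf ν s t u a b c d e f g 0 = 1)
    (h2 : sf ν s t u A B C D e f g 0 = 0)
    (h3 : sf ν s t u a b c d E K G 0 = 0)
    (h4 : sf ν S T U a b c d e f g 0 = 0)
    (h5 : sf ν s t u A B C D E K G 0 = 0)
    (h6 : sf ν S T U A B C D e f g 0 = 0)
    (h7 : sf ν S T U a b c d E K G 0 = 0)
    (h8 : sf ν S T U A B C D E K G 0 = 0)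
    (hX : ¬ (A = 0 ∧ B = 0 ∧ C = 0 ∧ D = 0)) (hY : ¬ (E = 0 ∧ K = 0 ∧ G = 0))
    (hst : ¬ (s = 0 ∧ t = 0)) (hST : ¬ (S = 0 ∧ T = 0)) (hind : s * T - t * S ≠ 0) : False := by
  set α := sf ν s t u A B C D a b c d with hα
  set α' := sf ν S T U A B C D a b c d with hα'
  set β := sf ν s t u e f g 0 E K G 0 with hβ
  set β' := sf ν S T U e f g 0 E K G 0 with hβ'
  have prod : ∀ l m : F, (l * α + m * α') * (l * β + m * β') =
      det4 A B C D a b c d e f g 0 E K G 0 *
        ((l * t + m * T) ^ 2 - (l * t + m * T) * (l * s + m * S) - ν * (l * s + m * S) ^ 2) := by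
    intro l m
    rw [star ν (l * s + m * S) (l * t + m * T) (l * u + m * U)]
    simp only [sf_lin]
    rw [h1, h2, h3, h4, h5, h6, h7, h8, ← hα, ← hα', ← hβ, ← hβ']
    ring
  by_cases hαα : α = 0 ∧ α' = 0
  · exact hX (half1 ν hν a b c d A B C D e f g 0 s t u S T U h1 h2 h4 h6 hαα.1 hαα.2 hst hST)
  · have hdet : det4 A B C D a b c d e f g 0 E K G 0 = 0 := by
      have e1 := prod α' (-α)
      have e2 : (α' * α + -α * α') * (α' * β + -α * β') = 0 := by ring
      rw [e2] at e1
      rcases mul_eq_zero.mp e1.symm with h | h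
      · exact h
      · exfalso
        obtain ⟨k1, k2⟩ := hν _ _ h
        apply hαα
        constructor
        · have : α * (s * T - t * S) = 0 := by linear_combination (-s) * k1 + t * k2
          exact (mul_eq_zero.mp this).resolve_right hind
        · have : α' * (s * T - t * S) = 0 := by linear_combination (-S) * k1 + T * k2
          exact (mul_eq_zero.mp this).resolve_right hind
    have e10 := prod 1 0
    have e01 := prod 0 1
    have e11 := prod 1 1
    rw [hdet] at e10 e01 e11
    have f1 : α * β = 0 := by linear_combination e10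
    have f2 : α' * β' = 0 := by linear_combination e01
    have f3 : α * β' + α' * β = 0 := by linear_combination e11 - f1 - f2
    have hββ : β = 0 ∧ β' = 0 := by
      by_cases h0 : α = 0
      · have h0' : α' ≠ 0 := fun h => hαα ⟨h0, h⟩
        rw [h0] at f3
        constructor
        · have : α' * β = 0 := by linear_combination f3
          exact (mul_eq_zero.mp this).resolve_left h0'
        · exact (mul_eq_zero.mp f2).resolve_left h0'
      · have hb : β = 0 := (mul_eq_zero.mp f1).resolve_left h0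
        refine ⟨hb, ?_⟩
        rw [hb] at f3
        have : α * β' = 0 := by linear_combination f3
        exact (mul_eq_zero.mp this).resolve_left h0
    -- apply the first half with the roles of the first two parts exchanged
    have hs : ∀ p : F, (-1 : F) * p = -p := fun p => by ring
    have g1 : sf ν (-s) (-t) (-u) e f g 0 a b c d = 1 := by
      have := sf_swap ν (-s) (-t) (-u) a b c d e f g 0
      rw [this]
      have h : sf ν (-s) (-t) (-u) a b c d e f g 0 = - sf ν s t u a b c d e f g 0 := by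
        unfold sf; ring
      rw [h, h1]; ring
    have g2 : sf ν (-s) (-t) (-u) E K G 0 a b c d = 0 := by
      have h : sf ν (-s) (-t) (-u) E K G 0 a b c d = sf ν s t u a b c d E K G 0 := by
        unfold sf; ring
      rw [h, h3]
    have g4 : sf ν (-S) (-T) (-U) e f g 0 a b c d = 0 := by
      have h : sf ν (-S) (-T) (-U) e f g 0 a b c d = sf ν S T U a b c d e f g 0 := by
        unfold sf; ring
      rw [h, h4]
    have g6 : sf ν (-S) (-T) (-U) E K G 0 a b c d = 0 := by
      have h : sf ν (-S) (-T) (-U) E K G 0 a b c d = sf ν S T U a b c d E K G 0 := by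
        unfold sf; ring
      rw [h, h7]
    have g7 : sf ν (-s) (-t) (-u) E K G 0 e f g 0 = 0 := by
      have h : sf ν (-s) (-t) (-u) E K G 0 e f g 0 = sf ν s t u e f g 0 E K G 0 := by
        unfold sf; ring
      rw [h, ← hβ, hββ.1]
    have g8 : sf ν (-S) (-T) (-U) E K G 0 e f g 0 = 0 := by
      have h : sf ν (-S) (-T) (-U) E K G 0 e f g 0 = sf ν S T U e f g 0 E K G 0 := by
        unfold sf; ring
      rw [h, ← hβ', hββ.2]
    have := half1 ν hν e f g 0 E K G 0 a b c d (-s) (-t) (-u) (-S) (-T) (-U) g1 g2 g4 g6 g7 g8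
      (by rw [neg_eq_zero, neg_eq_zero]; exact hst) (by rw [neg_eq_zero, neg_eq_zero]; exact hST)
    exact hY ⟨this.1, this.2.1, this.2.2.1⟩

/-- no box: the eight equations have no solution with `X, Y, Z` nonzero -/
theorem core433 {F : Type*} [Field F] (ν : F)
    (hν : ∀ p q : F, p ^ 2 - p * q - ν * q ^ 2 = 0 → p = 0 ∧ q = 0)
    (a b c d A B C D e f g E K G s t u S T U : F)
    (h1 : sf ν s t u a b c d e f g 0 = 1)
    (h2 : sf ν s t u A B C D e f g 0 = 0)
    (h3 : sf ν s t u a b c d E K G 0 = 0)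
    (h4 : sf ν S T U a b c d e f g 0 = 0)
    (h5 : sf ν s t u A B C D E K G 0 = 0)
    (h6 : sf ν S T U A B C D e f g 0 = 0)
    (h7 : sf ν S T U a b c d E K G 0 = 0)
    (h8 : sf ν S T U A B C D E K G 0 = 0)
    (hL : s * a + t * b ≠ 0) (hD : b * e - a * f ≠ 0)
    (hX : ¬ (A = 0 ∧ B = 0 ∧ C = 0 ∧ D = 0)) (hY : ¬ (E = 0 ∧ K = 0 ∧ G = 0))
    (hZ : ¬ (S = 0 ∧ T = 0 ∧ U = 0)) : False := by
  have hst : ¬ (s = 0 ∧ t = 0) := by
    rintro ⟨rfl, rfl⟩
    exact hL (by ring)
  have hEK : ¬ (E = 0 ∧ K = 0) := by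
    rintro ⟨rfl, rfl⟩
    apply hY
    refine ⟨rfl, rfl, ?_⟩
    have : G * (s * a + t * b) = 0 := by
      unfold sf at h3
      linear_combination h3
    exact (mul_eq_zero.mp this).resolve_right hL
  have hST : ¬ (S = 0 ∧ T = 0) := by
    rintro ⟨rfl, rfl⟩
    apply hZ
    refine ⟨rfl, rfl, ?_⟩
    have : U * (b * e - a * f) = 0 := by
      unfold sf at h4
      linear_combination h4
    exact (mul_eq_zero.mp this).resolve_right hD
  by_cases hind : s * T - t * S = 0
  · -- `(S, T)` is a multiple of `(s, t)`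
    obtain ⟨l, hS, hT⟩ : ∃ l, S = l * s ∧ T = l * t := by
      by_cases hs : s = 0
      · subst hs
        have ht : t ≠ 0 := fun h => hst ⟨rfl, h⟩
        refine ⟨T / t, ?_, ?_⟩
        · have : t * S = 0 := by linear_combination -hind
          rw [(mul_eq_zero.mp this).resolve_left ht]; ring
        · field_simp
      · refine ⟨S / s, ?_, ?_⟩
        · field_simp
        · field_simp
          linear_combination hind
    subst hS hT
    set V := U - l * u with hV
    have hU : U = l * u + V := by rw [hV]; ring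
    have k4 : l + V * (b * e - a * f) = 0 := by
      unfold sf at h4 h1
      rw [hU] at h4
      linear_combination h4 - l * h1
    have hV0 : V ≠ 0 := by
      intro h
      rw [h] at k4
      have hl : l = 0 := by linear_combination k4
      apply hST
      rw [hl]
      exact ⟨by ring, by ring⟩
    have k6 : B * e - A * f = 0 := by
      have : V * (B * e - A * f) = 0 := by
        unfold sf at h6 h2
        rw [hU] at h6
        linear_combination h6 - l * h2
      exact (mul_eq_zero.mp this).resolve_left hV0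
    have k7 : b * E - a * K = 0 := by
      have : V * (b * E - a * K) = 0 := by
        unfold sf at h7 h3
        rw [hU] at h7
        linear_combination h7 - l * h3
      exact (mul_eq_zero.mp this).resolve_left hV0
    have k8 : B * E - A * K = 0 := by
      have : V * (B * E - A * K) = 0 := by
        unfold sf at h8 h5
        rw [hU] at h8
        linear_combination h8 - l * h5
      exact (mul_eq_zero.mp this).resolve_left hV0
    have hfe : f * E - e * K ≠ 0 := by
      intro h
      apply hEK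
      constructor
      · have : E * (b * e - a * f) = 0 := by linear_combination e * k7 - a * h
        exact (mul_eq_zero.mp this).resolve_right hD
      · have : K * (b * e - a * f) = 0 := by linear_combination f * k7 - b * h
        exact (mul_eq_zero.mp this).resolve_right hD
    have hba : b * A - a * B = 0 := by
      have : (b * A - a * B) * (f * E - e * K) = 0 := by
        linear_combination (b * e - a * f) * k8 - (b * E - a * K) * k6
      exact (mul_eq_zero.mp this).resolve_right hfe
    have hA : A = 0 := by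
      have : A * (b * e - a * f) = 0 := by linear_combination e * hba + a * k6
      exact (mul_eq_zero.mp this).resolve_right hD
    have hB : B = 0 := by
      have : B * (b * e - a * f) = 0 := by linear_combination f * hba + b * k6
      exact (mul_eq_zero.mp this).resolve_right hD
    subst hA hB
    have hP : (l * t) ^ 2 - (l * t) * (l * s) - ν * (l * s) ^ 2 ≠ 0 :=
      fun h => hST ⟨(hν _ _ h).2, (hν _ _ h).1⟩
    unfold sf at h6 h8
    have P1 : (l * s) * C + (l * t) * D = 0 := by
      have : ((l * s) * C + (l * t) * D) * (f * E - e * K) = 0 := by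
        linear_combination K * h6 - f * h8
      exact (mul_eq_zero.mp this).resolve_right hfe
    have P2 : ν * (l * s) * D + (l * t) * C + (l * t) * D = 0 := by
      have : (ν * (l * s) * D + (l * t) * C + (l * t) * D) * (f * E - e * K) = 0 := by
        linear_combination (-E) * h6 + e * h8
      exact (mul_eq_zero.mp this).resolve_right hfe
    have hD0 : D = 0 := by
      have : D * ((l * t) ^ 2 - (l * t) * (l * s) - ν * (l * s) ^ 2) = 0 := by
        linear_combination (l * t) * P1 - (l * s) * P2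
      exact (mul_eq_zero.mp this).resolve_right hP
    subst hD0
    have hC0 : C = 0 := by
      have : C * ((l * t) ^ 2 - (l * t) * (l * s) - ν * (l * s) ^ 2) = 0 := by
        linear_combination (l * t) * P2 - (l * t) * P1 - ν * (l * s) * P1
      exact (mul_eq_zero.mp this).resolve_right hP
    exact hX ⟨rfl, rfl, hC0, rfl⟩
  · exact main_case ν hν a b c d A B C D e f g E K G s t u S T U h1 h2 h3 h4 h5 h6 h7 h8
      hX hY hst hST hind

end Pool.Agent.Lib.MP_f6ab77_co
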