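import Mathlib
import Pool.Agent.Lib.MP_f6ab77_co.Core433

set_option autoImplicit false

namespace Pool.Agent.Lib.MP_f6ab77_co

open Finset

section

variable {F : Type*} [Field F] (ν : F)

/-- the trilinear form -/
def tri (x : Fin 4 → F) (y z : Fin 3 → F) : F :=
  sf ν (z 0) (z 1) (z 2) (x 0) (x 1) (x 2) (x 3) (y 0) (y 1) (y 2) 0

/-- the domain on which the level sets of `tri` are box free -/
def Dom (x : Fin 4 → F) (y z : Fin 3 → F) : Prop :=
  tri ν x y z ≠ 0 ∧ z 0 * x 0 + z 1 * x 1 ≠ 0 ∧ x 1 * y 0 - x 0 * y 1 ≠ 0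

/-- eight points of `Dom` on one level never form a box (level 1) -/
theorem no_box1 (hν : ∀ p q : F, p ^ 2 - p * q - ν * q ^ 2 = 0 → p = 0 ∧ q = 0)
    (x x' : Fin 4 → F) (y y' z z' : Fin 3 → F) (hx : x ≠ x') (hy : y ≠ y') (hz : z ≠ z')
    (hL : z 0 * x 0 + z 1 * x 1 ≠ 0) (hD : x 1 * y 0 - x 0 * y 1 ≠ 0)
    (T000 : tri ν x y z = 1) (T100 : tri ν x' y z = 1) (T010 : tri ν x y' z = 1)
    (T001 : tri ν x y z' = 1) (T110 : tri ν x' y' z = 1) (T101 : tri ν x' y z' = 1)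
    (T011 : tri ν x y' z' = 1) (T111 : tri ν x' y' z' = 1) : False := by
  unfold tri sf at T000 T100 T010 T001 T110 T101 T011 T111
  apply core433 ν hν (x 0) (x 1) (x 2) (x 3) (x' 0 - x 0) (x' 1 - x 1) (x' 2 - x 2) (x' 3 - x 3)
    (y 0) (y 1) (y 2) (y' 0 - y 0) (y' 1 - y 1) (y' 2 - y 2)
    (z 0) (z 1) (z 2) (z' 0 - z 0) (z' 1 - z 1) (z' 2 - z 2)
  · unfold sf; linear_combination T000
  · unfold sf; linear_combination T100 - T000
  · unfold sf; linear_combination T010 - T000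
  · unfold sf; linear_combination T001 - T000
  · unfold sf; linear_combination T110 - T100 - T010 + T000
  · unfold sf; linear_combination T101 - T100 - T001 + T000
  · unfold sf; linear_combination T011 - T010 - T001 + T000
  · unfold sf; linear_combination T111 - T110 - T101 - T011 + T100 + T010 + T001 - T000
  · exact hL
  · exact hD
  · rintro ⟨h0, h1, h2, h3⟩
    apply hx
    funext i
    fin_cases i
    · exact (sub_eq_zero.mp h0).symm
    · exact (sub_eq_zero.mp h1).symm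
    · exact (sub_eq_zero.mp h2).symm
    · exact (sub_eq_zero.mp h3).symm
  · rintro ⟨h0, h1, h2⟩
    apply hy
    funext i
    fin_cases i
    · exact (sub_eq_zero.mp h0).symm
    · exact (sub_eq_zero.mp h1).symm
    · exact (sub_eq_zero.mp h2).symm
  · rintro ⟨h0, h1, h2⟩
    apply hz
    funext i
    fin_cases i
    · exact (sub_eq_zero.mp h0).symm
    · exact (sub_eq_zero.mp h1).symm
    · exact (sub_eq_zero.mp h2).symm

theorem tri_smul (c : F) (x : Fin 4 → F) (y z : Fin 3 → F) :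
    tri ν x y (fun i => c * z i) = c * tri ν x y z := by
  unfold tri sf
  ring

/-- eight points of `Dom` on one level never form a box -/
theorem no_box (hν : ∀ p q : F, p ^ 2 - p * q - ν * q ^ 2 = 0 → p = 0 ∧ q = 0) (c : F)
    (x x' : Fin 4 → F) (y y' z z' : Fin 3 → F) (hx : x ≠ x') (hy : y ≠ y') (hz : z ≠ z')
    (hdom : Dom ν x y z)
    (T000 : tri ν x y z = c) (T100 : tri ν x' y z = c) (T010 : tri ν x y' z = c)
    (T001 : tri ν x y z' = c) (T110 : tri ν x' y' z = c) (T101 : tri ν x' y z' = c)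
    (T011 : tri ν x y' z' = c) (T111 : tri ν x' y' z' = c) : False := by
  have hc : c ≠ 0 := by rw [← T000]; exact hdom.1
  have hci : c⁻¹ * c = 1 := inv_mul_cancel₀ hc
  apply no_box1 ν hν x x' y y' (fun i => c⁻¹ * z i) (fun i => c⁻¹ * z' i) hx hy
  · intro h
    apply hz
    funext i
    have := congrFun h i
    exact mul_left_cancel₀ (inv_ne_zero hc) this
  · have : c⁻¹ * z 0 * x 0 + c⁻¹ * z 1 * x 1 = c⁻¹ * (z 0 * x 0 + z 1 * x 1) := by ring
    show c⁻¹ * z 0 * x 0 + c⁻¹ * z 1 * x 1 ≠ 0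
    rw [this]
    exact mul_ne_zero (inv_ne_zero hc) hdom.2.1
  · exact hdom.2.2
  · rw [tri_smul, T000, hci]
  · rw [tri_smul, T100, hci]
  · rw [tri_smul, T010, hci]
  · rw [tri_smul, T001, hci]
  · rw [tri_smul, T110, hci]
  · rw [tri_smul, T101, hci]
  · rw [tri_smul, T011, hci]
  · rw [tri_smul, T111, hci]

end

section count

variable {F : Type*} [Field F] [Fintype F] (ν : F)

open Classical in
/-- the number of points of `Dom` on given vertex sets -/
noncomputable def cnt (A : Finset (Fin 4 → F)) (B C : Finset (Fin 3 → F)) : ℕ :=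
  ∑ x ∈ A, ∑ y ∈ B, ∑ z ∈ C, if Dom ν x y z then 1 else 0

theorem cnt_univ {q : ℕ} (hq : Fintype.card F = q) :
    q ^ 6 * (q - 1) ^ 4 ≤ cnt ν univ univ (univ : Finset (Fin 3 → F)) := by
  classical
  have hcnt : cnt ν univ univ (univ : Finset (Fin 3 → F)) =
      ((univ : Finset ((Fin 4 → F) × (Fin 3 → F) × (Fin 3 → F))).filter
        (fun p => Dom ν p.1 p.2.1 p.2.2)).card := by
    unfold cnt
    rw [card_filter, ← univ_product_univ, sum_product]
    apply sum_congr rfl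
    intro x _
    rw [← univ_product_univ, sum_product]
  rw [hcnt]
  let P := Fˣ × F × F × F × F × Fˣ × F × Fˣ × F × Fˣ
  have hP : Fintype.card P = q ^ 6 * (q - 1) ^ 4 := by
    simp only [P, Fintype.card_prod, Fintype.card_units, hq]
    ring
  rw [← hP, ← card_univ]
  -- (a, b, c, d, e, w, t, v, u, k)
  let X : P → (Fin 4 → F) := fun p => ![(p.1 : F), p.2.1, p.2.2.1, p.2.2.2.1]
  let f : P → F := fun p => (p.2.1 * p.2.2.2.2.1 - (p.2.2.2.2.2.1 : F)) / (p.1 : F)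
  let s : P → F := fun p => ((p.2.2.2.2.2.2.2.1 : F) - p.2.2.2.2.2.2.1 * p.2.1) / (p.1 : F)
  let g : P → F := fun p => ((p.2.2.2.2.2.2.2.2.2 : F) +
    s p * (p.2.2.1 * p.2.2.2.2.1 + ν * p.2.2.2.1 * f p) +
    p.2.2.2.2.2.2.1 * (p.2.2.1 * f p + p.2.2.2.1 * p.2.2.2.2.1 + p.2.2.2.1 * f p) -
    p.2.2.2.2.2.2.2.2.1 * (p.2.2.2.2.2.1 : F)) / (p.2.2.2.2.2.2.2.1 : F)
  let Y : P → (Fin 3 → F) := fun p => ![p.2.2.2.2.1, f p, g p]
  let Z : P → (Fin 3 → F) := fun p => ![s p, p.2.2.2.2.2.2.1, p.2.2.2.2.2.2.2.2.1]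
  have hT : ∀ p : P, tri ν (X p) (Y p) (Z p) = (p.2.2.2.2.2.2.2.2.2 : F) ∧
      Z p 0 * X p 0 + Z p 1 * X p 1 = (p.2.2.2.2.2.2.2.1 : F) ∧
      X p 1 * Y p 0 - X p 0 * Y p 1 = (p.2.2.2.2.2.1 : F) := by
    intro p
    obtain ⟨a, b, c, d, e, w, t, v, u, k⟩ := p
    have ha : (a : F) ≠ 0 := a.ne_zero
    have hv : (v : F) ≠ 0 := v.ne_zero
    have hs : s (a, b, c, d, e, w, t, v, u, k) * (a : F) + t * b = v := by
      simp only [s]
      field_simp
      ring
    have hf : b * e - (a : F) * f (a, b, c, d, e, w, t, v, u, k) = w := by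
      simp only [f]
      field_simp
      ring
    have hg : g (a, b, c, d, e, w, t, v, u, k) * (v : F) =
        k + s (a, b, c, d, e, w, t, v, u, k) *
          (c * e + ν * d * f (a, b, c, d, e, w, t, v, u, k)) +
        t * (c * f (a, b, c, d, e, w, t, v, u, k) + d * e +
          d * f (a, b, c, d, e, w, t, v, u, k)) - u * (w : F) := by
      simp only [g]
      field_simp
    refine ⟨?_, hs, hf⟩
    show sf ν (s (a, b, c, d, e, w, t, v, u, k)) t u (a : F) b c d e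
      (f (a, b, c, d, e, w, t, v, u, k)) (g (a, b, c, d, e, w, t, v, u, k)) 0 = k
    unfold sf
    linear_combination g (a, b, c, d, e, w, t, v, u, k) * hs + u * hf + hg
  apply card_le_card_of_injOn (fun p => (X p, Y p, Z p))
  · intro p _
    simp only [coe_filter, mem_univ, true_and, Set.mem_ofPred_eq]
    obtain ⟨k1, k2, k3⟩ := hT p
    refine ⟨?_, ?_, ?_⟩
    · rw [k1]; exact p.2.2.2.2.2.2.2.2.2.ne_zero
    · rw [k2]; exact p.2.2.2.2.2.2.2.1.ne_zero
    · rw [k3]; exact p.2.2.2.2.2.1.ne_zero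
  · intro p _ p' _ h
    simp only [Prod.mk.injEq] at h
    obtain ⟨hX, hY, hZ⟩ := h
    obtain ⟨k1, k2, k3⟩ := hT p
    obtain ⟨l1, l2, l3⟩ := hT p'
    rw [hX, hY, hZ, l1] at k1
    rw [hX, hZ, l2] at k2
    rw [hX, hY, l3] at k3
    obtain ⟨a, b, c, d, e, w, t, v, u, k⟩ := p
    obtain ⟨a', b', c', d', e', w', t', v', u', k'⟩ := p'
    have ea : (a : F) = a' := congrFun hX 0
    have eb : b = b' := congrFun hX 1
    have ec : c = c' := congrFun hX 2
    have ed : d = d' := congrFun hX 3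
    have ee : e = e' := congrFun hY 0
    have et : t = t' := congrFun hZ 1
    have eu : u = u' := congrFun hZ 2
    have ek : (k' : F) = k := k1
    have ev : (v' : F) = v := k2
    have ew : (w' : F) = w := k3
    rw [Units.ext ea, eb, ec, ed, ee, Units.ext ew.symm, et, Units.ext ev.symm, eu,
      Units.ext ek.symm]

/-- averaging: some `m`-subset carries at least its share of the sum -/
theorem exists_subset_avg {α : Type*} [DecidableEq α] (f : α → ℕ) (m : ℕ) : ∀ (k : ℕ)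
    (A : Finset α), A.card = m + k → ∃ B ⊆ A, B.card = m ∧ m * ∑ x ∈ A, f x ≤ A.card * ∑ x ∈ B, f x := by
  intro k
  induction k with
  | zero =>
    intro A hA
    exact ⟨A, Subset.refl _, by simpa using hA, by rw [hA]; simp⟩
  | succ k ih =>
    intro A hA
    have hne : A.Nonempty := by
      rw [← card_pos]; omega
    obtain ⟨a, ha, hmin⟩ := exists_min_image A f hne
    have hA' : (A.erase a).card = m + k := by
      rw [card_erase_of_mem ha]; omega
    obtain ⟨B, hB, hBc, hBs⟩ := ih (A.erase a) hA'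
    refine ⟨B, hB.trans (erase_subset _ _), hBc, ?_⟩
    rcases Nat.eq_zero_or_pos (m + k) with h0 | hpos
    · have : m = 0 := by omega
      rw [this]; simp
    · have hsum : ∑ x ∈ A, f x = ∑ x ∈ A.erase a, f x + f a := (sum_erase_add A f ha).symm
      have h1 : (m + k) * f a ≤ ∑ x ∈ A.erase a, f x := by
        rw [← hA', ← smul_eq_mul]
        exact card_nsmul_le_sum _ _ _ (fun x hx => hmin x (mem_of_mem_erase hx))
      rw [hA'] at hBs
      rw [hA, hsum]
      have h2 : (m + k) * (m * (∑ x ∈ A.erase a, f x + f a)) ≤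
          (m + k) * ((m + (k + 1)) * ∑ x ∈ B, f x) := by
        calc (m + k) * (m * (∑ x ∈ A.erase a, f x + f a))
            = m * ((m + k) * ∑ x ∈ A.erase a, f x + (m + k) * f a) := by ring
          _ ≤ m * ((m + k) * ∑ x ∈ A.erase a, f x + ∑ x ∈ A.erase a, f x) :=
              Nat.mul_le_mul_left _ (Nat.add_le_add_left h1 _)
          _ = (m + k + 1) * (m * ∑ x ∈ A.erase a, f x) := by ring
          _ ≤ (m + k + 1) * ((m + k) * ∑ x ∈ B, f x) := Nat.mul_le_mul_left _ hBs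
          _ = (m + k) * ((m + (k + 1)) * ∑ x ∈ B, f x) := by ring
      exact Nat.le_of_mul_le_mul_left h2 hpos

theorem exists_sub {q : ℕ} (hq : Fintype.card F = q) (m0 m1 m2 : ℕ) (h0 : m0 ≤ q ^ 4)
    (h1 : m1 ≤ q ^ 3) (h2 : m2 ≤ q ^ 3) :
    ∃ (A : Finset (Fin 4 → F)) (B C : Finset (Fin 3 → F)), A.card = m0 ∧ B.card = m1 ∧ C.card = m2 ∧
      m0 * m1 * m2 * (q ^ 6 * (q - 1) ^ 4) ≤ q ^ 10 * cnt ν A B C := by
  classical
  have c4 : (univ : Finset (Fin 4 → F)).card = q ^ 4 := by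
    rw [card_univ, Fintype.card_fun, hq]; simp
  have c3 : (univ : Finset (Fin 3 → F)).card = q ^ 3 := by
    rw [card_univ, Fintype.card_fun, hq]; simp
  obtain ⟨A, -, hA, hA'⟩ := exists_subset_avg
    (fun x : Fin 4 → F => ∑ y : Fin 3 → F, ∑ z : Fin 3 → F, if Dom ν x y z then 1 else 0) m0
    (q ^ 4 - m0) univ (by omega)
  obtain ⟨B, -, hB, hB'⟩ := exists_subset_avg
    (fun y : Fin 3 → F => ∑ x ∈ A, ∑ z : Fin 3 → F, if Dom ν x y z then 1 else 0) m1
    (q ^ 3 - m1) univ (by omega)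
  obtain ⟨C, -, hC, hC'⟩ := exists_subset_avg
    (fun z : Fin 3 → F => ∑ x ∈ A, ∑ y ∈ B, if Dom ν x y z then 1 else 0) m2
    (q ^ 3 - m2) univ (by omega)
  refine ⟨A, B, C, hA, hB, hC, ?_⟩
  have hfull := cnt_univ ν hq
  rw [c4] at hA'
  rw [c3] at hB' hC'
  have e1 : ∑ x ∈ A, ∑ y : Fin 3 → F, ∑ z : Fin 3 → F, (if Dom ν x y z then 1 else 0) =
      ∑ y : Fin 3 → F, ∑ x ∈ A, ∑ z : Fin 3 → F, (if Dom ν x y z then 1 else 0) := sum_comm
  have e2 : ∑ y ∈ B, ∑ x ∈ A, ∑ z : Fin 3 → F, (if Dom ν x y z then 1 else 0) =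
      ∑ z : Fin 3 → F, ∑ x ∈ A, ∑ y ∈ B, (if Dom ν x y z then 1 else 0) := by
    rw [sum_comm]
    have : ∀ x ∈ A, ∑ y ∈ B, ∑ z : Fin 3 → F, (if Dom ν x y z then 1 else 0) =
        ∑ z : Fin 3 → F, ∑ y ∈ B, (if Dom ν x y z then 1 else 0) := fun x _ => sum_comm
    rw [sum_congr rfl this, sum_comm]
  have e3 : ∑ z ∈ C, ∑ x ∈ A, ∑ y ∈ B, (if Dom ν x y z then 1 else 0) = cnt ν A B C := by
    unfold cnt
    rw [sum_comm]
    apply sum_congr rfl
    intro x _
    rw [sum_comm]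
  have e0 : ∑ x : Fin 4 → F, ∑ y : Fin 3 → F, ∑ z : Fin 3 → F, (if Dom ν x y z then 1 else 0) =
      cnt ν univ univ (univ : Finset (Fin 3 → F)) := rfl
  rw [e3] at hC'
  rw [e2] at hB'
  rw [e0, e1] at hA'
  calc m0 * m1 * m2 * (q ^ 6 * (q - 1) ^ 4)
      ≤ m0 * m1 * m2 * cnt ν univ univ (univ : Finset (Fin 3 → F)) := Nat.mul_le_mul_left _ hfull
    _ = m1 * m2 * (m0 * cnt ν univ univ (univ : Finset (Fin 3 → F))) := by ring
    _ ≤ m1 * m2 * (q ^ 4 * ∑ y : Fin 3 → F, ∑ x ∈ A, ∑ z : Fin 3 → F,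
          (if Dom ν x y z then 1 else 0)) := Nat.mul_le_mul_left _ hA'
    _ = m2 * q ^ 4 * (m1 * ∑ y : Fin 3 → F, ∑ x ∈ A, ∑ z : Fin 3 → F,
          (if Dom ν x y z then 1 else 0)) := by ring
    _ ≤ m2 * q ^ 4 * (q ^ 3 * ∑ z : Fin 3 → F, ∑ x ∈ A, ∑ y ∈ B,
          (if Dom ν x y z then 1 else 0)) := Nat.mul_le_mul_left _ hB'
    _ = q ^ 7 * (m2 * ∑ z : Fin 3 → F, ∑ x ∈ A, ∑ y ∈ B,
          (if Dom ν x y z then 1 else 0)) := by ring
    _ ≤ q ^ 7 * (q ^ 3 * cnt ν A B C) := Nat.mul_le_mul_left _ hC'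
    _ = q ^ 10 * cnt ν A B C := by ring

end count

end Pool.Agent.Lib.MP_f6ab77_co
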