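import Mathlib
import Pool.Agent.Lib.MP_f6ab77_co.Lower

set_option autoImplicit false

namespace Pool.Agent.Lib.MP_f6ab77_co

open Finset Polynomial

/-- No level set of `f` contains a box inside `D` whose sides are `r`-element subsets of the
`U i`. -/
def GoodOn {t : ℕ} (r : ℕ) (U : Fin t → Finset ℕ) (D : (Fin t → ℕ) → Prop)
    (f : (Fin t → ℕ) → ℕ) : Prop :=
  ∀ (z : ℕ) (S : Fin t → Finset ℕ), (∀ i, S i ⊆ U i) → (∀ i, (S i).card = r) →
    (∀ e : Fin t → ℕ, (∀ i, e i ∈ S i) → D e) →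
    ∃ e : Fin t → ℕ, (∀ i, e i ∈ S i) ∧ f e ≠ z

theorem nextF_goodOn {t : ℕ} (p r : ℕ) (hp : p.Prime) (hr : 1 ≤ r) (U : Fin t → Finset ℕ)
    (D : (Fin t → ℕ) → Prop)
    (f : (Fin t → ℕ) → ℕ) (hf : GoodOn r U D f) (hlt : ∀ e, f e < p ^ r)
    (U' : Fin (t + 1) → Finset ℕ) (hU : ∀ i, U' i.castSucc = U i)
    (hlast : ∀ x ∈ U' (Fin.last t), x < p ^ 2) :
    GoodOn r U' (fun e => D (fun i => e i.castSucc)) (nextF p r f) := by
  have : Fact p.Prime := ⟨hp⟩
  have : NeZero p := ⟨hp.ne_zero⟩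
  intro z S hS hcard hD
  by_contra hcon
  push Not at hcon
  -- for all e in the box the value is z
  have hbox : ∀ e : Fin t → ℕ, (∀ i, e i ∈ S i.castSucc) → ∀ x ∈ S (Fin.last t),
      (digPoly p r (f e)).eval ((x : ℕ) : ZMod p) = ((x / p : ℕ) : ZMod p) - (z : ZMod p) := by
    intro e he x hx
    have h1 := hcon (Fin.snoc e x) (by
      intro i
      refine Fin.lastCases ?_ (fun j => ?_) i
      · simpa using hx
      · simpa using he j)
    unfold nextF at h1
    simp only [Fin.snoc_last, Fin.snoc_castSucc] at h1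
    have h2 : (((x / p : ℕ) : ZMod p) - (digPoly p r (f e)).eval ((x : ℕ) : ZMod p)) = (z : ZMod p) := by
      rw [← h1, ZMod.natCast_val, ZMod.cast_id', id]
    rw [← h2]
    ring
  -- the points of the last side have distinct first coordinates
  obtain ⟨x0, hx0⟩ : (S (Fin.last t)).Nonempty := by
    rw [← card_pos, hcard]; omega
  have hinj : ∀ e : Fin t → ℕ, (∀ i, e i ∈ S i.castSucc) →
      Set.InjOn (fun x : ℕ => ((x : ℕ) : ZMod p)) (S (Fin.last t)) := by
    intro e he x hx y hy hxy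
    simp only [Finset.mem_coe] at hx hy
    simp only at hxy
    have h1 := hbox e he x hx
    have h2 := hbox e he y hy
    rw [hxy, h2] at h1
    have h3 : ((x / p : ℕ) : ZMod p) = ((y / p : ℕ) : ZMod p) := by
      linear_combination -h1
    have h4 := (ZMod.natCast_eq_natCast_iff' _ _ _).mp h3
    have h5 := (ZMod.natCast_eq_natCast_iff' _ _ _).mp hxy
    have hx2 := hlast x (hS _ hx)
    have hy2 := hlast y (hS _ hy)
    have h6 : x / p < p := by
      rw [Nat.div_lt_iff_lt_mul hp.pos]; nlinarith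
    have h7 : y / p < p := by
      rw [Nat.div_lt_iff_lt_mul hp.pos]; nlinarith
    rw [Nat.mod_eq_of_lt h6, Nat.mod_eq_of_lt h7] at h4
    rw [← Nat.div_add_mod x p, ← Nat.div_add_mod y p, h4, h5]
  -- hence f is constant on the box
  have hconst : ∀ e e' : Fin t → ℕ, (∀ i, e i ∈ S i.castSucc) → (∀ i, e' i ∈ S i.castSucc) →
      f e = f e' := by
    intro e e' he he'
    apply digPoly_inj p hp.pos r _ _ (hlt e) (hlt e')
    have hsub : (digPoly p r (f e) - digPoly p r (f e')) = 0 := by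
      by_contra hne
      have hdeg : (digPoly p r (f e) - digPoly p r (f e')).degree < r :=
        (degree_sub_le _ _).trans_lt (max_lt (digPoly_degree_lt _ _ _) (digPoly_degree_lt _ _ _))
      have hroots : (S (Fin.last t)).card ≤ (digPoly p r (f e) - digPoly p r (f e')).roots.toFinset.card := by
        rw [← card_image_of_injOn (hinj e he)]
        apply card_le_card
        intro y hy
        obtain ⟨x, hx, rfl⟩ := mem_image.mp hy
        rw [Multiset.mem_toFinset, mem_roots hne, IsRoot, eval_sub, hbox e he x hx, hbox e' he' x hx]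
        ring
      have h1 := hroots.trans ((Multiset.toFinset_card_le _).trans (card_roots' _))
      rw [hcard] at h1
      have h2 : (digPoly p r (f e) - digPoly p r (f e')).natDegree < r := by
        rwa [natDegree_lt_iff_degree_lt hne]
      omega
    exact sub_eq_zero.mp hsub
  -- contradiction with goodness of f
  have hne : ∀ i : Fin t, ∃ x, x ∈ S i.castSucc := by
    intro i
    have : (S i.castSucc).Nonempty := by rw [← card_pos, hcard]; omega
    exact this
  choose e0 he0 using hne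
  obtain ⟨e, he, hfe⟩ := hf (f e0) (fun i => S i.castSucc)
    (fun i => (hS i.castSucc).trans (by rw [hU i])) (fun i => hcard _) (by
      intro e he
      have := hD (Fin.snoc e x0) (by
        intro i
        refine Fin.lastCases ?_ (fun j => ?_) i
        · simpa using hx0
        · simpa using he j)
      simpa using this)
  exact hfe (hconst e e0 he he0)

/-- one step of the iteration for `r = 2` -/
theorem step {t : ℕ} (N P : ℕ) (m : Fin (t + 1) → ℕ) (D : (Fin t → ℕ) → Prop)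
    (f : (Fin t → ℕ) → ℕ) (hP1 : 1 ≤ P) (hfP : ∀ e, f e < P) (K : ℕ) (hK : 0 < K)
    (hNP : N ≤ P ^ K) (hgood : GoodOn 2 (fun i => range (m i.castSucc)) D f)
    (hm : (m (Fin.last t)) ^ (2 * K) ≤ N ^ 2) :
    ∃ (p : ℕ) (f' : (Fin (t + 1) → ℕ) → ℕ), 1 ≤ p ∧ (∀ e, f' e < p) ∧ N ≤ p ^ (2 * K) ∧
      p ^ 2 ≤ 16 * P ∧
      GoodOn 2 (fun i => range (m i)) (fun e => D (fun i => e i.castSucc)) f' := by
  have hex : ∃ x : ℕ, P ≤ x ^ 2 := ⟨P, Nat.le_self_pow (by omega) P⟩
  classical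
  set x := Nat.find hex with hx
  have hxr : P ≤ x ^ 2 := Nat.find_spec hex
  have hx1 : 1 ≤ x := by
    by_contra h
    have h2 : x = 0 := by omega
    rw [h2, zero_pow (by omega)] at hxr
    omega
  have hxle : x ^ 2 ≤ 2 ^ 2 * P := by
    rcases Nat.lt_or_ge x 2 with h | h
    · have h2 : x = 1 := by omega
      rw [h2, one_pow]
      exact Nat.mul_pos (by positivity) hP1
    · have h3 : ¬ P ≤ (x - 1) ^ 2 := Nat.find_min hex (by omega)
      push Not at h3
      calc x ^ 2 ≤ (2 * (x - 1)) ^ 2 := Nat.pow_le_pow_left (by omega) 2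
        _ = 2 ^ 2 * (x - 1) ^ 2 := by rw [mul_pow]
        _ ≤ 2 ^ 2 * P := Nat.mul_le_mul_left _ h3.le
  obtain ⟨p, hp, hxp, hp2⟩ := Nat.exists_prime_lt_and_le_two_mul x (by omega)
  have : NeZero p := ⟨hp.ne_zero⟩
  refine ⟨p, nextF p 2 f, hp.one_lt.le, fun e => nextF_lt p 2 f e, ?_, ?_, ?_⟩
  · calc N ≤ P ^ K := hNP
      _ ≤ (x ^ 2) ^ K := Nat.pow_le_pow_left hxr _
      _ = x ^ (2 * K) := by rw [← pow_mul]
      _ ≤ p ^ (2 * K) := Nat.pow_le_pow_left hxp.le _
  · calc p ^ 2 ≤ (2 * x) ^ 2 := Nat.pow_le_pow_left hp2 _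
      _ = 4 * x ^ 2 := by ring
      _ ≤ 4 * (2 ^ 2 * P) := Nat.mul_le_mul_left _ hxle
      _ = 16 * P := by ring
  · apply nextF_goodOn p 2 hp (by omega) (fun i => range (m i.castSucc)) D f hgood
    · intro e
      exact (hfP e).trans_le (hxr.trans (Nat.pow_le_pow_left hxp.le 2))
    · intro i
      rfl
    · intro y hy
      rw [mem_range] at hy
      have h2 : (m (Fin.last t)) ^ (2 * K) ≤ (x ^ 2) ^ (2 * K) := by
        calc (m (Fin.last t)) ^ (2 * K) ≤ N ^ 2 := hm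
          _ ≤ (P ^ K) ^ 2 := Nat.pow_le_pow_left hNP 2
          _ ≤ ((x ^ 2) ^ K) ^ 2 := Nat.pow_le_pow_left (Nat.pow_le_pow_left hxr _) 2
          _ = (x ^ 2) ^ (2 * K) := by
              rw [← pow_mul (x ^ 2) K 2]
              congr 1
              ring
      have h3 : m (Fin.last t) ≤ x ^ 2 :=
        (Nat.pow_le_pow_iff_left (by positivity)).mp h2
      calc y < m (Fin.last t) := hy
        _ ≤ x ^ 2 := h3
        _ ≤ p ^ 2 := Nat.pow_le_pow_left hxp.le 2

/-- iterating the step `k` times -/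
theorem iter (N : ℕ) : ∀ (k : ℕ) (m : Fin (3 + k) → ℕ) (P : ℕ) (D : (Fin 3 → ℕ) → Prop)
    (f : (Fin 3 → ℕ) → ℕ), 1 ≤ P → (∀ e, f e < P) → N ≤ P ^ 4 →
    GoodOn 2 (fun i => range (m (Fin.castAdd k i))) D f →
    (∀ i : Fin (3 + k), 3 ≤ (i : ℕ) → (m i) ^ (2 ^ (i : ℕ)) ≤ N ^ 2) →
    ∃ (p : ℕ) (f' : (Fin (3 + k) → ℕ) → ℕ), 1 ≤ p ∧ (∀ e, f' e < p) ∧
      p ^ (2 ^ k) * 16 ≤ 16 ^ (2 ^ k) * P ∧ N ≤ p ^ (4 * 2 ^ k) ∧
      GoodOn 2 (fun i => range (m i)) (fun e => D (fun i => e (Fin.castAdd k i))) f' := by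
  intro k
  induction k with
  | zero =>
    intro m P D f hP hfP hNP hgood _
    exact ⟨P, f, hP, hfP, by simp [mul_comm], by simpa using hNP, hgood⟩
  | succ k ih =>
    intro m P D f hP hfP hNP hgood hm
    obtain ⟨p, f', hp, hf', hpP, hNp, hg⟩ := ih (fun i => m i.castSucc) P D f hP hfP hNP hgood
      (fun i hi => by simpa using hm i.castSucc (by simpa using hi))
    have hlast := hm (Fin.last (3 + k)) (by simp)
    obtain ⟨p', f'', hp', hf'', hNp', hpp', hg'⟩ := step (t := 3 + k) N p m _ f' hp hf' (4 * 2 ^ k)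
      (by positivity) hNp hg (by
        have e : 2 * (4 * 2 ^ k) = 2 ^ (3 + k) := by rw [pow_add]; ring
        rw [e]
        simpa using hlast)
    refine ⟨p', f'', hp', hf'', ?_, ?_, hg'⟩
    · have h1 : p' ^ (2 ^ (k + 1)) ≤ (16 * p) ^ (2 ^ k) := by
        calc p' ^ (2 ^ (k + 1)) = (p' ^ 2) ^ (2 ^ k) := by rw [← pow_mul, pow_succ' 2 k]
          _ ≤ (16 * p) ^ (2 ^ k) := Nat.pow_le_pow_left hpp' _
      calc p' ^ (2 ^ (k + 1)) * 16 ≤ (16 * p) ^ (2 ^ k) * 16 := Nat.mul_le_mul_right _ h1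
        _ = 16 ^ (2 ^ k) * (p ^ (2 ^ k) * 16) := by rw [mul_pow]; ring
        _ ≤ 16 ^ (2 ^ k) * (16 ^ (2 ^ k) * P) := Nat.mul_le_mul_left _ hpP
        _ = 16 ^ (2 ^ (k + 1)) * P := by rw [pow_succ 2 k, pow_mul]; ring
    · have e : 4 * 2 ^ (k + 1) = 2 * (4 * 2 ^ k) := by rw [pow_succ]; ring
      rw [e]
      exact hNp'

end Pool.Agent.Lib.MP_f6ab77_co
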