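import Mathlib
import Pool.Agent.Lib.MP_f6ab77_co.Upper
import Pool.Agent.Lib.MP_f6ab77_co.Graph433
import Pool.Agent.Lib.MP_f6ab77_co.Step433

set_option autoImplicit false

namespace Pool.Agent.Lib.MP_f6ab77_co

open Finset

/-- a triple of vertices -/
def mk3 {n : Fin 3 → ℕ} (x : Fin (n 0)) (y : Fin (n 1)) (z : Fin (n 2)) : ∀ i : Fin 3, Fin (n i) :=
  Fin.cons (α := fun i : Fin 3 => Fin (n i)) x
    (Fin.cons (α := fun i : Fin 2 => Fin (n i.succ)) y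
      (Fin.cons (α := fun i : Fin 1 => Fin (n i.succ.succ)) z (fun i => i.elim0)))

theorem mk3_zero {n : Fin 3 → ℕ} (x : Fin (n 0)) (y : Fin (n 1)) (z : Fin (n 2)) :
    mk3 x y z 0 = x := rfl
theorem mk3_one {n : Fin 3 → ℕ} (x : Fin (n 0)) (y : Fin (n 1)) (z : Fin (n 2)) :
    mk3 x y z 1 = y := rfl
theorem mk3_two {n : Fin 3 → ℕ} (x : Fin (n 0)) (y : Fin (n 1)) (z : Fin (n 2)) :
    mk3 x y z 2 = z := rfl

theorem exists_nu (F : Type*) [Field F] [Finite F] :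
    ∃ ν : F, ∀ p q : F, p ^ 2 - p * q - ν * q ^ 2 = 0 → p = 0 ∧ q = 0 := by
  have hns : ¬ Function.Surjective (fun x : F => x ^ 2 - x) := by
    intro h
    have hi := Finite.injective_iff_surjective.mpr h
    have : (0 : F) = 1 := hi (by simp)
    exact zero_ne_one this
  unfold Function.Surjective at hns
  push Not at hns
  obtain ⟨ν, hν⟩ := hns
  refine ⟨ν, fun p q h => ?_⟩
  have hq : q = 0 := by
    by_contra hq
    apply hν (p / q)
    field_simp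
    linear_combination h
  subst hq
  refine ⟨?_, rfl⟩
  have : p ^ 2 = 0 := by linear_combination h
  exact pow_eq_zero_iff (two_ne_zero) |>.mp this

theorem exists_prime4 (N : ℕ) (hN : 1 ≤ N) : ∃ p : ℕ, p.Prime ∧ N ≤ p ^ 4 ∧ p ^ 4 ≤ 256 * N := by
  have hex : ∃ k : ℕ, N ≤ k ^ 4 := ⟨N, Nat.le_self_pow (by norm_num) N⟩
  classical
  set k := Nat.find hex with hk
  have h1 : N ≤ k ^ 4 := Nat.find_spec hex
  have hk0 : k ≠ 0 := by
    intro h
    rw [h] at h1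
    simp at h1
    omega
  have h2 : (k - 1) ^ 4 < N := by
    have := Nat.find_min hex (m := k - 1) (by omega)
    omega
  obtain ⟨p, hp, hlt, hle⟩ := Nat.exists_prime_lt_and_le_two_mul k hk0
  refine ⟨p, hp, h1.trans (Nat.pow_le_pow_left hlt.le 4), ?_⟩
  have h3 : k ^ 4 ≤ 16 * N := by
    rcases Nat.eq_or_lt_of_le (Nat.one_le_iff_ne_zero.mpr hk0) with h | h
    · rw [← h]; omega
    · have h4 : k ≤ 2 * (k - 1) := by omega
      calc k ^ 4 ≤ (2 * (k - 1)) ^ 4 := Nat.pow_le_pow_left h4 4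
        _ = 16 * (k - 1) ^ 4 := by ring
        _ ≤ 16 * N := Nat.mul_le_mul_left _ h2.le
  calc p ^ 4 ≤ (2 * k) ^ 4 := Nat.pow_le_pow_left hle 4
    _ = 16 * k ^ 4 := by ring
    _ ≤ 16 * (16 * N) := Nat.mul_le_mul_left _ h3
    _ = 256 * N := by ring

/-- the first three parts -/
theorem base433 (n : Fin 3 → ℕ) (h0 : 1 ≤ n 0) (h3 : (n 1) ^ 4 ≤ (n 0) ^ 3)
    (h4 : (n 2) ^ 4 ≤ (n 0) ^ 3) :
    ∃ (P : ℕ) (D : (Fin 3 → ℕ) → Prop) (f : (Fin 3 → ℕ) → ℕ), 1 ≤ P ∧ (∀ e, f e < P) ∧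
      n 0 ≤ P ^ 4 ∧ P ^ 4 ≤ 256 * n 0 ∧ GoodOn 2 (fun i => range (n i)) D f ∧
      ∃ T : Finset (∀ i : Fin 3, Fin (n i)), (∀ g ∈ T, D (fun i => (g i : ℕ))) ∧
        n 0 * n 1 * n 2 ≤ 16 * T.card := by
  classical
  obtain ⟨p, hp, hp1, hp2⟩ := exists_prime4 (n 0) h0
  have : Fact p.Prime := ⟨hp⟩
  obtain ⟨ν, hν⟩ := exists_nu (ZMod p)
  have hroot : ∀ k : ℕ, k ^ 4 ≤ (n 0) ^ 3 → k ≤ p ^ 3 := by
    intro k hk
    have : k ^ 4 ≤ (p ^ 3) ^ 4 := by
      calc k ^ 4 ≤ (n 0) ^ 3 := hk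
        _ ≤ (p ^ 4) ^ 3 := Nat.pow_le_pow_left hp1 3
        _ = (p ^ 3) ^ 4 := by ring
    exact (Nat.pow_le_pow_iff_left (by norm_num)).mp this
  obtain ⟨A, B, C, hA, hB, hC, hcount⟩ := exists_sub ν (ZMod.card p) (n 0) (n 1) (n 2) hp1
    (hroot _ h3) (hroot _ h4)
  let eA : A ≃ Fin (n 0) := A.equivFinOfCardEq hA
  let eB : B ≃ Fin (n 1) := B.equivFinOfCardEq hB
  let eC : C ≃ Fin (n 2) := C.equivFinOfCardEq hC
  let X : ℕ → (Fin 4 → ZMod p) := fun a => if h : a < n 0 then (eA.symm ⟨a, h⟩ : A).1 else 0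
  let Y : ℕ → (Fin 3 → ZMod p) := fun a => if h : a < n 1 then (eB.symm ⟨a, h⟩ : B).1 else 0
  let Z : ℕ → (Fin 3 → ZMod p) := fun a => if h : a < n 2 then (eC.symm ⟨a, h⟩ : C).1 else 0
  have hX : ∀ a b, a < n 0 → b < n 0 → X a = X b → a = b := by
    intro a b ha hb h
    simp only [X, dif_pos ha, dif_pos hb] at h
    have := eA.symm.injective (Subtype.ext h)
    exact congrArg Fin.val this
  have hY : ∀ a b, a < n 1 → b < n 1 → Y a = Y b → a = b := by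
    intro a b ha hb h
    simp only [Y, dif_pos ha, dif_pos hb] at h
    have := eB.symm.injective (Subtype.ext h)
    exact congrArg Fin.val this
  have hZ : ∀ a b, a < n 2 → b < n 2 → Z a = Z b → a = b := by
    intro a b ha hb h
    simp only [Z, dif_pos ha, dif_pos hb] at h
    have := eC.symm.injective (Subtype.ext h)
    exact congrArg Fin.val this
  refine ⟨p, fun e => Dom ν (X (e 0)) (Y (e 1)) (Z (e 2)),
    fun e => (tri ν (X (e 0)) (Y (e 1)) (Z (e 2))).val, hp.one_lt.le,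
    fun e => ZMod.val_lt _, hp1, hp2, ?_, ?_⟩
  · intro z S hS hcard hD
    by_contra hcon
    push Not at hcon
    have hpair : ∀ i, ∃ a b : ℕ, a ≠ b ∧ a ∈ S i ∧ b ∈ S i := by
      intro i
      obtain ⟨a, b, hab, hSi⟩ := Finset.card_eq_two.mp (hcard i)
      exact ⟨a, b, hab, by rw [hSi]; simp, by rw [hSi]; simp⟩
    obtain ⟨a0, b0, hab0, ha0, hb0⟩ := hpair 0
    obtain ⟨a1, b1, hab1, ha1, hb1⟩ := hpair 1
    obtain ⟨a2, b2, hab2, ha2, hb2⟩ := hpair 2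
    have hmem : ∀ x y w : ℕ, x ∈ S 0 → y ∈ S 1 → w ∈ S 2 → ∀ i, (![x, y, w] : Fin 3 → ℕ) i ∈ S i := by
      intro x y w hx hy hw i
      fin_cases i
      · exact hx
      · exact hy
      · exact hw
    have hval : ∀ x y w : ℕ, x ∈ S 0 → y ∈ S 1 → w ∈ S 2 →
        tri ν (X x) (Y y) (Z w) = (z : ZMod p) := by
      intro x y w hx hy hw
      have h1 : (tri ν (X x) (Y y) (Z w)).val = z := hcon ![x, y, w] (hmem x y w hx hy hw)
      rw [← h1, ZMod.natCast_val, ZMod.cast_id', id]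
    have hdom : Dom ν (X a0) (Y a1) (Z a2) := hD ![a0, a1, a2] (hmem _ _ _ ha0 ha1 ha2)
    have r0 : ∀ a ∈ S 0, a < n 0 := fun a ha => mem_range.mp (hS 0 ha)
    have r1 : ∀ a ∈ S 1, a < n 1 := fun a ha => mem_range.mp (hS 1 ha)
    have r2 : ∀ a ∈ S 2, a < n 2 := fun a ha => mem_range.mp (hS 2 ha)
    exact no_box ν hν (z : ZMod p) (X a0) (X b0) (Y a1) (Y b1) (Z a2) (Z b2)
      (fun h => hab0 (hX _ _ (r0 _ ha0) (r0 _ hb0) h))
      (fun h => hab1 (hY _ _ (r1 _ ha1) (r1 _ hb1) h))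
      (fun h => hab2 (hZ _ _ (r2 _ ha2) (r2 _ hb2) h)) hdom
      (hval _ _ _ ha0 ha1 ha2) (hval _ _ _ hb0 ha1 ha2) (hval _ _ _ ha0 hb1 ha2)
      (hval _ _ _ ha0 ha1 hb2) (hval _ _ _ hb0 hb1 ha2) (hval _ _ _ hb0 ha1 hb2)
      (hval _ _ _ ha0 hb1 hb2) (hval _ _ _ hb0 hb1 hb2)
  · let T : Finset (∀ i : Fin 3, Fin (n i)) :=
      univ.filter (fun g => Dom ν (X (g 0 : ℕ)) (Y (g 1 : ℕ)) (Z (g 2 : ℕ)))
    refine ⟨T, fun g hg => (mem_filter.mp hg).2, ?_⟩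
    have hcnt : cnt ν A B C = ((A ×ˢ (B ×ˢ C)).filter (fun p => Dom ν p.1 p.2.1 p.2.2)).card := by
      unfold cnt
      rw [card_filter, sum_product]
      apply sum_congr rfl
      intro x _
      rw [sum_product]
    have hXe : ∀ (x : Fin 4 → ZMod p) (hx : x ∈ A), X ((eA ⟨x, hx⟩ : Fin (n 0)) : ℕ) = x := by
      intro x hx
      simp only [X, dif_pos (eA ⟨x, hx⟩).isLt, Fin.eta, Equiv.symm_apply_apply]
    have hYe : ∀ (x : Fin 3 → ZMod p) (hx : x ∈ B), Y ((eB ⟨x, hx⟩ : Fin (n 1)) : ℕ) = x := by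
      intro x hx
      simp only [Y, dif_pos (eB ⟨x, hx⟩).isLt, Fin.eta, Equiv.symm_apply_apply]
    have hZe : ∀ (x : Fin 3 → ZMod p) (hx : x ∈ C), Z ((eC ⟨x, hx⟩ : Fin (n 2)) : ℕ) = x := by
      intro x hx
      simp only [Z, dif_pos (eC ⟨x, hx⟩).isLt, Fin.eta, Equiv.symm_apply_apply]
    have hle : cnt ν A B C ≤ T.card := by
      rw [hcnt]
      refine le_trans (card_le_card (t := T.image
        (fun g => (X (g 0 : ℕ), Y (g 1 : ℕ), Z (g 2 : ℕ)))) ?_) card_image_le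
      rintro ⟨x, y, z⟩ h
      rw [mem_filter, mem_product, mem_product] at h
      obtain ⟨⟨hx, hy, hz⟩, hE⟩ := h
      simp only at hx hy hz hE
      rw [mem_image]
      refine ⟨mk3 (eA ⟨x, hx⟩) (eB ⟨y, hy⟩) (eC ⟨z, hz⟩), ?_, ?_⟩
      · rw [mem_filter]
        refine ⟨mem_univ _, ?_⟩
        rw [mk3_zero, mk3_one, mk3_two, hXe, hYe, hZe]
        exact hE
      · rw [mk3_zero, mk3_one, mk3_two, hXe, hYe, hZe]
    have hp2' : 2 ≤ p := hp.two_le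
    have hq : p ^ 10 ≤ 16 * (p ^ 6 * (p - 1) ^ 4) := by
      have h1 : p ≤ 2 * (p - 1) := by omega
      calc p ^ 10 = p ^ 6 * p ^ 4 := by ring
        _ ≤ p ^ 6 * (2 * (p - 1)) ^ 4 := Nat.mul_le_mul_left _ (Nat.pow_le_pow_left h1 4)
        _ = 16 * (p ^ 6 * (p - 1) ^ 4) := by ring
    have h1 : p ^ 10 * (n 0 * n 1 * n 2) ≤ p ^ 10 * (16 * T.card) := by
      calc p ^ 10 * (n 0 * n 1 * n 2) ≤ 16 * (p ^ 6 * (p - 1) ^ 4) * (n 0 * n 1 * n 2) :=
            Nat.mul_le_mul_right _ hq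
        _ = 16 * (n 0 * n 1 * n 2 * (p ^ 6 * (p - 1) ^ 4)) := by ring
        _ ≤ 16 * (p ^ 10 * cnt ν A B C) := Nat.mul_le_mul_left _ hcount
        _ ≤ 16 * (p ^ 10 * T.card) := Nat.mul_le_mul_left _ (Nat.mul_le_mul_left _ hle)
        _ = p ^ 10 * (16 * T.card) := by ring
    exact Nat.le_of_mul_le_mul_left h1 (pow_pos hp.pos 10)

theorem lower433 (k : ℕ) (m : Fin (3 + k) → ℕ) (hm1 : ∀ i, 1 ≤ m i)
    (h1 : (m (Fin.castAdd k 1)) ^ 4 ≤ (m (Fin.castAdd k 0)) ^ 3)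
    (h2 : (m (Fin.castAdd k 2)) ^ 4 ≤ (m (Fin.castAdd k 0)) ^ 3)
    (hm : ∀ i : Fin (3 + k), 3 ≤ (i : ℕ) → (m i) ^ (2 ^ (i : ℕ)) ≤ (m (Fin.castAdd k 0)) ^ 2) :
    ∃ H : Finset (Finset (Σ i, Fin (m i))), IsPartite H ∧
      ¬ H.ContainsCompletePartiteHypergraph (3 + k) 2 ∧
      (1 / 256 : ℝ) * (∏ i, (m i : ℝ)) *
        (m (Fin.castAdd k 0) : ℝ) ^ (-(2 : ℝ) ^ (1 - ((3 + k : ℕ) : ℝ))) ≤ (H.card : ℝ) := by
  classical
  set N := m (Fin.castAdd k 0) with hNdef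
  obtain ⟨P, D, f, hP1, hfP, hNP, hPN, hgood, T, hT, hTc⟩ :=
    base433 (fun i => m (Fin.castAdd k i)) (hm1 _) h1 h2
  obtain ⟨p, f', hp, hf', hpP, hNp, hg⟩ := iter N k m P D f hP1 hfP hNP hgood hm
  -- the domain
  set E : Finset (∀ i, Fin (m i)) :=
    univ.filter (fun g => D (fun i => (g (Fin.castAdd k i) : ℕ))) with hE
  have hEc : T.card * ∏ j : Fin k, m (Fin.natAdd 3 j) ≤ E.card := by
    have e1 : (T ×ˢ (univ : Finset (∀ j : Fin k, Fin (m (Fin.natAdd 3 j))))).card =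
        T.card * ∏ j : Fin k, m (Fin.natAdd 3 j) := by
      rw [card_product, card_univ, Fintype.card_pi]
      simp
    rw [← e1]
    refine le_trans (card_le_card (t := E.image
      (fun g => ((fun i => g (Fin.castAdd k i)), (fun j => g (Fin.natAdd 3 j))))) ?_) card_image_le
    rintro ⟨a, b⟩ h
    rw [mem_product] at h
    rw [mem_image]
    refine ⟨Fin.addCases (motive := fun i => Fin (m i)) a b, ?_, ?_⟩
    · rw [hE, mem_filter]
      refine ⟨mem_univ _, ?_⟩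
      simp only [Fin.addCases_left]
      exact hT a h.1
    · simp only [Fin.addCases_left, Fin.addCases_right]
  -- the largest class
  have hsum : ∑ z ∈ range p, (E.filter (fun g => f' (fun i => (g i : ℕ)) = z)).card = E.card := by
    rw [← card_eq_sum_card_fiberwise]
    intro g _
    simp only [coe_range, Set.mem_Iio]
    exact hf' _
  obtain ⟨z, hz, hzc⟩ : ∃ z ∈ range p, E.card ≤ p * (E.filter
      (fun g => f' (fun i => (g i : ℕ)) = z)).card := by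
    by_contra hcon
    push Not at hcon
    have h3 : ∑ z ∈ range p, p * (E.filter (fun g => f' (fun i => (g i : ℕ)) = z)).card <
        ∑ _z ∈ range p, E.card :=
      sum_lt_sum_of_nonempty (by rw [nonempty_range_iff]; omega) (fun z hz => hcon z hz)
    rw [← mul_sum, hsum, sum_const, card_range, smul_eq_mul] at h3
    exact lt_irrefl _ h3
  set Q := E.filter (fun g => f' (fun i => (g i : ℕ)) = z) with hQ
  have hpart : IsPartite (Q.image transversal) := by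
    rw [isPartite_iff]
    intro e he
    obtain ⟨g, _, rfl⟩ := mem_image.mp he
    exact ⟨g, rfl⟩
  refine ⟨Q.image transversal, hpart, ?_, ?_⟩
  · rw [contains_iff (by norm_num) _ hpart]
    rintro ⟨S, hS, hcard, hall⟩
    have hmem : ∀ e : Fin (3 + k) → ℕ, (∀ i, e i ∈ S i) →
        D (fun i => e (Fin.castAdd k i)) ∧ f' e = z := by
      intro e he
      obtain ⟨g, hgQ, hgt⟩ := mem_image.mp (hall (fun i => ⟨e i, mem_range.mp (hS i (he i))⟩) he)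
      rw [transversal_injective hgt, hQ, mem_filter, hE, mem_filter] at hgQ
      exact ⟨hgQ.1.2, hgQ.2⟩
    obtain ⟨e, he, hne⟩ := hg z S hS hcard (fun e he => (hmem e he).1)
    exact hne (hmem e he).2
  · rw [card_image_of_injective _ transversal_injective]
    have hN0 : 1 ≤ N := hm1 _
    have hN : (0 : ℝ) < (N : ℝ) := by exact_mod_cast hN0
    -- `p ≤ 16 N^(1/K)`
    have hK : 0 < 4 * 2 ^ k := by positivity
    have hpK : p ^ (4 * 2 ^ k) ≤ 16 ^ (4 * 2 ^ k) * N := by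
      have e1 : (p ^ (2 ^ k) * 16) ^ 4 ≤ (16 ^ (2 ^ k) * P) ^ 4 := Nat.pow_le_pow_left hpP 4
      have e2 : (p ^ (2 ^ k) * 16) ^ 4 = 65536 * p ^ (4 * 2 ^ k) := by
        rw [mul_pow, ← pow_mul, mul_comm (2 ^ k) 4]; ring
      have e3 : (16 ^ (2 ^ k) * P) ^ 4 = 16 ^ (4 * 2 ^ k) * P ^ 4 := by
        rw [mul_pow, ← pow_mul, mul_comm (2 ^ k) 4]
      rw [e2, e3] at e1
      have e4 : 16 ^ (4 * 2 ^ k) * P ^ 4 ≤ 16 ^ (4 * 2 ^ k) * (256 * N) :=
        Nat.mul_le_mul_left _ hPN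
      have e5 : 16 ^ (4 * 2 ^ k) * (256 * N) = 256 * (16 ^ (4 * 2 ^ k) * N) := by ring
      omega
    have hpR : (p : ℝ) ≤ 16 * (N : ℝ) ^ (((4 * 2 ^ k : ℕ) : ℝ)⁻¹) := by
      apply root_le p N (4 * 2 ^ k) 16 hK (by norm_num)
      exact_mod_cast hpK
    have hexp : (2 : ℝ) ^ (1 - ((3 + k : ℕ) : ℝ)) = (((4 * 2 ^ k : ℕ)) : ℝ)⁻¹ := by
      have := expo 2 (k + 2) le_rfl
      have e1 : ((k + 2 + 1 : ℕ) : ℝ) = ((3 + k : ℕ) : ℝ) := by
        congr 1; omega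
      rw [e1] at this
      have e2 : (2 ^ (k + 2) : ℕ) = 4 * 2 ^ k := by rw [pow_add]; ring
      rw [e2] at this
      exact_mod_cast this
    rw [hexp, Real.rpow_neg hN.le]
    have hx : (0 : ℝ) < (N : ℝ) ^ (((4 * 2 ^ k : ℕ) : ℝ)⁻¹) := Real.rpow_pos_of_pos hN _
    rw [← div_eq_mul_inv, div_le_iff₀ hx]
    have hprod : ∏ i, m i ≤ 16 * (p * Q.card) := by
      rw [Fin.prod_univ_add, Fin.prod_univ_three]
      calc m (Fin.castAdd k 0) * m (Fin.castAdd k 1) * m (Fin.castAdd k 2) *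
            ∏ j : Fin k, m (Fin.natAdd 3 j)
          ≤ 16 * T.card * ∏ j : Fin k, m (Fin.natAdd 3 j) := Nat.mul_le_mul_right _ hTc
        _ = 16 * (T.card * ∏ j : Fin k, m (Fin.natAdd 3 j)) := by ring
        _ ≤ 16 * E.card := Nat.mul_le_mul_left _ hEc
        _ ≤ 16 * (p * Q.card) := Nat.mul_le_mul_left _ hzc
    have hprodR : (∏ i, (m i : ℝ)) ≤ 16 * (p * Q.card) := by exact_mod_cast hprod
    have hQ0 : (0 : ℝ) ≤ (Q.card : ℝ) := Nat.cast_nonneg _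
    nlinarith [mul_le_mul_of_nonneg_right hpR hQ0]

end Pool.Agent.Lib.MP_f6ab77_co
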