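import Mathlib
import Pool.Agent.Lib.MP_f6ab77_co.Final433
import Pool.Agent.Lib.MP_f6ab77_co.ConstLower

set_option autoImplicit false

namespace Pool.Agent.Lib.MP_f6ab77_co

open Finset

/-- the partial colouring of the triples for parts of at most `q^4, q^3, q^3` vertices -/
theorem base433_field (F : Type) [Field F] [Fintype F] (q : ℕ) (hF : Fintype.card F = q)
    (n : Fin 3 → ℕ) (h0 : n 0 ≤ q ^ 4) (h1 : n 1 ≤ q ^ 3) (h2 : n 2 ≤ q ^ 3) :
    ∃ (D : (Fin 3 → ℕ) → Prop) (f : (Fin 3 → ℕ) → ℕ) (c0 : ℕ), c0 < q ∧ (∀ e, f e < q) ∧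
      (∀ e, D e → f e ≠ c0) ∧ GoodOn 2 (fun i => range (n i)) D f ∧
      ∃ T : Finset (∀ i : Fin 3, Fin (n i)), (∀ g ∈ T, D (fun i => (g i : ℕ))) ∧
        n 0 * n 1 * n 2 * (q ^ 6 * (q - 1) ^ 4) ≤ q ^ 10 * T.card := by
  classical
  obtain ⟨ν, hν⟩ := exists_nu F
  obtain ⟨A, B, C, hA, hB, hC, hcount⟩ := exists_sub ν hF (n 0) (n 1) (n 2) h0 h1 h2
  let e : F ≃ Fin q := Fintype.equivFinOfCardEq hF
  let eA : A ≃ Fin (n 0) := A.equivFinOfCardEq hA
  let eB : B ≃ Fin (n 1) := B.equivFinOfCardEq hB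
  let eC : C ≃ Fin (n 2) := C.equivFinOfCardEq hC
  let X : ℕ → (Fin 4 → F) := fun a => if h : a < n 0 then (eA.symm ⟨a, h⟩ : A).1 else 0
  let Y : ℕ → (Fin 3 → F) := fun a => if h : a < n 1 then (eB.symm ⟨a, h⟩ : B).1 else 0
  let Z : ℕ → (Fin 3 → F) := fun a => if h : a < n 2 then (eC.symm ⟨a, h⟩ : C).1 else 0
  have hX : ∀ a b, a < n 0 → b < n 0 → X a = X b → a = b := by
    intro a b ha hb h
    simp only [X, dif_pos ha, dif_pos hb] at h
    have := eA.symm.injective (Subtype.ext h)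
    exact congrArg Fin.val this
  have hY : ∀ a b, a < n 1 → b < n 1 → Y a = Y b → a = b := by
    intro a b ha hb h
    simp only [Y, dif_pos ha, dif_pos hb] at h
    have := eB.symm.injective (Subtype.ext h)
    exact congrArg Fin.val this
  have hZ : ∀ a b, a < n 2 → b < n 2 → Z a = Z b → a = b := by
    intro a b ha hb h
    simp only [Z, dif_pos ha, dif_pos hb] at h
    have := eC.symm.injective (Subtype.ext h)
    exact congrArg Fin.val this
  refine ⟨fun v => Dom ν (X (v 0)) (Y (v 1)) (Z (v 2)),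
    fun v => ((e (tri ν (X (v 0)) (Y (v 1)) (Z (v 2))) : Fin q) : ℕ), ((e 0 : Fin q) : ℕ),
    (e 0).isLt, fun v => (e _).isLt, ?_, ?_, ?_⟩
  · intro v hv h
    exact hv.1 (e.injective (Fin.ext h))
  · intro z S hS hcard hD
    by_contra hcon
    push Not at hcon
    have hpair : ∀ i, ∃ a b : ℕ, a ≠ b ∧ a ∈ S i ∧ b ∈ S i := by
      intro i
      obtain ⟨a, b, hab, hSi⟩ := Finset.card_eq_two.mp (hcard i)
      exact ⟨a, b, hab, by rw [hSi]; simp, by rw [hSi]; simp⟩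
    obtain ⟨a0, b0, hab0, ha0, hb0⟩ := hpair 0
    obtain ⟨a1, b1, hab1, ha1, hb1⟩ := hpair 1
    obtain ⟨a2, b2, hab2, ha2, hb2⟩ := hpair 2
    have hmem : ∀ x y w : ℕ, x ∈ S 0 → y ∈ S 1 → w ∈ S 2 → ∀ i, (![x, y, w] : Fin 3 → ℕ) i ∈ S i := by
      intro x y w hx hy hw i
      fin_cases i
      · exact hx
      · exact hy
      · exact hw
    have hcol : ∀ x y w : ℕ, x ∈ S 0 → y ∈ S 1 → w ∈ S 2 →
        ((e (tri ν (X x) (Y y) (Z w)) : Fin q) : ℕ) = z := by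
      intro x y w hx hy hw
      exact hcon ![x, y, w] (hmem x y w hx hy hw)
    have hval : ∀ x y w : ℕ, x ∈ S 0 → y ∈ S 1 → w ∈ S 2 →
        tri ν (X x) (Y y) (Z w) = tri ν (X a0) (Y a1) (Z a2) := by
      intro x y w hx hy hw
      apply e.injective
      apply Fin.ext
      rw [hcol x y w hx hy hw, hcol a0 a1 a2 ha0 ha1 ha2]
    have hdom : Dom ν (X a0) (Y a1) (Z a2) := hD ![a0, a1, a2] (hmem _ _ _ ha0 ha1 ha2)
    have r0 : ∀ a ∈ S 0, a < n 0 := fun a ha => mem_range.mp (hS 0 ha)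
    have r1 : ∀ a ∈ S 1, a < n 1 := fun a ha => mem_range.mp (hS 1 ha)
    have r2 : ∀ a ∈ S 2, a < n 2 := fun a ha => mem_range.mp (hS 2 ha)
    exact no_box ν hν (tri ν (X a0) (Y a1) (Z a2)) (X a0) (X b0) (Y a1) (Y b1) (Z a2) (Z b2)
      (fun h => hab0 (hX _ _ (r0 _ ha0) (r0 _ hb0) h))
      (fun h => hab1 (hY _ _ (r1 _ ha1) (r1 _ hb1) h))
      (fun h => hab2 (hZ _ _ (r2 _ ha2) (r2 _ hb2) h)) hdom
      rfl (hval _ _ _ hb0 ha1 ha2) (hval _ _ _ ha0 hb1 ha2)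
      (hval _ _ _ ha0 ha1 hb2) (hval _ _ _ hb0 hb1 ha2) (hval _ _ _ hb0 ha1 hb2)
      (hval _ _ _ ha0 hb1 hb2) (hval _ _ _ hb0 hb1 hb2)
  · let T : Finset (∀ i : Fin 3, Fin (n i)) :=
      univ.filter (fun g => Dom ν (X (g 0 : ℕ)) (Y (g 1 : ℕ)) (Z (g 2 : ℕ)))
    refine ⟨T, fun g hg => (mem_filter.mp hg).2, ?_⟩
    have hcnt : cnt ν A B C = ((A ×ˢ (B ×ˢ C)).filter (fun p => Dom ν p.1 p.2.1 p.2.2)).card := by
      unfold cnt
      rw [card_filter, sum_product]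
      apply sum_congr rfl
      intro x _
      rw [sum_product]
    have hXe : ∀ (x : Fin 4 → F) (hx : x ∈ A), X ((eA ⟨x, hx⟩ : Fin (n 0)) : ℕ) = x := by
      intro x hx
      simp only [X, dif_pos (eA ⟨x, hx⟩).isLt, Fin.eta, Equiv.symm_apply_apply]
    have hYe : ∀ (x : Fin 3 → F) (hx : x ∈ B), Y ((eB ⟨x, hx⟩ : Fin (n 1)) : ℕ) = x := by
      intro x hx
      simp only [Y, dif_pos (eB ⟨x, hx⟩).isLt, Fin.eta, Equiv.symm_apply_apply]
    have hZe : ∀ (x : Fin 3 → F) (hx : x ∈ C), Z ((eC ⟨x, hx⟩ : Fin (n 2)) : ℕ) = x := by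
      intro x hx
      simp only [Z, dif_pos (eC ⟨x, hx⟩).isLt, Fin.eta, Equiv.symm_apply_apply]
    have hle : cnt ν A B C ≤ T.card := by
      rw [hcnt]
      refine le_trans (card_le_card (t := T.image
        (fun g => (X (g 0 : ℕ), Y (g 1 : ℕ), Z (g 2 : ℕ)))) ?_) card_image_le
      rintro ⟨x, y, z⟩ h
      rw [mem_filter, mem_product, mem_product] at h
      obtain ⟨⟨hx, hy, hz⟩, hE⟩ := h
      simp only at hx hy hz hE
      rw [mem_image]
      refine ⟨mk3 (eA ⟨x, hx⟩) (eB ⟨y, hy⟩) (eC ⟨z, hz⟩), ?_, ?_⟩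
      · rw [mem_filter]
        refine ⟨mem_univ _, ?_⟩
        rw [mk3_zero, mk3_one, mk3_two, hXe, hYe, hZe]
        exact hE
      · rw [mk3_zero, mk3_one, mk3_two, hXe, hYe, hZe]
    exact hcount.trans (Nat.mul_le_mul_left _ hle)

theorem base433_pp (q : ℕ) (hq : IsPrimePow q)
    (n : Fin 3 → ℕ) (h0 : n 0 ≤ q ^ 4) (h1 : n 1 ≤ q ^ 3) (h2 : n 2 ≤ q ^ 3) :
    ∃ (D : (Fin 3 → ℕ) → Prop) (f : (Fin 3 → ℕ) → ℕ) (c0 : ℕ), c0 < q ∧ (∀ e, f e < q) ∧
      (∀ e, D e → f e ≠ c0) ∧ GoodOn 2 (fun i => range (n i)) D f ∧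
      ∃ T : Finset (∀ i : Fin 3, Fin (n i)), (∀ g ∈ T, D (fun i => (g i : ℕ))) ∧
        n 0 * n 1 * n 2 * (q ^ 6 * (q - 1) ^ 4) ≤ q ^ 10 * T.card := by
  obtain ⟨p, k, hp, hk, hpk⟩ := (isPrimePow_nat_iff q).mp hq
  have : Fact p.Prime := ⟨hp⟩
  let _ : Fintype (GaloisField p k) := Fintype.ofFinite _
  have hF : Fintype.card (GaloisField p k) = q := by
    rw [← Nat.card_eq_fintype_card, GaloisField.card p k (by omega), hpk]
  exact base433_field (GaloisField p k) q hF n h0 h1 h2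

/-- iterating with the fields with `q^(2^j)` elements -/
theorem iter_pp : ∀ (k q : ℕ), IsPrimePow q → ∀ (m : Fin (3 + k) → ℕ) (D : (Fin 3 → ℕ) → Prop)
    (f : (Fin 3 → ℕ) → ℕ), (∀ e, f e < q ^ (2 ^ k)) →
    GoodOn 2 (fun i => range (m (Fin.castAdd k i))) D f →
    (∀ i : Fin (3 + k), 3 ≤ (i : ℕ) → m i ≤ q ^ (2 ^ (3 + k - (i : ℕ)))) →
    ∃ f' : (Fin (3 + k) → ℕ) → ℕ, (∀ e, f' e < q) ∧
      (k = 0 → ∀ e, f' e = f (fun i => e (Fin.castAdd k i))) ∧
      GoodOn 2 (fun i => range (m i)) (fun e => D (fun i => e (Fin.castAdd k i))) f' := by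
  intro k
  induction k with
  | zero =>
    intro q _ m D f hf hgood _
    exact ⟨f, by simpa using hf, fun _ e => rfl, hgood⟩
  | succ k ih =>
    intro q hq m D f hf hgood hm
    obtain ⟨f', hf', _, hg⟩ := ih (q ^ 2) (hq.pow (by norm_num)) (fun i => m i.castSucc) D f (by
      intro e
      rw [← pow_mul, ← pow_succ']
      exact hf e) hgood (by
      intro i hi
      have h := hm i.castSucc (by simpa using hi)
      have hlt := i.isLt
      have e1 : 2 ^ (3 + (k + 1) - ((i.castSucc : Fin (3 + k + 1)) : ℕ)) =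
          2 * 2 ^ (3 + k - (i : ℕ)) := by
        rw [Fin.val_castSucc, show 3 + (k + 1) - (i : ℕ) = 3 + k - (i : ℕ) + 1 by omega, pow_succ]
        ring
      rw [e1, pow_mul] at h
      exact h)
    obtain ⟨nxt, hn1, hn2⟩ := nextr q 2 hq
    refine ⟨fun e => nxt (f' (Fin.init (α := fun _ : Fin (3 + k + 1) => ℕ) e))
      (e (Fin.last (3 + k))), fun e => hn1 _ _, fun h => absurd h (by omega), ?_⟩
    intro z S hS hcard hD
    by_contra hcon
    push Not at hcon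
    have hne : ∀ i : Fin (3 + k + 1), ∃ y, y ∈ S i := by
      intro i
      have : 0 < (S i).card := by rw [hcard]; omega
      exact card_pos.mp this
    choose e1 he1 using hne
    -- on the box of the first coordinates, f' is constant
    have hmem : ∀ e : Fin (3 + k) → ℕ, (∀ i, e i ∈ S i.castSucc) →
        ∀ y ∈ S (Fin.last (3 + k)), ∀ i : Fin (3 + k + 1),
          (Fin.snoc e y : Fin (3 + k + 1) → ℕ) i ∈ S i := by
      intro e he y hy i
      refine Fin.lastCases ?_ (fun j => ?_) i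
      · simpa using hy
      · simpa using he j
    have hval : ∀ e : Fin (3 + k) → ℕ, (∀ i, e i ∈ S i.castSucc) →
        ∀ y ∈ S (Fin.last (3 + k)), nxt (f' e) y = z := by
      intro e he y hy
      have h := hcon (Fin.snoc e y) (hmem e he y hy)
      simp only [Fin.init_snoc] at h
      have h3 : (Fin.snoc e y : Fin (3 + k + 1) → ℕ) (Fin.last (3 + k)) = y := Fin.snoc_last _ _
      exact (congrArg (nxt (f' e)) h3).symm.trans h
    set e0 : Fin (3 + k) → ℕ := fun i => e1 i.castSucc with he0def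
    have he0 : ∀ i, e0 i ∈ S i.castSucc := fun i => he1 i.castSucc
    obtain ⟨e, he, hfe⟩ := hg (f' e0) (fun i => S i.castSucc) (fun i => hS i.castSucc)
      (fun i => hcard _) (by
        intro e he
        have h := hD (Fin.snoc e (e1 (Fin.last (3 + k)))) (hmem e he _ (he1 _))
        have e2 : (fun i : Fin 3 => (Fin.snoc e (e1 (Fin.last (3 + k))) : Fin (3 + k + 1) → ℕ)
            (Fin.castAdd (k + 1) i)) = fun i => e (Fin.castAdd k i) := by
          funext i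
          have : (Fin.castAdd (k + 1) i : Fin (3 + k + 1)) = (Fin.castAdd k i).castSucc := rfl
          rw [this, Fin.snoc_castSucc]
        rw [← e2]
        exact h)
    apply hfe
    have hlast : S (Fin.last (3 + k)) ⊆ range (q ^ 2) := by
      intro x hx
      have h1 := mem_range.mp (hS _ hx)
      have h2 := hm (Fin.last (3 + k)) (by rw [Fin.val_last]; omega)
      have h3 : 3 + (k + 1) - ((Fin.last (3 + k) : Fin (3 + k + 1)) : ℕ) = 1 := by
        rw [Fin.val_last]; omega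
      rw [h3, pow_one] at h2
      exact mem_range.mpr (lt_of_lt_of_le h1 h2)
    exact hn2 (f' e) (f' e0) z (S (Fin.last (3 + k))) (hf' _) (hf' _) hlast (hcard _)
      (hval e he) (hval e0 he0)

theorem lower_all (k q : ℕ) (hq : IsPrimePow q) (m : Fin (3 + k) → ℕ)
    (h0 : m (Fin.castAdd k 0) ≤ (q ^ (2 ^ k)) ^ 4)
    (h1 : m (Fin.castAdd k 1) ≤ (q ^ (2 ^ k)) ^ 3)
    (h2 : m (Fin.castAdd k 2) ≤ (q ^ (2 ^ k)) ^ 3)
    (hm : ∀ i : Fin (3 + k), 3 ≤ (i : ℕ) → m i ≤ q ^ (2 ^ (3 + k - (i : ℕ)))) :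
    ∃ H : Finset (Finset (Σ i, Fin (m i))), IsPartite H ∧
      ¬ H.ContainsCompletePartiteHypergraph (3 + k) 2 ∧
      (1 - 3 / (q : ℝ)) * (∏ i, (m i : ℝ)) ≤ (q : ℝ) * (H.card : ℝ) := by
  classical
  obtain ⟨D, f, c0, hc0, hf, hDf, hgood, T, hT, hTc⟩ := base433_pp (q ^ (2 ^ k))
    (hq.pow (by positivity)) (fun i => m (Fin.castAdd k i)) h0 h1 h2
  obtain ⟨f', hf', hk0, hg⟩ := iter_pp k q hq m D f hf hgood hm
  set Q0 := q ^ (2 ^ k) with hQ0
  -- the domain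
  set E : Finset (∀ i, Fin (m i)) :=
    univ.filter (fun g => D (fun i => (g (Fin.castAdd k i) : ℕ))) with hE
  have hEc : T.card * ∏ j : Fin k, m (Fin.natAdd 3 j) ≤ E.card := by
    have e1 : (T ×ˢ (univ : Finset (∀ j : Fin k, Fin (m (Fin.natAdd 3 j))))).card =
        T.card * ∏ j : Fin k, m (Fin.natAdd 3 j) := by
      rw [card_product, card_univ, Fintype.card_pi]
      simp
    rw [← e1]
    refine le_trans (card_le_card (t := E.image
      (fun g => ((fun i => g (Fin.castAdd k i)), (fun j => g (Fin.natAdd 3 j))))) ?_) card_image_le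
    rintro ⟨a, b⟩ h
    rw [mem_product] at h
    rw [mem_image]
    refine ⟨Fin.addCases (motive := fun i => Fin (m i)) a b, ?_, ?_⟩
    · rw [hE, mem_filter]
      refine ⟨mem_univ _, ?_⟩
      simp only [Fin.addCases_left]
      exact hT a h.1
    · simp only [Fin.addCases_left, Fin.addCases_right]
  -- the number of coloured transversals
  have hprod : (∏ i, m i) * (Q0 ^ 6 * (Q0 - 1) ^ 4) ≤ Q0 ^ 10 * E.card := by
    rw [Fin.prod_univ_add, Fin.prod_univ_three]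
    calc m (Fin.castAdd k 0) * m (Fin.castAdd k 1) * m (Fin.castAdd k 2) *
          (∏ j : Fin k, m (Fin.natAdd 3 j)) * (Q0 ^ 6 * (Q0 - 1) ^ 4)
        = (m (Fin.castAdd k 0) * m (Fin.castAdd k 1) * m (Fin.castAdd k 2) *
            (Q0 ^ 6 * (Q0 - 1) ^ 4)) * ∏ j : Fin k, m (Fin.natAdd 3 j) := by ring
      _ ≤ (Q0 ^ 10 * T.card) * ∏ j : Fin k, m (Fin.natAdd 3 j) := Nat.mul_le_mul_right _ hTc
      _ = Q0 ^ 10 * (T.card * ∏ j : Fin k, m (Fin.natAdd 3 j)) := by ring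
      _ ≤ Q0 ^ 10 * E.card := Nat.mul_le_mul_left _ hEc
  have hq2 : 2 ≤ q := hq.two_le
  have hQpos : 1 ≤ Q0 := Nat.one_le_pow _ _ (by omega)
  have hprod2 : (∏ i, m i) * (Q0 - 1) ^ 4 ≤ Q0 ^ 4 * E.card := by
    have h6 : 0 < Q0 ^ 6 := by positivity
    apply Nat.le_of_mul_le_mul_left _ h6
    calc Q0 ^ 6 * ((∏ i, m i) * (Q0 - 1) ^ 4) = (∏ i, m i) * (Q0 ^ 6 * (Q0 - 1) ^ 4) := by ring
      _ ≤ Q0 ^ 10 * E.card := hprod
      _ = Q0 ^ 6 * (Q0 ^ 4 * E.card) := by ring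
  -- the colours in use
  set C : Finset ℕ := if k = 0 then (range q).erase c0 else range q with hC
  have hCf : ∀ g ∈ E, f' (fun i => (g i : ℕ)) ∈ C := by
    intro g hg
    rw [hE, mem_filter] at hg
    rw [hC]
    split_ifs with h
    · rw [mem_erase, mem_range]
      refine ⟨?_, hf' _⟩
      rw [hk0 h]
      exact hDf _ hg.2
    · exact mem_range.mpr (hf' _)
  have hCne : C.Nonempty := by
    rw [hC]
    split_ifs with h
    · rw [← card_pos, card_erase_of_mem (mem_range.mpr (by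
        rw [hQ0, h, pow_zero, pow_one] at hc0
        exact hc0)), card_range]
      omega
    · exact ⟨0, mem_range.mpr (by omega)⟩
  have hsum : ∑ z ∈ C, (E.filter (fun g => f' (fun i => (g i : ℕ)) = z)).card = E.card := by
    rw [← card_eq_sum_card_fiberwise]
    intro g hg
    exact mem_coe.mpr (hCf g (mem_coe.mp hg))
  obtain ⟨z, hz, hzc⟩ : ∃ z ∈ C, E.card ≤ C.card * (E.filter
      (fun g => f' (fun i => (g i : ℕ)) = z)).card := by
    by_contra hcon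
    push Not at hcon
    have h3 : ∑ z ∈ C, C.card * (E.filter (fun g => f' (fun i => (g i : ℕ)) = z)).card <
        ∑ _z ∈ C, E.card :=
      sum_lt_sum_of_nonempty hCne (fun z hz => hcon z hz)
    rw [← mul_sum, hsum, sum_const, smul_eq_mul] at h3
    exact lt_irrefl _ h3
  set Q := E.filter (fun g => f' (fun i => (g i : ℕ)) = z) with hQ
  have hpart : IsPartite (Q.image transversal) := by
    rw [isPartite_iff]
    intro e he
    obtain ⟨g, _, rfl⟩ := mem_image.mp he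
    exact ⟨g, rfl⟩
  refine ⟨Q.image transversal, hpart, ?_, ?_⟩
  · rw [contains_iff (by norm_num) _ hpart]
    rintro ⟨S, hS, hcard, hall⟩
    have hmem : ∀ e : Fin (3 + k) → ℕ, (∀ i, e i ∈ S i) →
        D (fun i => e (Fin.castAdd k i)) ∧ f' e = z := by
      intro e he
      obtain ⟨g, hgQ, hgt⟩ := mem_image.mp (hall (fun i => ⟨e i, mem_range.mp (hS i (he i))⟩) he)
      rw [transversal_injective hgt, hQ, mem_filter, hE, mem_filter] at hgQ
      exact ⟨hgQ.1.2, hgQ.2⟩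
    obtain ⟨e, he, hne⟩ := hg z S hS hcard (fun e he => (hmem e he).1)
    exact hne (hmem e he).2
  · rw [card_image_of_injective _ transversal_injective]
    have hqR : (2 : ℝ) ≤ q := by exact_mod_cast hq2
    have hq0 : (0 : ℝ) < q := by linarith
    have hW : (0 : ℝ) ≤ ∏ i, (m i : ℝ) := prod_nonneg (fun i _ => Nat.cast_nonneg _)
    set W : ℝ := ∏ i, (m i : ℝ) with hWdef
    have hQR : (0 : ℝ) ≤ (Q.card : ℝ) := Nat.cast_nonneg _
    have hQ0R : (1 : ℝ) ≤ (Q0 : ℝ) := by exact_mod_cast hQpos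
    have hp3 : W * ((Q0 : ℝ) - 1) ^ 4 ≤ (Q0 : ℝ) ^ 4 * E.card := by
      have h3 : (((∏ i, m i) * (Q0 - 1) ^ 4 : ℕ) : ℝ) ≤ ((Q0 ^ 4 * E.card : ℕ) : ℝ) := by
        exact_mod_cast hprod2
      push_cast [Nat.cast_sub hQpos] at h3
      exact h3
    have hzR : (E.card : ℝ) ≤ (C.card : ℝ) * (Q.card : ℝ) := by exact_mod_cast hzc
    by_cases hk : k = 0
    · -- three parts: `q - 1` colours
      have hQq : Q0 = q := by rw [hQ0, hk, pow_zero, pow_one]
      have hCc : C.card = q - 1 := by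
        rw [hC, if_pos hk, card_erase_of_mem (mem_range.mpr (by rw [← hQq]; exact hc0)), card_range]
      have hCR : (C.card : ℝ) = (q : ℝ) - 1 := by
        rw [hCc, Nat.cast_sub (by omega)]; push_cast; rfl
      rw [hCR] at hzR
      have hQqR : (Q0 : ℝ) = q := by rw [hQq]
      rw [hQqR] at hp3
      have hq1 : (0 : ℝ) < (q : ℝ) - 1 := by linarith
      have h4 : W * ((q : ℝ) - 1) ^ 3 ≤ (q : ℝ) ^ 4 * Q.card := by
        have h5 : (((q : ℝ) - 1) * (W * ((q : ℝ) - 1) ^ 3)) ≤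
            ((q : ℝ) - 1) * ((q : ℝ) ^ 4 * Q.card) := by
          calc (((q : ℝ) - 1) * (W * ((q : ℝ) - 1) ^ 3)) = W * ((q : ℝ) - 1) ^ 4 := by ring
            _ ≤ (q : ℝ) ^ 4 * E.card := hp3
            _ ≤ (q : ℝ) ^ 4 * (((q : ℝ) - 1) * Q.card) :=
                mul_le_mul_of_nonneg_left hzR (by positivity)
            _ = _ := by ring
        exact le_of_mul_le_mul_left h5 hq1
      have h5 : (1 - 3 / (q : ℝ)) * (q : ℝ) ^ 3 ≤ ((q : ℝ) - 1) ^ 3 := by
        have : (1 - 3 / (q : ℝ)) * (q : ℝ) ^ 3 = (q : ℝ) ^ 3 - 3 * (q : ℝ) ^ 2 := by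
          field_simp
        rw [this]
        nlinarith
      have h6 : (q : ℝ) ^ 3 * ((1 - 3 / (q : ℝ)) * W) ≤ (q : ℝ) ^ 3 * (q * Q.card) := by
        calc (q : ℝ) ^ 3 * ((1 - 3 / (q : ℝ)) * W) = W * ((1 - 3 / (q : ℝ)) * (q : ℝ) ^ 3) := by ring
          _ ≤ W * ((q : ℝ) - 1) ^ 3 := mul_le_mul_of_nonneg_left h5 hW
          _ ≤ (q : ℝ) ^ 4 * Q.card := h4
          _ = _ := by ring
      exact le_of_mul_le_mul_left h6 (by positivity)
    · -- more parts: `q` colours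
      have hCc : C.card = q := by rw [hC, if_neg hk, card_range]
      rw [hCc] at hzR
      have hQq2 : q ^ 2 ≤ Q0 := by
        rw [hQ0]
        apply Nat.pow_le_pow_right (by omega)
        calc 2 = 2 ^ 1 := by norm_num
          _ ≤ 2 ^ k := Nat.pow_le_pow_right (by norm_num) (by omega)
      have hQqR : (q : ℝ) ^ 2 ≤ Q0 := by exact_mod_cast hQq2
      have hQ0p : (0 : ℝ) < Q0 := by linarith
      have h5 : (1 - 3 / (q : ℝ)) * (Q0 : ℝ) ^ 4 ≤ ((Q0 : ℝ) - 1) ^ 4 := by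
        have h7 : 1 - 3 / (q : ℝ) ≤ 1 - 4 / (Q0 : ℝ) := by
          have : 4 / (Q0 : ℝ) ≤ 3 / (q : ℝ) := by
            rw [div_le_div_iff₀ hQ0p hq0]
            nlinarith
          linarith
        calc (1 - 3 / (q : ℝ)) * (Q0 : ℝ) ^ 4 ≤ (1 - 4 / (Q0 : ℝ)) * (Q0 : ℝ) ^ 4 :=
              mul_le_mul_of_nonneg_right h7 (by positivity)
          _ = (Q0 : ℝ) ^ 4 - 4 * (Q0 : ℝ) ^ 3 := by field_simp
          _ ≤ ((Q0 : ℝ) - 1) ^ 4 := by nlinarith
      have h6 : (Q0 : ℝ) ^ 4 * ((1 - 3 / (q : ℝ)) * W) ≤ (Q0 : ℝ) ^ 4 * (q * Q.card) := by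
        calc (Q0 : ℝ) ^ 4 * ((1 - 3 / (q : ℝ)) * W) = W * ((1 - 3 / (q : ℝ)) * (Q0 : ℝ) ^ 4) := by
              ring
          _ ≤ W * ((Q0 : ℝ) - 1) ^ 4 := mul_le_mul_of_nonneg_left h5 hW
          _ ≤ (Q0 : ℝ) ^ 4 * E.card := hp3
          _ ≤ (Q0 : ℝ) ^ 4 * (q * Q.card) := mul_le_mul_of_nonneg_left hzR (by positivity)
      exact le_of_mul_le_mul_left h6 (by positivity)

end Pool.Agent.Lib.MP_f6ab77_co
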