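import Mathlib
import Pool.Agent.Lib.MP_f6ab77_co.Upper

set_option autoImplicit false

namespace Pool.Agent.Lib.MP_f6ab77_co

open Finset

theorem const_upper_base (r : ℕ) (_ : 2 ≤ r) (x : ℝ) (hx : 0 < x) (m : Fin 1 → ℕ)
    (hm : ((r : ℝ) - 1) * x ≤ m 0) (E : Finset (Fin 1 → ℕ)) (hE : E ⊆ box m)
    (hfree : BoxFree r m E) : x * (E.card : ℝ) ≤ ∏ i, (m i : ℝ) := by
  have hlt : E.card < r := by
    by_contra hcon
    push Not at hcon
    have hinj : Set.InjOn (fun e : Fin 1 → ℕ => e 0) E := by
      intro e _ e' _ h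
      funext i
      rw [Subsingleton.elim i 0]
      exact h
    have hcard : r ≤ (E.image (fun e => e 0)).card := by
      rw [card_image_of_injOn hinj]; omega
    obtain ⟨S0, hS0, hS0c⟩ := exists_subset_card_eq hcard
    obtain ⟨e, he, hne⟩ := hfree (fun _ => S0) (by
      intro i y hy
      obtain ⟨e, he, rfl⟩ := mem_image.mp (hS0 hy)
      rw [mem_range, Subsingleton.elim i 0]
      exact (mem_box m e).mp (hE he) 0) (fun _ => hS0c)
    obtain ⟨e', he', h⟩ := mem_image.mp (hS0 (he 0))
    apply hne
    have : e' = e := by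
      funext i
      rw [Subsingleton.elim i 0]
      exact h
    rw [← this]
    exact he'
  have h1 : (E.card : ℝ) ≤ (r : ℝ) - 1 := by
    have : E.card + 1 ≤ r := hlt
    have h2 : ((E.card + 1 : ℕ) : ℝ) ≤ (r : ℝ) := by exact_mod_cast this
    push_cast at h2
    linarith
  rw [Fin.prod_univ_one]
  calc x * (E.card : ℝ) ≤ x * ((r : ℝ) - 1) := mul_le_mul_of_nonneg_left h1 hx.le
    _ = ((r : ℝ) - 1) * x := by ring
    _ ≤ _ := hm

theorem const_upper (r : ℕ) (hr : 2 ≤ r) : ∀ (s : ℕ) (x : ℝ) (m : Fin (s + 1) → ℕ), 0 < x →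
    ((r : ℝ) - 1) * x ^ (r ^ s) ≤ m 0 → (∀ i, 1 ≤ m i) →
    ∀ E : Finset (Fin (s + 1) → ℕ), E ⊆ box m → BoxFree r m E →
      x * (E.card : ℝ) ≤ (∏ i, (m i : ℝ)) *
        (1 + ((r : ℝ) - 1) * ∑ i : Fin s, x ^ (r ^ (s - 1 - (i : ℕ))) / (m i.succ : ℝ)) := by
  intro s
  have hrR : (1 : ℝ) ≤ (r : ℝ) - 1 := by
    have : (2 : ℝ) ≤ r := by exact_mod_cast hr
    linarith
  induction s with
  | zero =>
    intro x m hx hm _ E hE hfree
    rw [pow_zero, pow_one] at hm
    have := const_upper_base r hr x hx m hm E hE hfree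
    simpa using this
  | succ s ih =>
    intro x m hx hm hm1 E hE hfree
    classical
    set m' : Fin (s + 1) → ℕ := fun i => m i.castSucc with hm'
    set L := m (Fin.last (s + 1)) with hL
    set D : (Fin (s + 1) → ℕ) → Finset ℕ :=
      fun e => (range L).filter (fun x => (Fin.snoc e x : Fin (s + 2) → ℕ) ∈ E) with hD
    -- counting E by fibres
    have hEcard : E.card = ∑ e ∈ box m', (D e).card := by
      rw [card_eq_sum_card_fiberwise (f := fun e' : Fin (s + 2) → ℕ => (Fin.init e' : Fin (s + 1) → ℕ))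
        (t := box m')]
      · apply sum_congr rfl
        intro e _
        symm
        apply card_bij (fun x _ => (Fin.snoc e x : Fin (s + 2) → ℕ))
        · intro x hx
          rw [mem_filter] at hx ⊢
          exact ⟨hx.2, Fin.init_snoc _ _⟩
        · intro x _ y _ h
          have := congrFun h (Fin.last (s + 1))
          simpa using this
        · intro e' he'
          rw [mem_filter] at he'
          refine ⟨e' (Fin.last (s + 1)), ?_, ?_⟩
          · rw [mem_filter, mem_range]
            refine ⟨(mem_box m e').mp (hE he'.1) _, ?_⟩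
            rw [← he'.2, Fin.snoc_init_self]
            exact he'.1
          · rw [← he'.2, Fin.snoc_init_self]
      · intro e' he'
        simp only [Finset.mem_coe] at he' ⊢
        rw [mem_box]
        intro i
        exact (mem_box m e').mp (hE he') i.castSucc
    set M : ℝ := ∏ i, (m' i : ℝ) with hM
    have hMpos : 0 < M := by
      rw [hM]
      apply prod_pos
      intro i _
      have := hm1 i.castSucc
      exact_mod_cast this
    have hLpos : (0 : ℝ) < L := by
      have := hm1 (Fin.last (s + 1))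
      exact_mod_cast this
    set P : ℝ := 1 + ((r : ℝ) - 1) * ∑ i : Fin s, (x ^ r) ^ (r ^ (s - 1 - (i : ℕ))) / (m' i.succ : ℝ)
      with hP
    have hP1 : 1 ≤ P := by
      have h1 : 0 ≤ ∑ i : Fin s, (x ^ r) ^ (r ^ (s - 1 - (i : ℕ))) / (m' i.succ : ℝ) := by
        apply sum_nonneg
        intro i _
        positivity
      have h2 := mul_nonneg (by linarith : (0 : ℝ) ≤ (r : ℝ) - 1) h1
      linarith
    -- the common links
    have hlink : ∀ R ∈ powersetCard r (range L),
        x ^ r * ((((box m').filter (fun e => R ⊆ D e)).card : ℕ) : ℝ) ≤ M * P := by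
      intro R hR
      rw [mem_powersetCard] at hR
      apply ih (x ^ r) m' (by positivity) (by
        rw [← pow_mul, ← pow_succ']
        exact hm) (fun i => hm1 _) _ (filter_subset _ _)
      intro S hS hcard
      obtain ⟨e', he', hne⟩ := hfree (Fin.snoc S R) (by
        intro i
        refine Fin.lastCases ?_ (fun j => ?_) i
        · simpa using hR.1
        · simpa using hS j) (by
        intro i
        refine Fin.lastCases ?_ (fun j => ?_) i
        · simpa using hR.2
        · simpa using hcard j)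
      refine ⟨Fin.init e', ?_, ?_⟩
      · intro i
        have := he' i.castSucc
        rw [Fin.snoc_castSucc] at this
        exact this
      · intro hmem
        rw [mem_filter] at hmem
        have h1 : e' (Fin.last (s + 1)) ∈ R := by
          have := he' (Fin.last (s + 1))
          simpa using this
        have h2 := hmem.2 h1
        rw [mem_filter, Fin.snoc_init_self] at h2
        exact hne h2.2
    -- double counting
    have hdc : ∑ e ∈ box m', ((D e).card.choose r) =
        ∑ R ∈ powersetCard r (range L), ((box m').filter (fun e => R ⊆ D e)).card := by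
      have h1 : ∀ e, (D e).card.choose r =
          ((powersetCard r (range L)).filter (fun R => R ⊆ D e)).card := by
        intro e
        rw [← card_powersetCard]
        congr 1
        ext R
        simp only [mem_powersetCard, mem_filter]
        constructor
        · rintro ⟨h1, h2⟩
          exact ⟨⟨h1.trans (filter_subset _ _), h2⟩, h1⟩
        · rintro ⟨⟨_, h2⟩, h3⟩
          exact ⟨h3, h2⟩
      simp_rw [h1, card_filter]
      exact sum_comm
    have hsum1 : x ^ r * (∑ e ∈ box m', ((((D e).card.choose r : ℕ)) : ℝ)) ≤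
        (L.choose r : ℝ) * (M * P) := by
      have h1 : (∑ e ∈ box m', ((((D e).card.choose r : ℕ)) : ℝ)) =
          ∑ R ∈ powersetCard r (range L), ((((box m').filter (fun e => R ⊆ D e)).card : ℕ) : ℝ) := by
        exact_mod_cast hdc
      rw [h1, mul_sum]
      calc ∑ R ∈ powersetCard r (range L),
            x ^ r * ((((box m').filter (fun e => R ⊆ D e)).card : ℕ) : ℝ)
          ≤ ∑ R ∈ powersetCard r (range L), (M * P) := sum_le_sum hlink
        _ = (L.choose r : ℝ) * (M * P) := by
            rw [sum_const, card_powersetCard, card_range, nsmul_eq_mul]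
    -- pass to powers
    have hpow1 : ∀ d : ℕ, (max ((d : ℝ) - ((r : ℝ) - 1)) 0) ^ r ≤
        (r.factorial : ℝ) * (d.choose r : ℝ) := by
      intro d
      have h1 : ((d + 1 - r : ℕ)) ^ r ≤ d.descFactorial r := Nat.pow_sub_le_descFactorial d r
      rw [Nat.descFactorial_eq_factorial_mul_choose] at h1
      have h2 : (((d + 1 - r : ℕ)) : ℝ) ^ r ≤ (r.factorial : ℝ) * (d.choose r : ℝ) := by
        exact_mod_cast h1
      refine le_trans ?_ h2
      apply pow_le_pow_left₀ (le_max_right _ _)
      apply max_le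
      · rcases Nat.lt_or_ge d (r - 1) with h | h
        · have : ((d + 1 : ℕ) : ℝ) ≤ r := by
            have : d + 1 ≤ r := by omega
            exact_mod_cast this
          push_cast at this
          have h3 : (0 : ℝ) ≤ ((d + 1 - r : ℕ) : ℝ) := Nat.cast_nonneg _
          linarith
        · rw [Nat.cast_sub (by omega)]
          push_cast
          linarith
      · exact Nat.cast_nonneg _
    have hpow2 : (r.factorial : ℝ) * (L.choose r : ℝ) ≤ (L : ℝ) ^ r := by
      have h1 := Nat.descFactorial_le_pow L r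
      rw [Nat.descFactorial_eq_factorial_mul_choose] at h1
      exact_mod_cast h1
    have hMP : 0 ≤ M * P := by positivity
    have hsum2 : x ^ r * ∑ e ∈ box m', (max (((D e).card : ℝ) - ((r : ℝ) - 1)) 0) ^ r ≤
        (L : ℝ) ^ r * (M * P) := by
      calc x ^ r * ∑ e ∈ box m', (max (((D e).card : ℝ) - ((r : ℝ) - 1)) 0) ^ r
          ≤ x ^ r * ∑ e ∈ box m', (r.factorial : ℝ) * ((D e).card.choose r : ℝ) :=
            mul_le_mul_of_nonneg_left (sum_le_sum (fun e _ => hpow1 _)) (by positivity)
        _ = (r.factorial : ℝ) * (x ^ r * ∑ e ∈ box m', ((D e).card.choose r : ℝ)) := by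
            rw [← mul_sum]; ring
        _ ≤ (r.factorial : ℝ) * ((L.choose r : ℝ) * (M * P)) :=
            mul_le_mul_of_nonneg_left hsum1 (Nat.cast_nonneg _)
        _ = ((r.factorial : ℝ) * (L.choose r : ℝ)) * (M * P) := by ring
        _ ≤ (L : ℝ) ^ r * (M * P) := mul_le_mul_of_nonneg_right hpow2 hMP
    have hMcard : ((box m').card : ℝ) = M := by
      rw [card_box, hM]; push_cast; rfl
    set T : ℝ := ∑ e ∈ box m', max (((D e).card : ℝ) - ((r : ℝ) - 1)) 0 with hT
    have hT0 : 0 ≤ T := sum_nonneg (fun e _ => le_max_right _ _)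
    have hTE : (E.card : ℝ) - ((r : ℝ) - 1) * M ≤ T := by
      calc (E.card : ℝ) - ((r : ℝ) - 1) * M = ∑ e ∈ box m', (((D e).card : ℝ) - ((r : ℝ) - 1)) := by
            rw [sum_sub_distrib, sum_const, nsmul_eq_mul, hMcard, hEcard]
            push_cast
            ring
        _ ≤ _ := sum_le_sum (fun e _ => le_max_left _ _)
    have hj := pow_sum_div_card_le_sum_pow (s := box m')
      (f := fun e => max (((D e).card : ℝ) - ((r : ℝ) - 1)) 0)
      (fun e _ => le_max_right _ _) (r - 1)
    rw [Nat.sub_add_cancel (by omega : 1 ≤ r), hMcard, ← hT, div_le_iff₀ (by positivity)] at hj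
    have hmain : (x * T) ^ r ≤ (M * L * P) ^ r := by
      calc (x * T) ^ r = x ^ r * T ^ r := mul_pow _ _ _
        _ ≤ x ^ r * ((∑ e ∈ box m', (max (((D e).card : ℝ) - ((r : ℝ) - 1)) 0) ^ r) * M ^ (r - 1)) :=
            mul_le_mul_of_nonneg_left hj (by positivity)
        _ = (x ^ r * ∑ e ∈ box m', (max (((D e).card : ℝ) - ((r : ℝ) - 1)) 0) ^ r) * M ^ (r - 1) := by
            ring
        _ ≤ ((L : ℝ) ^ r * (M * P)) * M ^ (r - 1) :=
            mul_le_mul_of_nonneg_right hsum2 (by positivity)
        _ = (M * M ^ (r - 1)) * (L : ℝ) ^ r * P := by ring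
        _ = M ^ r * (L : ℝ) ^ r * P := by
            rw [← pow_succ', Nat.sub_add_cancel (by omega : 1 ≤ r)]
        _ ≤ M ^ r * (L : ℝ) ^ r * P ^ r := by
            apply mul_le_mul_of_nonneg_left _ (by positivity)
            exact le_self_pow₀ hP1 (by omega)
        _ = (M * L * P) ^ r := by rw [mul_pow, mul_pow]
    have hfin : x * T ≤ M * L * P := le_of_pow_le_pow_left₀ (by omega) (by positivity) hmain
    have hprod : (∏ i, (m i : ℝ)) = M * L := by
      rw [Fin.prod_univ_castSucc]
    have hsumm : ∑ i : Fin (s + 1), x ^ (r ^ (s + 1 - 1 - (i : ℕ))) / (m i.succ : ℝ) =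
        (∑ i : Fin s, (x ^ r) ^ (r ^ (s - 1 - (i : ℕ))) / (m' i.succ : ℝ)) + x / (L : ℝ) := by
      rw [Fin.sum_univ_castSucc]
      congr 1
      · apply sum_congr rfl
        intro i _
        have hi := i.isLt
        rw [← pow_mul, ← pow_succ']
        have h1 : s + 1 - 1 - ((i.castSucc : Fin (s + 1)) : ℕ) = s - 1 - (i : ℕ) + 1 := by
          rw [Fin.val_castSucc]; omega
        rw [h1]
        rfl
      · have h1 : s + 1 - 1 - ((Fin.last s : Fin (s + 1)) : ℕ) = 0 := by
          rw [Fin.val_last]; omega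
        rw [h1, pow_zero, pow_one]
        rfl
    rw [hprod, hsumm]
    have e1 : M * (L : ℝ) * (1 + ((r : ℝ) - 1) *
        ((∑ i : Fin s, (x ^ r) ^ (r ^ (s - 1 - (i : ℕ))) / (m' i.succ : ℝ)) + x / (L : ℝ))) =
        M * L * P + ((r : ℝ) - 1) * M * x := by
      rw [hP]
      field_simp
      ring
    rw [e1]
    have h5 : x * ((E.card : ℝ) - ((r : ℝ) - 1) * M) ≤ x * T := mul_le_mul_of_nonneg_left hTE hx.le
    linarith

end Pool.Agent.Lib.MP_f6ab77_co
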