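import Mathlib
import Pool.Agent.Lib.MP_f6ab77_co.AllLower

set_option autoImplicit false

namespace Pool.Agent.Lib.MP_f6ab77_co

open Finset

/-- averaging over translations -/
theorem avg_shift {G : Type} [AddCommGroup G] [Fintype G] [DecidableEq G] {β : Type}
    (W : Finset β) (g : β → G) (P : G → Prop) [DecidablePred P] :
    ∃ p : G, W.card * (univ.filter P).card ≤
      Fintype.card G * (W.filter (fun w => P (g w + p))).card := by
  by_contra hcon
  push Not at hcon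
  have h1 : ∑ p : G, (W.filter (fun w => P (g w + p))).card = W.card * (univ.filter P).card := by
    simp_rw [card_filter]
    rw [sum_comm]
    have h2 : ∀ w ∈ W, ∑ p : G, (if P (g w + p) then 1 else 0) = (univ.filter P).card := by
      intro w _
      rw [card_filter]
      exact Fintype.sum_equiv (Equiv.addLeft (g w)) _ _ (fun p => rfl)
    rw [sum_congr rfl h2, sum_const, smul_eq_mul, card_filter]
  have h3 : ∑ p : G, Fintype.card G * (W.filter (fun w => P (g w + p))).card <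
      ∑ _p : G, W.card * (univ.filter P).card :=
    sum_lt_sum_of_nonempty ⟨0, mem_univ _⟩ (fun p _ => hcon p)
  rw [← mul_sum, h1, sum_const, card_univ, smul_eq_mul] at h3
  exact lt_irrefl _ h3

theorem dom_card (F : Type) [Field F] [Fintype F] (ν : F) {q : ℕ} (hq : Fintype.card F = q)
    [DecidablePred (fun p : (Fin 4 → F) × (Fin 3 → F) × (Fin 3 → F) => Dom ν p.1 p.2.1 p.2.2)] :
    q ^ 6 * (q - 1) ^ 4 ≤ ((univ : Finset ((Fin 4 → F) × (Fin 3 → F) × (Fin 3 → F))).filter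
        (fun p => Dom ν p.1 p.2.1 p.2.2)).card := by
  classical
  refine (cnt_univ ν hq).trans (le_of_eq ?_)
  unfold cnt
  rw [card_filter, ← univ_product_univ, sum_product]
  apply sum_congr rfl
  intro x _
  rw [← univ_product_univ, sum_product]
  apply sum_congr rfl
  intro y _
  apply sum_congr rfl
  intro z _
  split_ifs <;> rfl

/-- two new parts at once, with the trilinear form -/
theorem double_field (F : Type) [Field F] [Fintype F] (q : ℕ) (hF : Fintype.card F = q)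
    (t : ℕ) (m : ℕ → ℕ) (hy : m t ≤ q ^ 3) (hz : m (t + 1) ≤ q ^ 3)
    (D : (Fin t → ℕ) → Prop) (f : (Fin t → ℕ) → ℕ) (hf : ∀ e, f e < q ^ 4)
    (hgood : GoodOn 2 (fun i : Fin t => range (m i)) D f)
    (T : Finset (Fin t → ℕ)) (hT : ∀ e ∈ T, (∀ i, e i < m i) ∧ D e) :
    ∃ (D' : (Fin (t + 2) → ℕ) → Prop) (f' : (Fin (t + 2) → ℕ) → ℕ) (c0 : ℕ), c0 < q ∧
      (∀ e, f' e < q) ∧ (∀ e, D' e → f' e ≠ c0) ∧
      GoodOn 2 (fun i : Fin (t + 2) => range (m i)) D' f' ∧
      ∃ T' : Finset (Fin (t + 2) → ℕ), (∀ e ∈ T', (∀ i, e i < m i) ∧ D' e) ∧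
        T.card * (m t * m (t + 1)) * (q ^ 6 * (q - 1) ^ 4) ≤ q ^ 10 * T'.card := by
  classical
  obtain ⟨ν, hν⟩ := exists_nu F
  have hq0 : 0 < q := by rw [← hF]; exact Fintype.card_pos
  have c4 : Fintype.card (Fin 4 → F) = q ^ 4 := by rw [Fintype.card_fun, hF]; simp
  have c3 : Fintype.card (Fin 3 → F) = q ^ 3 := by rw [Fintype.card_fun, hF]; simp
  have h4 : 0 < q ^ 4 := by positivity
  have h3 : 0 < q ^ 3 := by positivity
  let e1 : F ≃ Fin q := Fintype.equivFinOfCardEq hF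
  let e4 : (Fin 4 → F) ≃ Fin (q ^ 4) := Fintype.equivFinOfCardEq c4
  let e3 : (Fin 3 → F) ≃ Fin (q ^ 3) := Fintype.equivFinOfCardEq c3
  let V : ℕ → (Fin 4 → F) := fun n => e4.symm ⟨n % q ^ 4, Nat.mod_lt _ h4⟩
  let Y : ℕ → (Fin 3 → F) := fun n => e3.symm ⟨n % q ^ 3, Nat.mod_lt _ h3⟩
  have hV : ∀ a b, a < q ^ 4 → b < q ^ 4 → V a = V b → a = b := by
    intro a b ha hb h
    have h1 := Fin.val_eq_of_eq (e4.symm.injective h)
    simp only at h1
    rwa [Nat.mod_eq_of_lt ha, Nat.mod_eq_of_lt hb] at h1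
  have hY : ∀ a b, a < q ^ 3 → b < q ^ 3 → Y a = Y b → a = b := by
    intro a b ha hb h
    have h1 := Fin.val_eq_of_eq (e3.symm.injective h)
    simp only at h1
    rwa [Nat.mod_eq_of_lt ha, Nat.mod_eq_of_lt hb] at h1
  -- the translation
  obtain ⟨p, hp⟩ := avg_shift (G := (Fin 4 → F) × (Fin 3 → F) × (Fin 3 → F))
    (T ×ˢ (range (m t) ×ˢ range (m (t + 1))))
    (fun w => (V (f w.1), Y w.2.1, Y w.2.2)) (fun p => Dom ν p.1 p.2.1 p.2.2)
  obtain ⟨a, b, c⟩ := p
  let old : (Fin (t + 2) → ℕ) → (Fin t → ℕ) := fun e i => e i.castSucc.castSucc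
  let yy : (Fin (t + 2) → ℕ) → ℕ := fun e => e (Fin.last t).castSucc
  let zz : (Fin (t + 2) → ℕ) → ℕ := fun e => e (Fin.last (t + 1))
  let D' : (Fin (t + 2) → ℕ) → Prop := fun e =>
    D (old e) ∧ Dom ν (V (f (old e)) + a) (Y (yy e) + b) (Y (zz e) + c)
  let f' : (Fin (t + 2) → ℕ) → ℕ := fun e =>
    ((e1 (tri ν (V (f (old e)) + a) (Y (yy e) + b) (Y (zz e) + c)) : Fin q) : ℕ)
  let mk : (Fin t → ℕ) → ℕ → ℕ → (Fin (t + 2) → ℕ) := fun e y z =>
    Fin.snoc (α := fun _ : Fin (t + 2) => ℕ) (Fin.snoc (α := fun _ : Fin (t + 1) => ℕ) e y) z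
  have mk_old : ∀ e y z, old (mk e y z) = e := by
    intro e y z
    funext i
    simp only [old, mk, Fin.snoc_castSucc]
  have mk_y : ∀ e y z, yy (mk e y z) = y := by
    intro e y z
    simp only [yy, mk, Fin.snoc_castSucc, Fin.snoc_last]
  have mk_z : ∀ e y z, zz (mk e y z) = z := by
    intro e y z
    simp only [zz, mk, Fin.snoc_last]
  have mk_all : ∀ (Q : Fin (t + 2) → ℕ → Prop) e y z, (∀ i : Fin t, Q i.castSucc.castSucc (e i)) →
      Q (Fin.last t).castSucc y → Q (Fin.last (t + 1)) z → ∀ i, Q i (mk e y z i) := by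
    intro Q e y z h1 h2 h3 i
    refine Fin.lastCases ?_ (fun j => ?_) i
    · simpa [mk] using h3
    · refine Fin.lastCases ?_ (fun l => ?_) j
      · simpa [mk] using h2
      · simpa [mk] using h1 l
  refine ⟨D', f', ((e1 0 : Fin q) : ℕ), (e1 0).isLt, fun e => (e1 _).isLt, ?_, ?_, ?_⟩
  · intro e he h
    exact he.2.1 (e1.injective (Fin.ext h))
  · intro z0 S hS hcard hD
    by_contra hcon
    push Not at hcon
    obtain ⟨y1, y2, hyne, hSy⟩ := Finset.card_eq_two.mp (hcard (Fin.last t).castSucc)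
    obtain ⟨z1, z2, hzne, hSz⟩ := Finset.card_eq_two.mp (hcard (Fin.last (t + 1)))
    have my1 : y1 ∈ S (Fin.last t).castSucc := by rw [hSy]; simp
    have my2 : y2 ∈ S (Fin.last t).castSucc := by rw [hSy]; simp
    have mz1 : z1 ∈ S (Fin.last (t + 1)) := by rw [hSz]; simp
    have mz2 : z2 ∈ S (Fin.last (t + 1)) := by rw [hSz]; simp
    have ry : ∀ y ∈ S (Fin.last t).castSucc, y < q ^ 3 := by
      intro y h
      have h1 := mem_range.mp (hS _ h)
      exact lt_of_lt_of_le h1 hy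
    have rz : ∀ z ∈ S (Fin.last (t + 1)), z < q ^ 3 := by
      intro z h
      have h1 := mem_range.mp (hS _ h)
      exact lt_of_lt_of_le h1 hz
    have hmem : ∀ e : Fin t → ℕ, (∀ i : Fin t, e i ∈ S i.castSucc.castSucc) →
        ∀ y ∈ S (Fin.last t).castSucc, ∀ z ∈ S (Fin.last (t + 1)), ∀ i, mk e y z i ∈ S i := by
      intro e he y h1 z h2
      exact mk_all (fun i x => x ∈ S i) e y z he h1 h2
    have hval : ∀ e : Fin t → ℕ, (∀ i : Fin t, e i ∈ S i.castSucc.castSucc) →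
        ∀ y ∈ S (Fin.last t).castSucc, ∀ z ∈ S (Fin.last (t + 1)),
        ((e1 (tri ν (V (f e) + a) (Y y + b) (Y z + c)) : Fin q) : ℕ) = z0 := by
      intro e he y h1 z h2
      have h := hcon (mk e y z) (hmem e he y h1 z h2)
      simp only [f', mk_old, mk_y, mk_z] at h
      exact h
    have hdom : ∀ e : Fin t → ℕ, (∀ i : Fin t, e i ∈ S i.castSucc.castSucc) →
        D e ∧ Dom ν (V (f e) + a) (Y y1 + b) (Y z1 + c) := by
      intro e he
      have h := hD (mk e y1 z1) (hmem e he y1 my1 z1 mz1)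
      simp only [D', mk_old, mk_y, mk_z] at h
      exact h
    have hne0 : ∀ i : Fin t, ∃ x, x ∈ S i.castSucc.castSucc := by
      intro i
      have : 0 < (S i.castSucc.castSucc).card := by rw [hcard]; omega
      exact card_pos.mp this
    choose e0 he0 using hne0
    obtain ⟨e, he, hfe⟩ := hgood (f e0) (fun i : Fin t => S i.castSucc.castSucc)
      (fun i => hS _) (fun i => hcard _) (fun e he => (hdom e he).1)
    have heq : ∀ (e e' : Fin t → ℕ) (y y' z z' : ℕ), (∀ i : Fin t, e i ∈ S i.castSucc.castSucc) →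
        (∀ i : Fin t, e' i ∈ S i.castSucc.castSucc) → y ∈ S (Fin.last t).castSucc →
        y' ∈ S (Fin.last t).castSucc → z ∈ S (Fin.last (t + 1)) → z' ∈ S (Fin.last (t + 1)) →
        tri ν (V (f e) + a) (Y y + b) (Y z + c) = tri ν (V (f e') + a) (Y y' + b) (Y z' + c) := by
      intro e e' y y' z z' h1 h2 h3 h4 h5 h6
      apply e1.injective
      apply Fin.ext
      rw [hval e h1 y h3 z h5, hval e' h2 y' h4 z' h6]
    exact no_box ν hν (tri ν (V (f e) + a) (Y y1 + b) (Y z1 + c)) (V (f e) + a) (V (f e0) + a)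
      (Y y1 + b) (Y y2 + b) (Y z1 + c) (Y z2 + c)
      (fun h => hfe (hV _ _ (hf _) (hf _) (add_right_cancel h)))
      (fun h => hyne (hY _ _ (ry _ my1) (ry _ my2) (add_right_cancel h)))
      (fun h => hzne (hY _ _ (rz _ mz1) (rz _ mz2) (add_right_cancel h))) (hdom e he).2 rfl
      (heq _ _ _ _ _ _ he0 he my1 my1 mz1 mz1) (heq _ _ _ _ _ _ he he my2 my1 mz1 mz1)
      (heq _ _ _ _ _ _ he he my1 my1 mz2 mz1) (heq _ _ _ _ _ _ he0 he my2 my1 mz1 mz1)
      (heq _ _ _ _ _ _ he0 he my1 my1 mz2 mz1) (heq _ _ _ _ _ _ he he my2 my1 mz2 mz1)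
      (heq _ _ _ _ _ _ he0 he my2 my1 mz2 mz1)
  · set W := (T ×ˢ (range (m t) ×ˢ range (m (t + 1)))).filter (fun w =>
      (fun p : (Fin 4 → F) × (Fin 3 → F) × (Fin 3 → F) => Dom ν p.1 p.2.1 p.2.2)
        ((fun w : (Fin t → ℕ) × ℕ × ℕ => (V (f w.1), Y w.2.1, Y w.2.2)) w + (a, b, c))) with hW
    refine ⟨W.image (fun w => mk w.1 w.2.1 w.2.2), ?_, ?_⟩
    · intro e he
      obtain ⟨w, hw, rfl⟩ := mem_image.mp he
      rw [hW, mem_filter, mem_product, mem_product, mem_range, mem_range] at hw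
      obtain ⟨⟨hw1, hw2, hw3⟩, hw4⟩ := hw
      obtain ⟨k1, k2⟩ := hT _ hw1
      refine ⟨mk_all (fun i x => x < m (i : ℕ)) w.1 w.2.1 w.2.2 k1 hw2 hw3, ?_⟩
      simp only [D', mk_old, mk_y, mk_z]
      exact ⟨k2, hw4⟩
    · have hinj : Set.InjOn (fun w : (Fin t → ℕ) × ℕ × ℕ => mk w.1 w.2.1 w.2.2) W := by
        intro w _ w' _ h
        simp only at h
        have k1 := congrArg old h
        have k2 := congrArg yy h
        have k3 := congrArg zz h
        rw [mk_old, mk_old] at k1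
        rw [mk_y, mk_y] at k2
        rw [mk_z, mk_z] at k3
        exact Prod.ext k1 (Prod.ext k2 k3)
      rw [card_image_of_injOn hinj]
      have hG : Fintype.card ((Fin 4 → F) × (Fin 3 → F) × (Fin 3 → F)) = q ^ 10 := by
        rw [Fintype.card_prod, Fintype.card_prod, c4, c3]
        ring
      rw [hG, card_product, card_product, card_range, card_range] at hp
      exact (Nat.mul_le_mul_left _ (dom_card F ν hF)).trans hp

end Pool.Agent.Lib.MP_f6ab77_co
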