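import Mathlib
import Pool.Agent.Lib.MP_f6ab77_co.Pairs

set_option autoImplicit false

namespace Pool.Agent.Lib.MP_f6ab77_co

open Finset

theorem double_pp (q : ℕ) (hq : IsPrimePow q)
    (t : ℕ) (m : ℕ → ℕ) (hy : m t ≤ q ^ 3) (hz : m (t + 1) ≤ q ^ 3)
    (D : (Fin t → ℕ) → Prop) (f : (Fin t → ℕ) → ℕ) (hf : ∀ e, f e < q ^ 4)
    (hgood : GoodOn 2 (fun i : Fin t => range (m i)) D f)
    (T : Finset (Fin t → ℕ)) (hT : ∀ e ∈ T, (∀ i, e i < m i) ∧ D e) :
    ∃ (D' : (Fin (t + 2) → ℕ) → Prop) (f' : (Fin (t + 2) → ℕ) → ℕ) (c0 : ℕ), c0 < q ∧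
      (∀ e, f' e < q) ∧ (∀ e, D' e → f' e ≠ c0) ∧
      GoodOn 2 (fun i : Fin (t + 2) => range (m i)) D' f' ∧
      ∃ T' : Finset (Fin (t + 2) → ℕ), (∀ e ∈ T', (∀ i, e i < m i) ∧ D' e) ∧
        T.card * (m t * m (t + 1)) * (q ^ 6 * (q - 1) ^ 4) ≤ q ^ 10 * T'.card := by
  obtain ⟨p, k, hp, hk, hpk⟩ := (isPrimePow_nat_iff q).mp hq
  have : Fact p.Prime := ⟨hp⟩
  let _ : Fintype (GaloisField p k) := Fintype.ofFinite _
  have hF : Fintype.card (GaloisField p k) = q := by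
    rw [← Nat.card_eq_fintype_card, GaloisField.card p k (by omega), hpk]
  exact double_field (GaloisField p k) q hF t m hy hz D f hf hgood T hT

/-- one new part -/
theorem single_pp (q : ℕ) (hq : IsPrimePow q)
    (t : ℕ) (m : ℕ → ℕ) (hy : m t ≤ q ^ 2)
    (D : (Fin t → ℕ) → Prop) (f : (Fin t → ℕ) → ℕ) (hf : ∀ e, f e < q ^ 2)
    (hgood : GoodOn 2 (fun i : Fin t => range (m i)) D f)
    (T : Finset (Fin t → ℕ)) (hT : ∀ e ∈ T, (∀ i, e i < m i) ∧ D e) :
    ∃ (D' : (Fin (t + 1) → ℕ) → Prop) (f' : (Fin (t + 1) → ℕ) → ℕ),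
      (∀ e, f' e < q) ∧
      GoodOn 2 (fun i : Fin (t + 1) => range (m i)) D' f' ∧
      ∃ T' : Finset (Fin (t + 1) → ℕ), (∀ e ∈ T', (∀ i, e i < m i) ∧ D' e) ∧
        T'.card = T.card * m t := by
  classical
  obtain ⟨nxt, hn1, hn2⟩ := nextr q 2 hq
  let old : (Fin (t + 1) → ℕ) → (Fin t → ℕ) := fun e i => e i.castSucc
  let mk : (Fin t → ℕ) → ℕ → (Fin (t + 1) → ℕ) := fun e y =>
    Fin.snoc (α := fun _ : Fin (t + 1) => ℕ) e y
  have mk_old : ∀ e y, old (mk e y) = e := by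
    intro e y
    funext i
    simp only [old, mk, Fin.snoc_castSucc]
  have mk_y : ∀ e y, (mk e y) (Fin.last t) = y := by
    intro e y
    simp only [mk, Fin.snoc_last]
  have mk_all : ∀ (Q : Fin (t + 1) → ℕ → Prop) e y, (∀ i : Fin t, Q i.castSucc (e i)) →
      Q (Fin.last t) y → ∀ i, Q i (mk e y i) := by
    intro Q e y h1 h2 i
    refine Fin.lastCases ?_ (fun j => ?_) i
    · simpa [mk] using h2
    · simpa [mk] using h1 j
  refine ⟨fun e => D (old e), fun e => nxt (f (old e)) (e (Fin.last t)), fun e => hn1 _ _, ?_, ?_⟩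
  · intro z S hS hcard hD
    by_contra hcon
    push Not at hcon
    have hne : ∀ i : Fin (t + 1), ∃ y, y ∈ S i := by
      intro i
      have : 0 < (S i).card := by rw [hcard]; omega
      exact card_pos.mp this
    choose e1 he1 using hne
    have hmem : ∀ e : Fin t → ℕ, (∀ i, e i ∈ S i.castSucc) →
        ∀ y ∈ S (Fin.last t), ∀ i, mk e y i ∈ S i := by
      intro e he y hy
      exact mk_all (fun i x => x ∈ S i) e y he hy
    have hval : ∀ e : Fin t → ℕ, (∀ i, e i ∈ S i.castSucc) →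
        ∀ y ∈ S (Fin.last t), nxt (f e) y = z := by
      intro e he y hy
      have h := hcon (mk e y) (hmem e he y hy)
      rw [mk_old, mk_y] at h
      exact h
    set e0 : Fin t → ℕ := fun i => e1 i.castSucc with he0def
    have he0 : ∀ i, e0 i ∈ S i.castSucc := fun i => he1 i.castSucc
    obtain ⟨e, he, hfe⟩ := hgood (f e0) (fun i => S i.castSucc) (fun i => hS i.castSucc)
      (fun i => hcard _) (by
        intro e he
        have h := hD (mk e (e1 (Fin.last t))) (hmem e he _ (he1 _))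
        beta_reduce at h
        rw [mk_old] at h
        exact h)
    apply hfe
    have hlast : S (Fin.last t) ⊆ range (q ^ 2) := by
      intro x hx
      have h1 := mem_range.mp (hS _ hx)
      exact mem_range.mpr (lt_of_lt_of_le h1 hy)
    exact hn2 (f e) (f e0) z (S (Fin.last t)) (hf _) (hf _) hlast (hcard _)
      (hval e he) (hval e0 he0)
  · refine ⟨(T ×ˢ range (m t)).image (fun w => mk w.1 w.2), ?_, ?_⟩
    · intro e he
      obtain ⟨w, hw, rfl⟩ := mem_image.mp he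
      rw [mem_product, mem_range] at hw
      obtain ⟨k1, k2⟩ := hT _ hw.1
      refine ⟨mk_all (fun i x => x < m (i : ℕ)) w.1 w.2 k1 hw.2, ?_⟩
      beta_reduce
      rw [mk_old]
      exact k2
    · rw [card_image_of_injOn, card_product, card_range]
      intro w _ w' _ h
      simp only at h
      have k1 := congrArg old h
      have k2 := congrFun h (Fin.last t)
      rw [mk_old, mk_old] at k1
      rw [mk_y, mk_y] at k2
      exact Prod.ext k1 k2

/-- the conclusion of the construction -/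
def Constr (t q : ℕ) (m : ℕ → ℕ) : Prop :=
  ∃ (D : (Fin t → ℕ) → Prop) (f : (Fin t → ℕ) → ℕ) (C : Finset ℕ) (T : Finset (Fin t → ℕ)),
    C ⊆ range q ∧ (C.card = q ∨ C.card = q - 1) ∧ (∀ e, f e < q) ∧ (∀ e, D e → f e ∈ C) ∧
      GoodOn 2 (fun i : Fin t => range (m i)) D f ∧ (∀ e ∈ T, (∀ i, e i < m i) ∧ D e) ∧
      (1 - 3 / (q : ℝ)) * (C.card : ℝ) * (∏ i ∈ range t, (m i : ℝ)) ≤ (q : ℝ) * (T.card : ℝ)

theorem constr_weaken (q' : ℕ) (hq : 4 ≤ q') (c W β : ℝ) (hc : c = q' ∨ c = (q' : ℝ) - 1)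
    (hW : 0 ≤ W) (h : (1 - 3 / (q' : ℝ)) * c * W ≤ (q' : ℝ) * β) :
    (1 - 4 / (q' : ℝ)) * W ≤ β := by
  have hq' : (4 : ℝ) ≤ q' := by exact_mod_cast hq
  have h0 : (0 : ℝ) < q' := by linarith
  have hc1 : (q' : ℝ) - 1 ≤ c := by rcases hc with h | h <;> rw [h] <;> linarith
  have h3 : 0 ≤ 1 - 3 / (q' : ℝ) := by
    have : 3 / (q' : ℝ) ≤ 1 := by rw [div_le_one h0]; linarith
    linarith
  have h1 : (1 - 3 / (q' : ℝ)) * ((q' : ℝ) - 1) * W ≤ (q' : ℝ) * β := by
    refine le_trans ?_ h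
    apply mul_le_mul_of_nonneg_right _ hW
    exact mul_le_mul_of_nonneg_left hc1 h3
  have h2 : (q' : ℝ) * ((1 - 4 / (q' : ℝ)) * W) ≤ (1 - 3 / (q' : ℝ)) * ((q' : ℝ) - 1) * W := by
    have e : (1 - 3 / (q' : ℝ)) * ((q' : ℝ) - 1) * W - (q' : ℝ) * ((1 - 4 / (q' : ℝ)) * W) =
        3 / (q' : ℝ) * W := by
      field_simp
      ring
    have : 0 ≤ 3 / (q' : ℝ) * W := by positivity
    linarith
  exact le_of_mul_le_mul_left (h2.trans h1) h0

theorem constr_single (t q : ℕ) (hq : IsPrimePow q) (m : ℕ → ℕ) (hy : m t ≤ q ^ 2)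
    (h : Constr t (q ^ 2) m) : Constr (t + 1) q m := by
  obtain ⟨D, f, C, T, hC, hCc, hf, hDf, hgood, hT, hcount⟩ := h
  obtain ⟨D', f', hf', hgood', T', hT', hcard⟩ := single_pp q hq t m hy D f hf hgood T hT
  refine ⟨D', f', range q, T', Subset.refl _, Or.inl (card_range q), hf',
    fun e _ => mem_range.mpr (hf' e), hgood', hT', ?_⟩
  have hq2 : 2 ≤ q := hq.two_le
  have hqR : (2 : ℝ) ≤ q := by exact_mod_cast hq2
  have hq0 : (0 : ℝ) < q := by linarith
  have hW : (0 : ℝ) ≤ ∏ i ∈ range t, (m i : ℝ) := prod_nonneg (fun i _ => Nat.cast_nonneg _)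
  have hq24 : 4 ≤ q ^ 2 := by nlinarith
  have h1 := constr_weaken (q ^ 2) hq24 (C.card : ℝ) _ (T.card : ℝ) (by
    rcases hCc with h | h
    · left; rw [h]
    · right; rw [h, Nat.cast_sub (by omega)]; push_cast; rfl) hW hcount
  have h2 : (1 - 3 / (q : ℝ)) ≤ 1 - 4 / ((q ^ 2 : ℕ) : ℝ) := by
    have : 4 / ((q ^ 2 : ℕ) : ℝ) ≤ 3 / (q : ℝ) := by
      push_cast
      rw [div_le_div_iff₀ (by positivity) hq0]
      nlinarith
    linarith
  rw [hcard, card_range, prod_range_succ]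
  push_cast
  have h3 : (1 - 3 / (q : ℝ)) * (∏ i ∈ range t, (m i : ℝ)) ≤ (T.card : ℝ) :=
    (mul_le_mul_of_nonneg_right h2 hW).trans h1
  calc (1 - 3 / (q : ℝ)) * (q : ℝ) * ((∏ i ∈ range t, (m i : ℝ)) * (m t : ℝ))
      = (q : ℝ) * (((1 - 3 / (q : ℝ)) * (∏ i ∈ range t, (m i : ℝ))) * (m t : ℝ)) := by ring
    _ ≤ (q : ℝ) * ((T.card : ℝ) * (m t : ℝ)) := by
        apply mul_le_mul_of_nonneg_left _ hq0.le
        exact mul_le_mul_of_nonneg_right h3 (Nat.cast_nonneg _)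

theorem constr_double (t q : ℕ) (hq : IsPrimePow q) (m : ℕ → ℕ) (hy : m t ≤ q ^ 3)
    (hz : m (t + 1) ≤ q ^ 3) (h : Constr t (q ^ 4) m) : Constr (t + 2) q m := by
  obtain ⟨D, f, C, T, hC, hCc, hf, hDf, hgood, hT, hcount⟩ := h
  obtain ⟨D', f', c0, hc0, hf', hDf', hgood', T', hT', hcard⟩ :=
    double_pp q hq t m hy hz D f hf hgood T hT
  have hq2 : 2 ≤ q := hq.two_le
  have hCc' : ((range q).erase c0).card = q - 1 := by
    rw [card_erase_of_mem (mem_range.mpr hc0), card_range]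
  refine ⟨D', f', (range q).erase c0, T', erase_subset _ _, Or.inr hCc', hf',
    fun e he => mem_erase.mpr ⟨hDf' e he, mem_range.mpr (hf' e)⟩, hgood', hT', ?_⟩
  have hqR : (2 : ℝ) ≤ q := by exact_mod_cast hq2
  have hq0 : (0 : ℝ) < q := by linarith
  have hW : (0 : ℝ) ≤ ∏ i ∈ range t, (m i : ℝ) := prod_nonneg (fun i _ => Nat.cast_nonneg _)
  have hq44 : 4 ≤ q ^ 4 := by
    calc 4 ≤ 2 ^ 4 := by norm_num
      _ ≤ q ^ 4 := Nat.pow_le_pow_left hq2 4
  have h1 := constr_weaken (q ^ 4) hq44 (C.card : ℝ) _ (T.card : ℝ) (by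
    rcases hCc with h | h
    · left; rw [h]
    · right; rw [h, Nat.cast_sub (by omega)]; push_cast; rfl) hW hcount
  rw [hCc', Nat.cast_sub (by omega), prod_range_succ, prod_range_succ]
  push_cast at h1 ⊢
  set W : ℝ := ∏ i ∈ range t, (m i : ℝ) with hWdef
  set W2 : ℝ := (m t : ℝ) * (m (t + 1) : ℝ) with hW2
  have hW20 : 0 ≤ W2 := by positivity
  have hcardR : (T.card : ℝ) * W2 * ((q : ℝ) ^ 6 * ((q : ℝ) - 1) ^ 4) ≤ (q : ℝ) ^ 10 * T'.card := by
    have h3 : ((T.card * (m t * m (t + 1)) * (q ^ 6 * (q - 1) ^ 4) : ℕ) : ℝ) ≤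
        ((q ^ 10 * T'.card : ℕ) : ℝ) := by exact_mod_cast hcard
    push_cast [Nat.cast_sub (by omega : 1 ≤ q)] at h3
    exact h3
  have hq1 : (0 : ℝ) ≤ (q : ℝ) - 1 := by linarith
  -- T'.card ≥ (1 - 4/q^4) W W2 (q-1)^4 / q^4
  have h4 : (1 - 4 / (q : ℝ) ^ 4) * W * W2 * ((q : ℝ) - 1) ^ 4 ≤ (q : ℝ) ^ 4 * T'.card := by
    have h5 : (q : ℝ) ^ 6 * ((1 - 4 / (q : ℝ) ^ 4) * W * W2 * ((q : ℝ) - 1) ^ 4) ≤
        (q : ℝ) ^ 6 * ((q : ℝ) ^ 4 * T'.card) := by
      calc (q : ℝ) ^ 6 * ((1 - 4 / (q : ℝ) ^ 4) * W * W2 * ((q : ℝ) - 1) ^ 4)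
          = ((1 - 4 / (q : ℝ) ^ 4) * W) * (W2 * ((q : ℝ) ^ 6 * ((q : ℝ) - 1) ^ 4)) := by ring
        _ ≤ (T.card : ℝ) * (W2 * ((q : ℝ) ^ 6 * ((q : ℝ) - 1) ^ 4)) :=
            mul_le_mul_of_nonneg_right h1 (by positivity)
        _ = (T.card : ℝ) * W2 * ((q : ℝ) ^ 6 * ((q : ℝ) - 1) ^ 4) := by ring
        _ ≤ (q : ℝ) ^ 10 * T'.card := hcardR
        _ = (q : ℝ) ^ 6 * ((q : ℝ) ^ 4 * T'.card) := by ring
    exact le_of_mul_le_mul_left h5 (by positivity)
  have hnum : (1 - 3 / (q : ℝ)) * (q : ℝ) ^ 3 ≤ (1 - 4 / (q : ℝ) ^ 4) * ((q : ℝ) - 1) ^ 3 := by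
    have h6 : (q : ℝ) ^ 4 * ((1 - 3 / (q : ℝ)) * (q : ℝ) ^ 3) ≤
        (q : ℝ) ^ 4 * ((1 - 4 / (q : ℝ) ^ 4) * ((q : ℝ) - 1) ^ 3) := by
      have e1 : (q : ℝ) ^ 4 * ((1 - 3 / (q : ℝ)) * (q : ℝ) ^ 3) = (q : ℝ) ^ 7 - 3 * (q : ℝ) ^ 6 := by
        field_simp
      have e2 : (q : ℝ) ^ 4 * ((1 - 4 / (q : ℝ) ^ 4) * ((q : ℝ) - 1) ^ 3) =
          ((q : ℝ) ^ 4 - 4) * ((q : ℝ) - 1) ^ 3 := by
        field_simp
      rw [e1, e2]
      have e3 : ((q : ℝ) ^ 4 - 4) * ((q : ℝ) - 1) ^ 3 - ((q : ℝ) ^ 7 - 3 * (q : ℝ) ^ 6) =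
          (q : ℝ) ^ 3 * ((3 * q - 4) * (q + 1)) + (12 * q * ((q : ℝ) - 1) + 4) := by ring
      have e4 : 0 ≤ (q : ℝ) ^ 3 * ((3 * q - 4) * (q + 1)) := by
        apply mul_nonneg (by positivity)
        apply mul_nonneg <;> linarith
      have e5 : 0 ≤ 12 * (q : ℝ) * ((q : ℝ) - 1) := by positivity
      linarith
    exact le_of_mul_le_mul_left h6 (by positivity)
  have h7 : (q : ℝ) ^ 3 * ((1 - 3 / (q : ℝ)) * ((q : ℝ) - 1) * (W * (m t : ℝ) * (m (t + 1) : ℝ))) ≤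
      (q : ℝ) ^ 3 * ((q : ℝ) * T'.card) := by
    calc (q : ℝ) ^ 3 * ((1 - 3 / (q : ℝ)) * ((q : ℝ) - 1) * (W * (m t : ℝ) * (m (t + 1) : ℝ)))
        = ((1 - 3 / (q : ℝ)) * (q : ℝ) ^ 3) * (((q : ℝ) - 1) * (W * W2)) := by
          rw [hW2]; ring
      _ ≤ ((1 - 4 / (q : ℝ) ^ 4) * ((q : ℝ) - 1) ^ 3) * (((q : ℝ) - 1) * (W * W2)) :=
          mul_le_mul_of_nonneg_right hnum (by positivity)
      _ = (1 - 4 / (q : ℝ) ^ 4) * W * W2 * ((q : ℝ) - 1) ^ 4 := by ring
      _ ≤ (q : ℝ) ^ 4 * T'.card := h4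
      _ = (q : ℝ) ^ 3 * ((q : ℝ) * T'.card) := by ring
  exact le_of_mul_le_mul_left h7 (by positivity)

theorem constr_base (q : ℕ) (hq : IsPrimePow q) (m : ℕ → ℕ) (h0 : m 0 ≤ q) : Constr 1 q m := by
  obtain ⟨f, hf, hgood⟩ := const_base_lower 2 q le_rfl hq.pos (fun i : Fin 1 => m i) (by
    intro i
    have : i = 0 := Subsingleton.elim _ _
    rw [this]
    simpa using h0)
  have hq0 : (0 : ℝ) < q := by exact_mod_cast hq.pos
  refine ⟨fun _ => True, f, range q, box (fun i : Fin 1 => m i), Subset.refl _,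
    Or.inl (card_range q), hf, fun e _ => mem_range.mpr (hf e), ?_, ?_, ?_⟩
  · intro z S hS hcard _
    exact hgood z S hS hcard
  · intro e he
    exact ⟨(mem_box _ e).mp he, trivial⟩
  · rw [card_box, card_range, prod_range_one]
    have : ((∏ i : Fin 1, m i : ℕ) : ℝ) = (m 0 : ℝ) := by simp
    rw [this]
    have h1 : (1 - 3 / (q : ℝ)) ≤ 1 := by
      have : 0 ≤ 3 / (q : ℝ) := by positivity
      linarith
    calc (1 - 3 / (q : ℝ)) * (q : ℝ) * (m 0 : ℝ) = (1 - 3 / (q : ℝ)) * ((q : ℝ) * (m 0 : ℝ)) := by ring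
      _ ≤ 1 * ((q : ℝ) * (m 0 : ℝ)) := mul_le_mul_of_nonneg_right h1 (by positivity)
      _ = (q : ℝ) * (m 0 : ℝ) := one_mul _

theorem constr_all : ∀ (n t : ℕ), t ≤ n → 1 ≤ t → ∀ (q : ℕ), IsPrimePow q → ∀ (m : ℕ → ℕ)
    (J : Finset ℕ), (∀ i ∈ J, 1 ≤ i ∧ i + 1 < t ∧ i + 1 ∉ J) → m 0 ≤ q ^ (2 ^ (t - 1)) →
    (∀ i, 1 ≤ i → i < t → i ∉ J → i - 1 ∉ J → m i ≤ q ^ (2 ^ (t - i))) →
    (∀ i ∈ J, m i ≤ q ^ (3 * 2 ^ (t - 2 - i)) ∧ m (i + 1) ≤ q ^ (3 * 2 ^ (t - 2 - i))) →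
    Constr t q m := by
  intro n
  induction n with
  | zero =>
    intro t ht ht1
    omega
  | succ n ih =>
    intro t ht ht1 q hq m J hJ h0 h1 h2
    rcases Nat.lt_or_ge t 2 with ht2 | ht2
    · have : t = 1 := by omega
      subst this
      apply constr_base q hq m
      simpa using h0
    · by_cases hlast : t - 2 ∈ J
      · -- a pair at the end
        obtain ⟨k1, k2, k3⟩ := hJ _ hlast
        obtain ⟨s, rfl⟩ : ∃ s, t = s + 2 := ⟨t - 2, by omega⟩
        rw [Nat.add_sub_cancel] at hlast k1 k2 k3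
        obtain ⟨a1, a2⟩ := h2 s hlast
        rw [Nat.add_sub_cancel, Nat.sub_self, pow_zero, mul_one] at a1 a2
        apply constr_double s q hq m a1 a2
        have hJ' : ∀ i ∈ J.erase s, 1 ≤ i ∧ i + 1 < s ∧ i + 1 ∉ J.erase s := by
          intro i hi
          obtain ⟨hi1, hi2⟩ := mem_erase.mp hi
          obtain ⟨b1, b2, b3⟩ := hJ i hi2
          refine ⟨b1, ?_, fun h => b3 (mem_of_mem_erase h)⟩
          have : i + 1 ≠ s := fun h => b3 (by rw [h]; exact hlast)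
          omega
        apply ih s (by omega) k1 (q ^ 4) (hq.pow (by norm_num)) m (J.erase s) hJ'
        · rw [← pow_mul]
          have e : 4 * 2 ^ (s - 1) = 2 ^ (s + 2 - 1) := by
            rw [show s + 2 - 1 = (s - 1) + 2 by omega, pow_add]; ring
          rw [e]
          exact h0
        · intro i hi1 hi2 hi3 hi4
          rw [← pow_mul]
          have e : 4 * 2 ^ (s - i) = 2 ^ (s + 2 - i) := by
            rw [show s + 2 - i = (s - i) + 2 by omega, pow_add]; ring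
          rw [e]
          apply h1 i hi1 (by omega)
          · intro h
            exact hi3 (mem_erase.mpr ⟨by omega, h⟩)
          · intro h
            exact hi4 (mem_erase.mpr ⟨by omega, h⟩)
        · intro i hi
          obtain ⟨b1, b2, b3⟩ := hJ' i hi
          have e : (q ^ 4) ^ (3 * 2 ^ (s - 2 - i)) = q ^ (3 * 2 ^ (s + 2 - 2 - i)) := by
            rw [← pow_mul]
            congr 1
            rw [show s + 2 - 2 - i = (s - 2 - i) + 2 by omega, pow_add]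
            ring
          rw [e]
          exact h2 i (mem_of_mem_erase hi)
      · -- a single part at the end
        obtain ⟨s, rfl⟩ : ∃ s, t = s + 1 := ⟨t - 1, by omega⟩
        have hs : 1 ≤ s := by omega
        have hlast' : s - 1 ∉ J := by
          intro h
          apply hlast
          have : s + 1 - 2 = s - 1 := by omega
          rw [this]
          exact h
        have a1 : m s ≤ q ^ 2 := by
          have h3 := h1 s hs (by omega) (by
            intro h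
            have := (hJ s h).2.1
            omega) hlast'
          rw [Nat.add_sub_cancel_left, pow_one] at h3
          exact h3
        apply constr_single s q hq m a1
        have hJ' : ∀ i ∈ J, 1 ≤ i ∧ i + 1 < s ∧ i + 1 ∉ J := by
          intro i hi
          obtain ⟨b1, b2, b3⟩ := hJ i hi
          refine ⟨b1, ?_, b3⟩
          have : i ≠ s - 1 := by
            intro h
            rw [h] at hi
            exact hlast' hi
          omega
        apply ih s (by omega) hs (q ^ 2) (hq.pow (by norm_num)) m J hJ'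
        · rw [← pow_mul]
          have e : 2 * 2 ^ (s - 1) = 2 ^ (s + 1 - 1) := by
            rw [show s + 1 - 1 = (s - 1) + 1 by omega, pow_add]; ring
          rw [e]
          exact h0
        · intro i hi1 hi2 hi3 hi4
          rw [← pow_mul]
          have e : 2 * 2 ^ (s - i) = 2 ^ (s + 1 - i) := by
            rw [show s + 1 - i = (s - i) + 1 by omega, pow_add]; ring
          rw [e]
          exact h1 i hi1 (by omega) hi3 hi4
        · intro i hi
          obtain ⟨b1, b2, b3⟩ := hJ' i hi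
          have e : (q ^ 2) ^ (3 * 2 ^ (s - 2 - i)) = q ^ (3 * 2 ^ (s + 1 - 2 - i)) := by
            rw [← pow_mul]
            congr 1
            rw [show s + 1 - 2 - i = (s - 2 - i) + 1 by omega, pow_add]
            ring
          rw [e]
          exact h2 i hi

/-- the hypergraph -/
theorem constr_hyp (t q : ℕ) (hq : IsPrimePow q) (m : ℕ → ℕ) (h : Constr t q m) :
    ∃ H : Finset (Finset (Σ i : Fin t, Fin (m i))), IsPartite H ∧
      ¬ H.ContainsCompletePartiteHypergraph t 2 ∧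
      (1 - 3 / (q : ℝ)) * (∏ i ∈ range t, (m i : ℝ)) ≤ (q : ℝ) * (H.card : ℝ) := by
  classical
  obtain ⟨D, f, C, T, hC, hCc, hf, hDf, hgood, hT, hcount⟩ := h
  have hq2 : 2 ≤ q := hq.two_le
  have hC0 : 0 < C.card := by rcases hCc with h | h <;> omega
  have hsum : ∑ z ∈ C, (T.filter (fun g => f g = z)).card = T.card := by
    rw [← card_eq_sum_card_fiberwise]
    intro g hg
    exact mem_coe.mpr (hDf g (hT g (mem_coe.mp hg)).2)
  obtain ⟨z, hz, hzc⟩ : ∃ z ∈ C, T.card ≤ C.card * (T.filter (fun g => f g = z)).card := by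
    by_contra hcon
    push Not at hcon
    have h3 : ∑ z ∈ C, C.card * (T.filter (fun g => f g = z)).card < ∑ _z ∈ C, T.card :=
      sum_lt_sum_of_nonempty (card_pos.mp hC0) (fun z hz => hcon z hz)
    rw [← mul_sum, hsum, sum_const, smul_eq_mul] at h3
    exact lt_irrefl _ h3
  set Q : Finset (∀ i : Fin t, Fin (m i)) :=
    univ.filter (fun g => (fun i => (g i : ℕ)) ∈ T.filter (fun g => f g = z)) with hQ
  have hQc : Q.card = (T.filter (fun g => f g = z)).card := by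
    apply card_bij (fun g _ => (fun i => (g i : ℕ)))
    · intro g hg
      exact (mem_filter.mp hg).2
    · intro g _ g' _ h
      funext i
      exact Fin.ext (congrFun h i)
    · intro e he
      have h1 := (hT e (mem_filter.mp he).1).1
      refine ⟨fun i => ⟨e i, h1 i⟩, ?_, rfl⟩
      rw [hQ, mem_filter]
      exact ⟨mem_univ _, he⟩
  have hpart : IsPartite (Q.image transversal) := by
    rw [isPartite_iff]
    intro e he
    obtain ⟨g, _, rfl⟩ := mem_image.mp he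
    exact ⟨g, rfl⟩
  refine ⟨Q.image transversal, hpart, ?_, ?_⟩
  · rw [contains_iff (by norm_num) _ hpart]
    rintro ⟨S, hS, hcard, hall⟩
    have hmem : ∀ e : Fin t → ℕ, (∀ i, e i ∈ S i) → D e ∧ f e = z := by
      intro e he
      obtain ⟨g, hgQ, hgt⟩ := mem_image.mp (hall (fun i => ⟨e i, mem_range.mp (hS i (he i))⟩) he)
      rw [transversal_injective hgt, hQ, mem_filter, mem_filter] at hgQ
      exact ⟨(hT _ hgQ.2.1).2, hgQ.2.2⟩
    obtain ⟨e, he, hne⟩ := hgood z S hS hcard (fun e he => (hmem e he).1)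
    exact hne (hmem e he).2
  · rw [card_image_of_injective _ transversal_injective, hQc]
    have hzR : (T.card : ℝ) ≤ (C.card : ℝ) * ((T.filter (fun g => f g = z)).card : ℝ) := by
      exact_mod_cast hzc
    have hC0R : (0 : ℝ) < C.card := by exact_mod_cast hC0
    have hq0 : (0 : ℝ) < q := by exact_mod_cast hq.pos
    have h5 : (C.card : ℝ) * ((1 - 3 / (q : ℝ)) * (∏ i ∈ range t, (m i : ℝ))) ≤
        (C.card : ℝ) * ((q : ℝ) * ((T.filter (fun g => f g = z)).card : ℝ)) := by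
      calc (C.card : ℝ) * ((1 - 3 / (q : ℝ)) * (∏ i ∈ range t, (m i : ℝ)))
          = (1 - 3 / (q : ℝ)) * (C.card : ℝ) * (∏ i ∈ range t, (m i : ℝ)) := by ring
        _ ≤ (q : ℝ) * (T.card : ℝ) := hcount
        _ ≤ (q : ℝ) * ((C.card : ℝ) * ((T.filter (fun g => f g = z)).card : ℝ)) :=
            mul_le_mul_of_nonneg_left hzR hq0.le
        _ = _ := by ring
    exact le_of_mul_le_mul_left h5 hC0R

end Pool.Agent.Lib.MP_f6ab77_co
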