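import Mathlib
import Pool.Agent.Lib.MP_f6ab77_co.PairsCore

set_option autoImplicit false

namespace Pool.Agent.Lib.MP_f6ab77_co

open Finset

/-- the lower bound for every size of the first part -/
theorem pairs_lower (t : ℕ) (ht : 2 ≤ t) (m : ℕ → ℕ) (hm0 : 1 ≤ m 0) (J : Finset ℕ)
    (hJ : ∀ i ∈ J, 1 ≤ i ∧ i + 1 < t ∧ i + 1 ∉ J)
    (h1 : ∀ i ∈ J, (m i) ^ (2 ^ (i + 1)) ≤ (m 0) ^ 3 ∧ (m (i + 1)) ^ (2 ^ (i + 1)) ≤ (m 0) ^ 3)
    (h2 : ∀ i, 1 ≤ i → i < t → i ∉ J → i - 1 ∉ J → (m i) ^ (2 ^ i) ≤ (m 0) ^ 2) :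
    ∃ H : Finset (Finset (Σ i : Fin t, Fin (m i))), IsPartite H ∧
      ¬ H.ContainsCompletePartiteHypergraph t 2 ∧
      (1 / 15 : ℝ) * (∏ i ∈ range t, (m i : ℝ)) * (m 0 : ℝ) ^ (-(2 : ℝ) ^ (1 - (t : ℝ))) ≤
        (H.card : ℝ) := by
  classical
  set K := 2 ^ (t - 1) with hK
  have hK0 : 0 < K := by positivity
  have hex : ∃ x : ℕ, m 0 ≤ x ^ K := ⟨m 0, Nat.le_self_pow hK0.ne' _⟩
  set x := Nat.find hex with hx
  have hx1 : m 0 ≤ x ^ K := Nat.find_spec hex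
  have hN : (0 : ℝ) < (m 0 : ℝ) := by exact_mod_cast (by omega : 0 < m 0)
  set R : ℝ := (m 0 : ℝ) ^ ((K : ℝ)⁻¹) with hR
  have hR1 : 1 ≤ R := by
    have h := le_root 1 (m 0) K 1 hK0 one_pos
    have h' := root_le 1 (m 0) K 1 hK0 one_pos (by
      simp only [Nat.cast_one, one_pow, one_mul]
      exact_mod_cast hm0)
    simpa using h'
  have hx2 : (x : ℝ) ≤ 2 * R := by
    rcases Nat.eq_zero_or_pos x with h | h
    · rw [h]; push_cast; linarith
    · have h3 : ¬ m 0 ≤ (x - 1) ^ K := Nat.find_min hex (by omega)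
      push Not at h3
      have h4 := root_le (x - 1) (m 0) K 1 hK0 one_pos (by
        rw [one_pow, one_mul]
        exact_mod_cast h3.le)
      rw [one_mul, Nat.cast_sub h] at h4
      push_cast at h4
      linarith
  obtain ⟨q, hq, hq1, hq2⟩ := Nat.exists_prime_lt_and_le_two_mul (max x 3) (by
    have : 3 ≤ max x 3 := le_max_right _ _
    omega)
  have hq5 : 5 ≤ q := by
    have h3 : 3 < q := lt_of_le_of_lt (le_max_right _ _) hq1
    have h4 : q ≠ 4 := by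
      intro h
      rw [h] at hq
      norm_num at hq
    omega
  have hxq : x ≤ q := (le_max_left _ _).trans hq1.le
  have hNq : m 0 ≤ q ^ K := hx1.trans (Nat.pow_le_pow_left hxq _)
  have hq6 : (q : ℝ) ≤ 6 * R := by
    have h3 : (q : ℝ) ≤ 2 * (max x 3 : ℕ) := by exact_mod_cast hq2
    rcases le_total x 3 with h | h
    · rw [max_eq_right h] at h3
      push_cast at h3
      linarith
    · rw [max_eq_left h] at h3
      linarith
  obtain ⟨H, hH, hfree, hcard⟩ := constr_hyp t q hq.isPrimePow m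
    (constr_all t t le_rfl (by omega) q hq.isPrimePow m J hJ hNq (by
      intro i hi1 hi2 hi3 hi4
      have h3 := h2 i hi1 hi2 hi3 hi4
      have h4 : (m i) ^ (2 ^ i) ≤ (q ^ (2 ^ (t - i))) ^ (2 ^ i) := by
        calc (m i) ^ (2 ^ i) ≤ (m 0) ^ 2 := h3
          _ ≤ (q ^ K) ^ 2 := Nat.pow_le_pow_left hNq 2
          _ = (q ^ (2 ^ (t - i))) ^ (2 ^ i) := by
              rw [← pow_mul, ← pow_mul, ← pow_add, hK]
              congr 1
              rw [← pow_succ]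
              congr 1
              omega
      exact (Nat.pow_le_pow_iff_left (by positivity)).mp h4) (by
      intro i hi
      obtain ⟨b1, b2, b3⟩ := hJ i hi
      have e : (q ^ K) ^ 3 = (q ^ (3 * 2 ^ (t - 2 - i))) ^ (2 ^ (i + 1)) := by
        rw [← pow_mul, ← pow_mul, mul_assoc, ← pow_add, hK]
        congr 1
        rw [show t - 2 - i + (i + 1) = t - 1 by omega]
        ring
      obtain ⟨a1, a2⟩ := h1 i hi
      have a3 : (m 0) ^ 3 ≤ (q ^ (3 * 2 ^ (t - 2 - i))) ^ (2 ^ (i + 1)) := by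
        rw [← e]
        exact Nat.pow_le_pow_left hNq 3
      exact ⟨(Nat.pow_le_pow_iff_left (by positivity)).mp (a1.trans a3),
        (Nat.pow_le_pow_iff_left (by positivity)).mp (a2.trans a3)⟩))
  refine ⟨H, hH, hfree, ?_⟩
  have hexp : (2 : ℝ) ^ (1 - (t : ℝ)) = (K : ℝ)⁻¹ := by
    have := expo 2 (t - 1) le_rfl
    have e1 : ((t - 1 + 1 : ℕ) : ℝ) = (t : ℝ) := by
      congr 1; omega
    rw [e1] at this
    rw [hK]
    exact_mod_cast this
  rw [hexp, Real.rpow_neg hN.le, ← hR]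
  have hq5R : (5 : ℝ) ≤ q := by exact_mod_cast hq5
  have hq0 : (0 : ℝ) < q := by linarith
  have hR0 : 0 < R := by linarith
  have hW : (0 : ℝ) ≤ ∏ i ∈ range t, (m i : ℝ) := prod_nonneg (fun i _ => Nat.cast_nonneg _)
  set W : ℝ := ∏ i ∈ range t, (m i : ℝ) with hWdef
  have h25 : (2 / 5 : ℝ) ≤ 1 - 3 / (q : ℝ) := by
    have : 3 / (q : ℝ) ≤ 3 / 5 := by
      apply div_le_div_of_nonneg_left (by norm_num) (by norm_num) hq5R
    linarith
  have h6 : (2 / 5 : ℝ) * W ≤ (6 * R) * (H.card : ℝ) := by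
    calc (2 / 5 : ℝ) * W ≤ (1 - 3 / (q : ℝ)) * W := mul_le_mul_of_nonneg_right h25 hW
      _ ≤ (q : ℝ) * (H.card : ℝ) := hcard
      _ ≤ (6 * R) * (H.card : ℝ) := mul_le_mul_of_nonneg_right hq6 (Nat.cast_nonneg _)
  rw [← div_eq_mul_inv, div_le_iff₀ hR0]
  linarith

end Pool.Agent.Lib.MP_f6ab77_co
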