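import Mathlib
import Pool.Agent.Lib.MP_f6ab77_co.Final433

set_option autoImplicit false

namespace Pool.Agent.Lib.MP_f6ab77_co

open Finset

/-- the counting inequality for 0/1 tensors without boxes -/
theorem tensor_count {X Y Z : Type*} [Fintype X] [Fintype Y] [Fintype Z] [DecidableEq Y]
    [DecidableEq Z] (a : X → Y → Z → ℝ) (ha : ∀ x y z, a x y z = 0 ∨ a x y z = 1)
    (hbox : ∀ y y' z z', y ≠ y' → z ≠ z' →
      ∑ x, a x y z * a x y' z * (a x y z' * a x y' z') ≤ 1) :
    ∃ A : ℝ, 0 ≤ A ∧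
      (∑ x, ∑ z, ∑ y, a x y z) ^ 2 ≤
        (Fintype.card X * Fintype.card Z : ℝ) * (A + ∑ x, ∑ z, ∑ y, a x y z) ∧
      A ^ 2 ≤ (Fintype.card X * ((univ : Finset Y).offDiag.card : ℝ)) *
        (A + ((univ : Finset Y).offDiag.card : ℝ) * ((univ : Finset Z).offDiag.card : ℝ)) := by
  classical
  have hnn : ∀ x y z, 0 ≤ a x y z := by
    intro x y z
    rcases ha x y z with h | h <;> rw [h] <;> norm_num
  have hsq : ∀ x y z, a x y z * a x y z = a x y z := by
    intro x y z
    rcases ha x y z with h | h <;> rw [h] <;> norm_num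
  set e : ℝ := ∑ x, ∑ z, ∑ y, a x y z with he
  set A : ℝ := ∑ x, ∑ p ∈ (univ : Finset Y).offDiag, ∑ z, a x p.1 z * a x p.2 z with hA
  have hA0 : 0 ≤ A := by
    rw [hA]
    exact sum_nonneg fun x _ => sum_nonneg fun p _ => sum_nonneg fun z _ =>
      mul_nonneg (hnn _ _ _) (hnn _ _ _)
  refine ⟨A, hA0, ?_, ?_⟩
  · -- first Cauchy-Schwarz
    have h1 : e ^ 2 ≤ (Fintype.card (X × Z) : ℝ) * ∑ p : X × Z, (∑ y, a p.1 y p.2) ^ 2 := by
      have := sq_sum_le_card_mul_sum_sq (s := (univ : Finset (X × Z)))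
        (f := fun p => ∑ y, a p.1 y p.2)
      rw [card_univ] at this
      rw [Fintype.sum_prod_type (f := fun p : X × Z => ∑ y, a p.1 y p.2)] at this
      exact this
    have h2 : ∑ p : X × Z, (∑ y, a p.1 y p.2) ^ 2 = A + e := by
      rw [Fintype.sum_prod_type]
      have h3 : ∀ x z, (∑ y, a x y z) ^ 2 =
          ∑ p ∈ (univ : Finset Y).offDiag, a x p.1 z * a x p.2 z + ∑ y, a x y z := by
        intro x z
        rw [sq, sum_mul_sum, ← sum_product', univ_product_univ, ← univ_product_univ,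
          ← diag_union_offDiag (univ : Finset Y),
          sum_union (disjoint_diag_offDiag _), add_comm]
        congr 1
        rw [sum_diag]
        exact sum_congr rfl fun y _ => hsq x y z
      simp_rw [h3]
      rw [hA, he]
      simp_rw [sum_add_distrib]
      congr 1
      apply sum_congr rfl
      intro x _
      exact sum_comm
    rw [h2, Fintype.card_prod] at h1
    push_cast at h1
    exact h1
  · -- second Cauchy-Schwarz
    have h1 : A ^ 2 ≤ ((((univ : Finset X) ×ˢ (univ : Finset Y).offDiag).card : ℕ) : ℝ) *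
        ∑ p ∈ (univ : Finset X) ×ˢ (univ : Finset Y).offDiag,
          (∑ z, a p.1 p.2.1 z * a p.1 p.2.2 z) ^ 2 := by
      have := sq_sum_le_card_mul_sum_sq (s := (univ : Finset X) ×ˢ (univ : Finset Y).offDiag)
        (f := fun p => ∑ z, a p.1 p.2.1 z * a p.1 p.2.2 z)
      rw [sum_product] at this
      exact this
    have h2 : ∑ p ∈ (univ : Finset X) ×ˢ (univ : Finset Y).offDiag,
          (∑ z, a p.1 p.2.1 z * a p.1 p.2.2 z) ^ 2 ≤
        A + ((univ : Finset Y).offDiag.card : ℝ) * ((univ : Finset Z).offDiag.card : ℝ) := by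
      rw [sum_product]
      have h3 : ∀ (x : X) (p : Y × Y), (∑ z, a x p.1 z * a x p.2 z) ^ 2 =
          ∑ w ∈ (univ : Finset Z).offDiag, a x p.1 w.1 * a x p.2 w.1 * (a x p.1 w.2 * a x p.2 w.2)
            + ∑ z, a x p.1 z * a x p.2 z := by
        intro x p
        rw [sq, sum_mul_sum, ← sum_product', univ_product_univ, ← univ_product_univ,
          ← diag_union_offDiag (univ : Finset Z),
          sum_union (disjoint_diag_offDiag _), add_comm]
        congr 1
        rw [sum_diag]
        apply sum_congr rfl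
        intro z _
        rcases ha x p.1 z with h | h <;> rcases ha x p.2 z with h' | h' <;> rw [h, h'] <;> norm_num
      simp_rw [h3, sum_add_distrib]
      rw [add_comm]
      apply add_le_add
      · exact le_of_eq hA.symm
      · calc ∑ x, ∑ p ∈ (univ : Finset Y).offDiag, ∑ w ∈ (univ : Finset Z).offDiag,
              a x p.1 w.1 * a x p.2 w.1 * (a x p.1 w.2 * a x p.2 w.2)
            = ∑ p ∈ (univ : Finset Y).offDiag, ∑ w ∈ (univ : Finset Z).offDiag, ∑ x,
              a x p.1 w.1 * a x p.2 w.1 * (a x p.1 w.2 * a x p.2 w.2) := by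
              rw [sum_comm]
              apply sum_congr rfl
              intro p _
              rw [sum_comm]
          _ ≤ ∑ p ∈ (univ : Finset Y).offDiag, ∑ w ∈ (univ : Finset Z).offDiag, (1 : ℝ) := by
              apply sum_le_sum
              intro p hp
              apply sum_le_sum
              intro w hw
              exact hbox p.1 p.2 w.1 w.2 (mem_offDiag.mp hp).2.2 (mem_offDiag.mp hw).2.2
          _ = ((univ : Finset Y).offDiag.card : ℝ) * ((univ : Finset Z).offDiag.card : ℝ) := by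
              simp
    rw [card_product, card_univ] at h1
    push_cast at h1
    refine h1.trans ?_
    apply mul_le_mul_of_nonneg_left h2
    positivity

/-- the numerical conclusion -/
theorem numeric (q e A P Q : ℝ) (hq : 1 ≤ q) (hA0 : 0 ≤ A) (hP0 : 0 ≤ P)
    (hP : P ≤ q ^ 6) (hQ0 : 0 ≤ Q) (hQ : Q ≤ q ^ 6)
    (h1 : e ^ 2 ≤ (q ^ 4 * q ^ 3) * (A + e)) (h2 : A ^ 2 ≤ (q ^ 4 * P) * (A + P * Q)) :
    e ≤ q ^ 9 + q ^ 8 := by
  have hq0 : (0 : ℝ) < q := by linarith
  have hPQ : P * Q ≤ q ^ 12 := by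
    calc P * Q ≤ q ^ 6 * q ^ 6 := mul_le_mul hP hQ hQ0 (by positivity)
      _ = q ^ 12 := by ring
  have h3 : A ^ 2 ≤ q ^ 10 * (A + q ^ 12) := by
    calc A ^ 2 ≤ (q ^ 4 * P) * (A + P * Q) := h2
      _ ≤ (q ^ 4 * q ^ 6) * (A + q ^ 12) := by
          apply mul_le_mul
          · exact mul_le_mul_of_nonneg_left hP (by positivity)
          · linarith
          · have := mul_nonneg hP0 hQ0
            linarith
          · positivity
      _ = q ^ 10 * (A + q ^ 12) := by ring
  have hA : A ≤ q ^ 11 + q ^ 10 := by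
    by_contra h
    push Not at h
    have h4 : (q ^ 11 + q ^ 10) * q ^ 11 < A * (A - q ^ 10) := by
      apply mul_lt_mul h (by linarith) (by positivity) hA0
    have h5 : A * (A - q ^ 10) ≤ q ^ 22 := by nlinarith
    have h6 : (q ^ 11 + q ^ 10) * q ^ 11 = q ^ 22 + q ^ 21 := by ring
    have h7 : (0 : ℝ) < q ^ 21 := by positivity
    linarith
  by_contra h
  push Not at h
  have e0 : 0 ≤ e := by
    have : (0 : ℝ) < q ^ 9 + q ^ 8 := by positivity
    linarith
  have h78 : q ^ 7 ≤ q ^ 8 := pow_le_pow_right₀ hq (by norm_num)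
  have h4 : (q ^ 9 + q ^ 8) * q ^ 9 < e * (e - q ^ 7) := by
    apply mul_lt_mul h (by linarith) (by positivity) e0
  have h5 : e * (e - q ^ 7) ≤ q ^ 7 * A := by nlinarith
  have h6 : q ^ 7 * A ≤ q ^ 7 * (q ^ 11 + q ^ 10) := mul_le_mul_of_nonneg_left hA (by positivity)
  have h7 : q ^ 7 * (q ^ 11 + q ^ 10) = (q ^ 9 + q ^ 8) * q ^ 9 := by ring
  linarith

end Pool.Agent.Lib.MP_f6ab77_co
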