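import Mathlib
import Pool.Agent.Lib.MP_f6ab77_co.SharpUpper

set_option autoImplicit false

namespace Pool.Agent.Lib.MP_f6ab77_co

open Finset

theorem eq_mk3 {n : Fin 3 → ℕ} (g : ∀ i : Fin 3, Fin (n i)) : mk3 (g 0) (g 1) (g 2) = g := by
  funext i
  fin_cases i
  · rfl
  · rfl
  · rfl

/-- the upper bound for parts `q^4, q^3, q^3` -/
theorem upper_sharp (q : ℕ) (hq : 1 ≤ q) (n : Fin 3 → ℕ) (hn0 : n 0 = q ^ 4) (hn1 : n 1 = q ^ 3)
    (hn2 : n 2 = q ^ 3) (H : Finset (Finset (Σ i, Fin (n i)))) (hH : IsPartite H)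
    (hfree : ¬ H.ContainsCompletePartiteHypergraph 3 2) : H.card ≤ q ^ 9 + q ^ 8 := by
  classical
  let a : Fin (n 0) → Fin (n 1) → Fin (n 2) → ℝ :=
    fun x y z => if transversal (mk3 x y z) ∈ H then 1 else 0
  have ha : ∀ x y z, a x y z = 0 ∨ a x y z = 1 := by
    intro x y z
    by_cases h : transversal (mk3 x y z) ∈ H
    · exact Or.inr (if_pos h)
    · exact Or.inl (if_neg h)
  have ha1 : ∀ x y z, a x y z ≠ 0 → transversal (mk3 x y z) ∈ H := by
    intro x y z h
    by_contra hc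
    exact h (if_neg hc)
  have hno : ∀ x x' y y' z z', x ≠ x' → y ≠ y' → z ≠ z' →
      a x y z * a x y' z * (a x y z' * a x y' z') ≠ 0 →
      a x' y z * a x' y' z * (a x' y z' * a x' y' z') ≠ 0 → False := by
    intro x x' y y' z z' hx hy hz h h'
    rw [mul_ne_zero_iff, mul_ne_zero_iff, mul_ne_zero_iff] at h h'
    apply hfree
    rw [contains_iff (by norm_num) H hH]
    refine ⟨![{(x : ℕ), (x' : ℕ)}, {(y : ℕ), (y' : ℕ)}, {(z : ℕ), (z' : ℕ)}], ?_, ?_, ?_⟩
    · intro i
      fin_cases i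
      · intro b hb
        have hb' : b ∈ ({(x : ℕ), (x' : ℕ)} : Finset ℕ) := hb
        rw [mem_insert, mem_singleton] at hb'
        rw [mem_range]
        rcases hb' with h0 | h0
        · rw [h0]; exact x.isLt
        · rw [h0]; exact x'.isLt
      · intro b hb
        have hb' : b ∈ ({(y : ℕ), (y' : ℕ)} : Finset ℕ) := hb
        rw [mem_insert, mem_singleton] at hb'
        rw [mem_range]
        rcases hb' with h0 | h0
        · rw [h0]; exact y.isLt
        · rw [h0]; exact y'.isLt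
      · intro b hb
        have hb' : b ∈ ({(z : ℕ), (z' : ℕ)} : Finset ℕ) := hb
        rw [mem_insert, mem_singleton] at hb'
        rw [mem_range]
        rcases hb' with h0 | h0
        · rw [h0]; exact z.isLt
        · rw [h0]; exact z'.isLt
    · intro i
      fin_cases i
      · exact card_pair (fun h => hx (Fin.ext h))
      · exact card_pair (fun h => hy (Fin.ext h))
      · exact card_pair (fun h => hz (Fin.ext h))
    · intro g hg
      have g0 : ((g 0 : Fin (n 0)) : ℕ) ∈ ({(x : ℕ), (x' : ℕ)} : Finset ℕ) := hg 0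
      have g1 : ((g 1 : Fin (n 1)) : ℕ) ∈ ({(y : ℕ), (y' : ℕ)} : Finset ℕ) := hg 1
      have g2 : ((g 2 : Fin (n 2)) : ℕ) ∈ ({(z : ℕ), (z' : ℕ)} : Finset ℕ) := hg 2
      rw [mem_insert, mem_singleton] at g0 g1 g2
      rw [← eq_mk3 g]
      rcases g0 with g0 | g0 <;> rcases g1 with g1 | g1 <;> rcases g2 with g2 | g2 <;>
        rw [Fin.ext g0, Fin.ext g1, Fin.ext g2]
      · exact ha1 _ _ _ h.1.1
      · exact ha1 _ _ _ h.2.1
      · exact ha1 _ _ _ h.1.2
      · exact ha1 _ _ _ h.2.2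
      · exact ha1 _ _ _ h'.1.1
      · exact ha1 _ _ _ h'.2.1
      · exact ha1 _ _ _ h'.1.2
      · exact ha1 _ _ _ h'.2.2
  have hle1 : ∀ x y y' z z', a x y z * a x y' z * (a x y z' * a x y' z') ≤ 1 := by
    intro x y y' z z'
    rcases ha x y z with h1 | h1 <;> rcases ha x y' z with h2 | h2 <;>
      rcases ha x y z' with h3 | h3 <;> rcases ha x y' z' with h4 | h4 <;>
      rw [h1, h2, h3, h4] <;> norm_num
  have hbox : ∀ y y' z z', y ≠ y' → z ≠ z' →
      ∑ x, a x y z * a x y' z * (a x y z' * a x y' z') ≤ 1 := by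
    intro y y' z z' hy hz
    by_cases hex : ∃ x0, a x0 y z * a x0 y' z * (a x0 y z' * a x0 y' z') ≠ 0
    · obtain ⟨x0, hx0⟩ := hex
      rw [sum_eq_single x0]
      · exact hle1 _ _ _ _ _
      · intro x _ hx
        by_contra hc
        exact hno x x0 y y' z z' hx hy hz hc hx0
      · intro h
        exact absurd (mem_univ _) h
    · push Not at hex
      rw [sum_eq_zero (fun x _ => hex x)]
      norm_num
  obtain ⟨A, hA0, h1, h2⟩ := tensor_count a ha hbox
  -- the number of edges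
  have hcard : (H.card : ℝ) ≤ ∑ x, ∑ z, ∑ y, a x y z := by
    have hsub : H ⊆ ((univ : Finset (Fin (n 0) × Fin (n 2) × Fin (n 1))).filter
        (fun p => transversal (mk3 p.1 p.2.2 p.2.1) ∈ H)).image
        (fun p => transversal (mk3 p.1 p.2.2 p.2.1)) := by
      intro e he
      obtain ⟨g, rfl⟩ := (isPartite_iff H).mp hH e he
      rw [mem_image]
      refine ⟨(g 0, g 2, g 1), ?_, ?_⟩
      · rw [mem_filter]
        refine ⟨mem_univ _, ?_⟩
        rw [eq_mk3]
        exact he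
      · rw [eq_mk3]
    have h3 := (card_le_card hsub).trans card_image_le
    have h4 : (((univ : Finset (Fin (n 0) × Fin (n 2) × Fin (n 1))).filter
        (fun p => transversal (mk3 p.1 p.2.2 p.2.1) ∈ H)).card : ℝ) = ∑ x, ∑ z, ∑ y, a x y z := by
      rw [card_filter]
      push_cast
      rw [Fintype.sum_prod_type]
      apply sum_congr rfl
      intro x _
      rw [Fintype.sum_prod_type]
    rw [← h4]
    exact_mod_cast h3
  set E : ℝ := ∑ x, ∑ z, ∑ y, a x y z with hE
  have hqR : (1 : ℝ) ≤ q := by exact_mod_cast hq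
  rw [Fintype.card_fin, Fintype.card_fin, hn0, hn2] at h1
  rw [Fintype.card_fin, hn0] at h2
  have hoff1 : (((univ : Finset (Fin (n 1))).offDiag.card : ℕ) : ℝ) ≤ (q : ℝ) ^ 6 := by
    have : (univ : Finset (Fin (n 1))).offDiag.card ≤ q ^ 6 := by
      rw [offDiag_card, card_univ, Fintype.card_fin, hn1]
      calc q ^ 3 * q ^ 3 - q ^ 3 ≤ q ^ 3 * q ^ 3 := Nat.sub_le _ _
        _ = q ^ 6 := by ring
    exact_mod_cast this
  have hoff2 : (((univ : Finset (Fin (n 2))).offDiag.card : ℕ) : ℝ) ≤ (q : ℝ) ^ 6 := by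
    have : (univ : Finset (Fin (n 2))).offDiag.card ≤ q ^ 6 := by
      rw [offDiag_card, card_univ, Fintype.card_fin, hn2]
      calc q ^ 3 * q ^ 3 - q ^ 3 ≤ q ^ 3 * q ^ 3 := Nat.sub_le _ _
        _ = q ^ 6 := by ring
    exact_mod_cast this
  push_cast at h1 h2
  have := numeric q E A _ _ hqR hA0 (Nat.cast_nonneg _) hoff1 (Nat.cast_nonneg _) hoff2 h1 h2
  have h5 : (H.card : ℝ) ≤ (q : ℝ) ^ 9 + (q : ℝ) ^ 8 := hcard.trans this
  exact_mod_cast h5

/-- the lower bound for parts `q^4, q^3, q^3`, from a field with `q` elements -/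
theorem lower_sharp_field (F : Type) [Field F] [Fintype F] (q : ℕ) (hF : Fintype.card F = q)
    (n : Fin 3 → ℕ) (hn0 : n 0 = q ^ 4)
    (hn1 : n 1 = q ^ 3) (hn2 : n 2 = q ^ 3) :
    ∃ H : Finset (Finset (Σ i, Fin (n i))), IsPartite H ∧
      ¬ H.ContainsCompletePartiteHypergraph 3 2 ∧ q ^ 9 ≤ H.card + 3 * q ^ 8 := by
  classical
  obtain ⟨ν, hν⟩ := exists_nu F
  have c4 : Fintype.card (Fin 4 → F) = n 0 := by
    rw [Fintype.card_fun, hF, hn0]; simp
  have c3 : Fintype.card (Fin 3 → F) = n 1 := by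
    rw [Fintype.card_fun, hF, hn1]; simp
  have c3' : Fintype.card (Fin 3 → F) = n 2 := by
    rw [Fintype.card_fun, hF, hn2]; simp
  let e0 : Fin (n 0) ≃ (Fin 4 → F) := (Fintype.equivFinOfCardEq c4).symm
  let e1 : Fin (n 1) ≃ (Fin 3 → F) := (Fintype.equivFinOfCardEq c3).symm
  let e2 : Fin (n 2) ≃ (Fin 3 → F) := (Fintype.equivFinOfCardEq c3').symm
  let Ed : (∀ i : Fin 3, Fin (n i)) → Prop := fun g =>
    tri ν (e0 (g 0)) (e1 (g 1)) (e2 (g 2)) = 1 ∧
    e2 (g 2) 0 * e0 (g 0) 0 + e2 (g 2) 1 * e0 (g 0) 1 ≠ 0 ∧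
    e0 (g 0) 1 * e1 (g 1) 0 - e0 (g 0) 0 * e1 (g 1) 1 ≠ 0
  let Q : Finset (∀ i : Fin 3, Fin (n i)) := univ.filter Ed
  have hpart : IsPartite (Q.image transversal) := by
    rw [isPartite_iff]
    intro e he
    obtain ⟨g, _, rfl⟩ := mem_image.mp he
    exact ⟨g, rfl⟩
  refine ⟨Q.image transversal, hpart, ?_, ?_⟩
  · rw [contains_iff (by norm_num) _ hpart]
    rintro ⟨S, hS, hcard, hall⟩
    have hpair : ∀ i, ∃ u u' : Fin (n i), u ≠ u' ∧ (u : ℕ) ∈ S i ∧ (u' : ℕ) ∈ S i := by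
      intro i
      obtain ⟨b, b', hab, hSi⟩ := Finset.card_eq_two.mp (hcard i)
      have hb : b ∈ S i := by rw [hSi]; simp
      have hb' : b' ∈ S i := by rw [hSi]; simp
      refine ⟨⟨b, mem_range.mp (hS i hb)⟩, ⟨b', mem_range.mp (hS i hb')⟩, ?_, hb, hb'⟩
      intro h
      exact hab (congrArg Fin.val h)
    obtain ⟨x, x', hx, hxS, hxS'⟩ := hpair 0
    obtain ⟨y, y', hy, hyS, hyS'⟩ := hpair 1
    obtain ⟨z, z', hz, hzS, hzS'⟩ := hpair 2
    have hE : ∀ (x1 : Fin (n 0)) (y1 : Fin (n 1)) (z1 : Fin (n 2)), (x1 : ℕ) ∈ S 0 →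
        (y1 : ℕ) ∈ S 1 → (z1 : ℕ) ∈ S 2 → Ed (mk3 x1 y1 z1) := by
      intro x1 y1 z1 h0 h1 h2
      have h3 := hall (mk3 x1 y1 z1) (by
        intro i
        fin_cases i
        · exact h0
        · exact h1
        · exact h2)
      obtain ⟨g', hg', h'⟩ := mem_image.mp h3
      rw [transversal_injective h'] at hg'
      exact (mem_filter.mp hg').2
    exact no_box1 ν hν (e0 x) (e0 x') (e1 y) (e1 y') (e2 z) (e2 z')
      (fun h => hx (e0.injective h)) (fun h => hy (e1.injective h))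
      (fun h => hz (e2.injective h)) (hE x y z hxS hyS hzS).2.1 (hE x y z hxS hyS hzS).2.2
      (hE x y z hxS hyS hzS).1 (hE x' y z hxS' hyS hzS).1 (hE x y' z hxS hyS' hzS).1
      (hE x y z' hxS hyS hzS').1 (hE x' y' z hxS' hyS' hzS).1 (hE x' y z' hxS' hyS hzS').1
      (hE x y' z' hxS hyS' hzS').1 (hE x' y' z' hxS' hyS' hzS').1
  · rw [card_image_of_injective _ transversal_injective]
    have hcount : q ^ 6 * (q - 1) ^ 3 ≤ Q.card := by
      let P := Fˣ × F × F × F × F × Fˣ × F × Fˣ × F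
      have hP : Fintype.card P = q ^ 6 * (q - 1) ^ 3 := by
        simp only [P, Fintype.card_prod, Fintype.card_units, hF]
        ring
      rw [← hP, ← card_univ]
      -- (a, b, c, d, e, w, t, v, u)
      let X : P → (Fin 4 → F) := fun p => ![(p.1 : F), p.2.1, p.2.2.1, p.2.2.2.1]
      let f : P → F := fun p => (p.2.1 * p.2.2.2.2.1 - (p.2.2.2.2.2.1 : F)) / (p.1 : F)
      let s : P → F := fun p => ((p.2.2.2.2.2.2.2.1 : F) - p.2.2.2.2.2.2.1 * p.2.1) / (p.1 : F)
      let g : P → F := fun p => (1 + s p * (p.2.2.1 * p.2.2.2.2.1 + ν * p.2.2.2.1 * f p) +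
        p.2.2.2.2.2.2.1 * (p.2.2.1 * f p + p.2.2.2.1 * p.2.2.2.2.1 + p.2.2.2.1 * f p) -
        p.2.2.2.2.2.2.2.2 * (p.2.2.2.2.2.1 : F)) / (p.2.2.2.2.2.2.2.1 : F)
      let Y : P → (Fin 3 → F) := fun p => ![p.2.2.2.2.1, f p, g p]
      let Z : P → (Fin 3 → F) := fun p => ![s p, p.2.2.2.2.2.2.1, p.2.2.2.2.2.2.2.2]
      have hT : ∀ p : P, tri ν (X p) (Y p) (Z p) = 1 ∧
          Z p 0 * X p 0 + Z p 1 * X p 1 = (p.2.2.2.2.2.2.2.1 : F) ∧
          X p 1 * Y p 0 - X p 0 * Y p 1 = (p.2.2.2.2.2.1 : F) := by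
        intro p
        obtain ⟨a, b, c, d, e, w, t, v, u⟩ := p
        have ha : (a : F) ≠ 0 := a.ne_zero
        have hv : (v : F) ≠ 0 := v.ne_zero
        have hs : s (a, b, c, d, e, w, t, v, u) * (a : F) + t * b = v := by
          simp only [s]
          field_simp
          ring
        have hf : b * e - (a : F) * f (a, b, c, d, e, w, t, v, u) = w := by
          simp only [f]
          field_simp
          ring
        have hg : g (a, b, c, d, e, w, t, v, u) * (v : F) =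
            1 + s (a, b, c, d, e, w, t, v, u) * (c * e + ν * d * f (a, b, c, d, e, w, t, v, u)) +
            t * (c * f (a, b, c, d, e, w, t, v, u) + d * e + d * f (a, b, c, d, e, w, t, v, u)) -
            u * (w : F) := by
          simp only [g]
          field_simp
        refine ⟨?_, hs, hf⟩
        show sf ν (s (a, b, c, d, e, w, t, v, u)) t u (a : F) b c d e
          (f (a, b, c, d, e, w, t, v, u)) (g (a, b, c, d, e, w, t, v, u)) 0 = 1
        unfold sf
        linear_combination g (a, b, c, d, e, w, t, v, u) * hs + u * hf + hg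
      apply card_le_card_of_injOn (fun p => mk3 (e0.symm (X p)) (e1.symm (Y p)) (e2.symm (Z p)))
      · intro p _
        simp only [Q, coe_filter, mem_univ, true_and, Set.mem_ofPred_eq]
        obtain ⟨k1, k2, k3⟩ := hT p
        show tri ν (e0 (e0.symm (X p))) (e1 (e1.symm (Y p))) (e2 (e2.symm (Z p))) = 1 ∧
          e2 (e2.symm (Z p)) 0 * e0 (e0.symm (X p)) 0 +
            e2 (e2.symm (Z p)) 1 * e0 (e0.symm (X p)) 1 ≠ 0 ∧
          e0 (e0.symm (X p)) 1 * e1 (e1.symm (Y p)) 0 -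
            e0 (e0.symm (X p)) 0 * e1 (e1.symm (Y p)) 1 ≠ 0
        rw [Equiv.apply_symm_apply, Equiv.apply_symm_apply, Equiv.apply_symm_apply]
        refine ⟨k1, ?_, ?_⟩
        · rw [k2]; exact p.2.2.2.2.2.2.2.1.ne_zero
        · rw [k3]; exact p.2.2.2.2.2.1.ne_zero
      · intro p _ p' _ h
        have h0 : e0.symm (X p) = e0.symm (X p') := congrFun h 0
        have h1 : e1.symm (Y p) = e1.symm (Y p') := congrFun h 1
        have h2 : e2.symm (Z p) = e2.symm (Z p') := congrFun h 2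
        have hX := e0.symm.injective h0
        have hY := e1.symm.injective h1
        have hZ := e2.symm.injective h2
        obtain ⟨k1, k2, k3⟩ := hT p
        obtain ⟨l1, l2, l3⟩ := hT p'
        rw [hX, hZ, l2] at k2
        rw [hX, hY, l3] at k3
        obtain ⟨a, b, c, d, e, w, t, v, u⟩ := p
        obtain ⟨a', b', c', d', e', w', t', v', u'⟩ := p'
        have ea : (a : F) = a' := congrFun hX 0
        have eb : b = b' := congrFun hX 1
        have ec : c = c' := congrFun hX 2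
        have ed : d = d' := congrFun hX 3
        have ee : e = e' := congrFun hY 0
        have et : t = t' := congrFun hZ 1
        have eu : u = u' := congrFun hZ 2
        have ev : (v' : F) = v := k2
        have ew : (w' : F) = w := k3
        rw [Units.ext ea, eb, ec, ed, ee, Units.ext ew.symm, et, Units.ext ev.symm, eu]
    have hq1 : 1 ≤ q := by rw [← hF]; exact Fintype.card_pos
    obtain ⟨j, rfl⟩ : ∃ j, q = j + 1 := ⟨q - 1, by omega⟩
    have e1 : (j + 1) ^ 9 ≤ (j + 1) ^ 6 * (j + 1 - 1) ^ 3 + 3 * (j + 1) ^ 8 := by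
      rw [Nat.add_sub_cancel]
      have : (j + 1) ^ 6 * j ^ 3 + 3 * (j + 1) ^ 8 = (j + 1) ^ 9 + (j + 1) ^ 6 * (3 * j + 2) := by
        ring
      omega
    omega

/-- the lower bound for parts `q^4, q^3, q^3` -/
theorem lower_sharp (q : ℕ) (hq : IsPrimePow q) (n : Fin 3 → ℕ) (hn0 : n 0 = q ^ 4)
    (hn1 : n 1 = q ^ 3) (hn2 : n 2 = q ^ 3) :
    ∃ H : Finset (Finset (Σ i, Fin (n i))), IsPartite H ∧
      ¬ H.ContainsCompletePartiteHypergraph 3 2 ∧ q ^ 9 ≤ H.card + 3 * q ^ 8 := by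
  obtain ⟨p, k, hp, hk, hpk⟩ := (isPrimePow_nat_iff q).mp hq
  have : Fact p.Prime := ⟨hp⟩
  let _ : Fintype (GaloisField p k) := Fintype.ofFinite _
  have hF : Fintype.card (GaloisField p k) = q := by
    rw [← Nat.card_eq_fintype_card, GaloisField.card p k (by omega), hpk]
  exact lower_sharp_field (GaloisField p k) q hF n hn0 hn1 hn2

end Pool.Agent.Lib.MP_f6ab77_co
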