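import Mathlib
import Pool.Agent.Lib.MP_f6ab77_co.Upper

set_option autoImplicit false

namespace Pool.Agent.Lib.MP_f6ab77_co

open Finset

theorem expo_tail (r j k : ℕ) (hr : 2 ≤ r) :
    (r : ℝ) ^ (1 + (j : ℝ) - ((j + k + 1 : ℕ) : ℝ)) = (((r ^ k : ℕ) : ℝ))⁻¹ := by
  have hr0 : (0 : ℝ) < r := by
    have : 0 < r := by omega
    exact_mod_cast this
  push_cast
  rw [show (1 : ℝ) + (j : ℝ) - ((j : ℝ) + (k : ℝ) + 1) = -(k : ℝ) by ring, Real.rpow_neg hr0.le,
    Real.rpow_natCast]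

/-- the lower bound, using only the parts from `j` on -/
theorem lower_tail (j k r : ℕ) (hr : 2 ≤ r) (m : Fin (j + k + 1) → ℕ) (hm1 : ∀ i, 1 ≤ m i)
    (hm : ∀ i : Fin (j + k + 1), j < (i : ℕ) →
      (m i) ^ (r ^ ((i : ℕ) - j)) ≤ (m ⟨j, by omega⟩) ^ 2) :
    ∃ (P : ℕ) (c : (∀ i, Fin (m i)) → Fin P),
      (P : ℝ) ≤ 16 * (m ⟨j, by omega⟩ : ℝ) ^ ((r : ℝ) ^ (1 + (j : ℝ) - ((j + k + 1 : ℕ) : ℝ))) ∧
      (∀ z, ¬ (colourClass c z).ContainsCompletePartiteHypergraph (j + k + 1) r) ∧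
      ∃ z, (1 / 16 : ℝ) * (∏ i, (m i : ℝ)) *
        (m ⟨j, by omega⟩ : ℝ) ^ (-(r : ℝ) ^ (1 + (j : ℝ) - ((j + k + 1 : ℕ) : ℝ))) ≤
        ((colourClass c z).card : ℝ) := by
  classical
  set N := m ⟨j, by omega⟩ with hNdef
  have hN1 : 1 ≤ N := hm1 _
  obtain ⟨P, f, hP1, hfP, -, ⟨B, hB, hPB⟩, hgood⟩ := exists_level r hr N hN1 k
    (fun i : Fin (k + 1) => m ⟨j + (i : ℕ), by omega⟩) le_rfl (by
      intro i
      rcases Nat.eq_zero_or_pos (i : ℕ) with h | h
      · have e : m ⟨j + (i : ℕ), by omega⟩ = N := by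
          rw [hNdef]
          congr 1
          apply Fin.ext
          show j + (i : ℕ) = j
          omega
        show (m ⟨j + (i : ℕ), by omega⟩) ^ (r ^ (i : ℕ)) ≤ N ^ 2
        rw [e, h, pow_zero]
        exact Nat.pow_le_pow_right hN1 (by norm_num)
      · have h1 := hm ⟨j + (i : ℕ), by omega⟩ (by show j < j + (i : ℕ); omega)
        have e : (((⟨j + (i : ℕ), by omega⟩ : Fin (j + k + 1)) : ℕ) - j) = (i : ℕ) := by
          show j + (i : ℕ) - j = (i : ℕ)
          omega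
        rw [e] at h1
        exact h1)
  have hB16 : B ≤ 16 ^ (r ^ k) := by
    rw [hB]
    calc 4 ^ (∑ j ∈ range k, r ^ (j + 1)) ≤ 4 ^ (2 * r ^ k) :=
          Nat.pow_le_pow_right (by norm_num) (geom_bound r hr k)
      _ = 16 ^ (r ^ k) := by rw [pow_mul]; norm_num
  set c : (∀ i, Fin (m i)) → Fin P :=
    fun g => ⟨f (fun i : Fin (k + 1) => (g ⟨j + (i : ℕ), by omega⟩ : ℕ)), hfP _⟩ with hc
  have hk : 0 < r ^ k := by positivity
  have hN : (0 : ℝ) < (N : ℝ) := by exact_mod_cast (by omega : 0 < N)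
  have hPle : (P : ℝ) ≤ 16 * (N : ℝ) ^ (((r ^ k : ℕ) : ℝ)⁻¹) := by
    apply root_le P N (r ^ k) 16 hk (by norm_num)
    have : P ^ (r ^ k) ≤ 16 ^ (r ^ k) * N := hPB.trans (Nat.mul_le_mul_right _ hB16)
    exact_mod_cast this
  have hcard : ∀ z, (colourClass c z).card = (univ.filter (fun g => c g = z)).card := by
    intro z
    unfold colourClass
    rw [card_image_of_injective _ transversal_injective]
  have hsum : ∑ z : Fin P, (colourClass c z).card = ∏ i, m i := by
    simp_rw [hcard]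
    rw [← card_eq_sum_card_fiberwise (f := c) (s := univ) (t := univ) (by intro g _; simp)]
    rw [card_univ, Fintype.card_pi]
    simp
  have hPF : Nonempty (Fin P) := ⟨⟨0, by omega⟩⟩
  obtain ⟨z, hz⟩ : ∃ z, ∏ i, m i ≤ P * (colourClass c z).card := by
    by_contra hcon
    push Not at hcon
    have h1 : ∑ z : Fin P, P * (colourClass c z).card < ∑ _z : Fin P, ∏ i, m i :=
      sum_lt_sum_of_nonempty univ_nonempty (fun z _ => hcon z)
    rw [← mul_sum, hsum, sum_const, card_univ, Fintype.card_fin, smul_eq_mul] at h1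
    exact lt_irrefl _ h1
  rw [expo_tail r j k hr]
  refine ⟨P, c, hPle, ?_, z, ?_⟩
  · intro z
    have hpart : IsPartite (colourClass c z) := by
      rw [isPartite_iff]
      intro e he
      obtain ⟨g, _, rfl⟩ := mem_image.mp he
      exact ⟨g, rfl⟩
    rw [contains_iff (by omega) _ hpart]
    rintro ⟨S, hS, hcardS, hall⟩
    have hne0 : ∀ i, ∃ x, x ∈ S i := by
      intro i
      have : 0 < (S i).card := by rw [hcardS]; omega
      exact card_pos.mp this
    choose e0 he0 using hne0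
    obtain ⟨e', he', hne⟩ := hgood z (fun i : Fin (k + 1) => S ⟨j + (i : ℕ), by omega⟩)
      (fun i => hS _) (fun i => hcardS _)
    let e : Fin (j + k + 1) → ℕ := fun i =>
      if h : j ≤ (i : ℕ) then e' ⟨(i : ℕ) - j, by omega⟩ else e0 i
    have he : ∀ i, e i ∈ S i := by
      intro i
      by_cases h : j ≤ (i : ℕ)
      · simp only [e, dif_pos h]
        have h1 := he' ⟨(i : ℕ) - j, by omega⟩
        have e2 : (⟨j + ((⟨(i : ℕ) - j, by omega⟩ : Fin (k + 1)) : ℕ), by
            show j + ((i : ℕ) - j) < j + k + 1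
            omega⟩ : Fin (j + k + 1)) = i := by
          apply Fin.ext
          show j + ((i : ℕ) - j) = (i : ℕ)
          omega
        rw [e2] at h1
        exact h1
      · simp only [e, dif_neg h]
        exact he0 i
    have h1 := hall (fun i => ⟨e i, mem_range.mp (hS i (he i))⟩) he
    obtain ⟨g, hg, hgt⟩ := mem_image.mp h1
    have h2 := transversal_injective hgt
    rw [h2, mem_filter] at hg
    apply hne
    have h3 : f (fun i : Fin (k + 1) => e ⟨j + (i : ℕ), by omega⟩) = (z : ℕ) :=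
      congrArg Fin.val hg.2
    have h4 : (fun i : Fin (k + 1) => e ⟨j + (i : ℕ), by omega⟩) = e' := by
      funext i
      have h5 : j ≤ ((⟨j + (i : ℕ), by omega⟩ : Fin (j + k + 1)) : ℕ) := by
        show j ≤ j + (i : ℕ)
        omega
      simp only [e, dif_pos h5]
      congr 1
      apply Fin.ext
      show j + (i : ℕ) - j = (i : ℕ)
      omega
    rw [h4] at h3
    exact h3
  · have hP0 : (0 : ℝ) < P := by exact_mod_cast hP1
    rw [Real.rpow_neg hN.le]
    have hpow : (0 : ℝ) < (N : ℝ) ^ (((r ^ k : ℕ) : ℝ)⁻¹) := Real.rpow_pos_of_pos hN _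
    have hz' : (∏ i, (m i : ℝ)) ≤ P * (colourClass c z).card := by exact_mod_cast hz
    calc (1 / 16 : ℝ) * (∏ i, (m i : ℝ)) * ((N : ℝ) ^ (((r ^ k : ℕ) : ℝ)⁻¹))⁻¹
        = (∏ i, (m i : ℝ)) / (16 * (N : ℝ) ^ (((r ^ k : ℕ) : ℝ)⁻¹)) := by
          field_simp
      _ ≤ (∏ i, (m i : ℝ)) / P := by
          apply div_le_div_of_nonneg_left _ hP0 hPle
          exact prod_nonneg (fun i _ => Nat.cast_nonneg _)
      _ ≤ (colourClass c z).card := by
          rw [div_le_iff₀ hP0]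
          linarith [mul_comm (P : ℝ) ((colourClass c z).card : ℝ)]

/-- the upper bound for arbitrary sizes -/
theorem upper_tail (j k r : ℕ) (hr : 2 ≤ r) (m : Fin (j + k + 1) → ℕ) (hm1 : ∀ i, 1 ≤ m i)
    (hj : ∀ i : Fin (j + k + 1), (m ⟨j, by omega⟩) ^ (r ^ j) ≤ (m i) ^ (r ^ (i : ℕ)))
    (H : Finset (Finset (Σ i, Fin (m i)))) (hH : IsPartite H)
    (hfree : ¬ H.ContainsCompletePartiteHypergraph (j + k + 1) r) :
    (H.card : ℝ) ≤ 2 * r * (∏ i, (m i : ℝ)) *
      (m ⟨j, by omega⟩ : ℝ) ^ (-(r : ℝ) ^ (1 + (j : ℝ) - ((j + k + 1 : ℕ) : ℝ))) := by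
  classical
  set V : Finset (∀ i, Fin (m i)) := univ.filter (fun g => transversal g ∈ H) with hV
  have hHV : H = V.image transversal := by
    ext e
    rw [mem_image]
    constructor
    · intro he
      obtain ⟨g, hg⟩ := (isPartite_iff H).mp hH e he
      refine ⟨g, ?_, hg⟩
      rw [hV, mem_filter]
      exact ⟨mem_univ _, by rw [hg]; exact he⟩
    · rintro ⟨g, hg, rfl⟩
      rw [hV, mem_filter] at hg
      exact hg.2
  have hinj : Function.Injective (fun (g : ∀ i, Fin (m i)) (i : Fin (j + k + 1)) => (g i : ℕ)) := by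
    intro g g' h
    funext i
    exact Fin.ext (congrFun h i)
  set E : Finset (Fin (j + k + 1) → ℕ) := V.image (fun g i => (g i : ℕ)) with hE
  have hcard : H.card = E.card := by
    rw [hHV, card_image_of_injective _ transversal_injective, hE, card_image_of_injective _ hinj]
  have hEbox : E ⊆ box m := by
    intro e he
    obtain ⟨g, _, rfl⟩ := mem_image.mp he
    rw [mem_box]
    intro i
    exact (g i).isLt
  have hEfree : BoxFree r m E := by
    intro S hS hcardS
    by_contra hcon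
    push Not at hcon
    apply hfree
    rw [contains_iff (by omega) H hH]
    refine ⟨S, hS, hcardS, fun g hg => ?_⟩
    obtain ⟨g', hg', h⟩ := mem_image.mp (hcon (fun i => (g i : ℕ)) hg)
    rw [hV, mem_filter] at hg'
    rw [← hinj h]
    exact hg'.2
  set N := m ⟨j, by omega⟩ with hNdef
  have hN1 : 1 ≤ N := hm1 _
  have hN : (0 : ℝ) < (N : ℝ) := by exact_mod_cast (by omega : 0 < N)
  have hr0 : (0 : ℝ) < r := by
    have : 0 < r := by omega
    exact_mod_cast this
  have h := upper_core r hr (N ^ (r ^ j)) (Nat.one_le_pow _ _ hN1) (j + k) m hm1 hj E hEbox hEfree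
  have e1 : (((N ^ (r ^ j) : ℕ)) : ℝ) ^ ((((r ^ (j + k) : ℕ)) : ℝ)⁻¹) =
      (N : ℝ) ^ (((r ^ k : ℕ) : ℝ)⁻¹) := by
    push_cast
    rw [← Real.rpow_natCast (N : ℝ) (r ^ j), ← Real.rpow_mul hN.le]
    congr 1
    push_cast
    rw [pow_add]
    field_simp
  rw [e1] at h
  rw [hcard, expo_tail r j k hr, Real.rpow_neg hN.le]
  exact h

end Pool.Agent.Lib.MP_f6ab77_co
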